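import Mathlib

set_option autoImplicit false

namespace Pool.Agent.Lib.MP_0ad4be_co

open Matrix Finset

/-- Finite rearrangement inequality behind the Ky Fan principle. -/
theorem sum_top {N : ℕ} (lam : Fin N → ℝ) (hl : Antitone lam) (q : Fin N → ℝ)
    (h0 : ∀ i, 0 ≤ q i) (h1 : ∀ i, q i ≤ 1) (k : ℕ) (hk : ∑ i, q i = k) :
    ∑ i, lam i * q i ≤ ∑ i : Fin N, if (i : ℕ) < k then lam i else 0 := by
  classical
  rcases Nat.eq_zero_or_pos N with hN | hN
  · subst hN
    simp
  have hkN : k ≤ N := by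
    have : (k : ℝ) ≤ N := by
      rw [← hk]
      calc ∑ i, q i ≤ ∑ _i : Fin N, (1 : ℝ) := Finset.sum_le_sum fun i _ => h1 i
        _ = N := by simp
    exact_mod_cast this
  rcases Nat.eq_zero_or_pos k with h | h
  · subst h
    have hz : ∀ i, q i = 0 := by
      intro i
      have := (Finset.sum_eq_zero_iff_of_nonneg (s := Finset.univ) (f := q)
        (fun i _ => h0 i)).mp (by rw [hk]; simp)
      exact this i (Finset.mem_univ i)
    simp [hz]
  -- threshold
  set c : ℝ := lam ⟨k - 1, by omega⟩ with hc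
  have hcard : ∑ i : Fin N, (if (i : ℕ) < k then (1 : ℝ) else 0) = k := by
    rw [Finset.sum_ite]
    simp only [Finset.sum_const, nsmul_eq_mul, mul_one, mul_zero, add_zero]
    have : (Finset.univ.filter fun i : Fin N => (i : ℕ) < k).card = k := by
      have h2 : (Finset.univ.filter fun i : Fin N => (i : ℕ) < k)
          = Finset.univ.map (Fin.castLEEmb hkN) := by
        ext i
        simp only [Finset.mem_filter, Finset.mem_univ, true_and, Finset.mem_map,
          Fin.castLEEmb_apply]
        constructor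
        · intro hi
          exact ⟨⟨i, hi⟩, by ext; simp⟩
        · rintro ⟨a, ha⟩
          rw [← ha]
          simp
      rw [h2]
      simp
    exact_mod_cast this
  have key : ∀ i : Fin N, lam i * q i - (if (i : ℕ) < k then lam i else 0)
      ≤ c * (q i - if (i : ℕ) < k then 1 else 0) := by
    intro i
    by_cases hi : (i : ℕ) < k
    · simp only [hi, if_true]
      have hle : c ≤ lam i := hl (by
        rw [Fin.le_def]
        simp only
        omega)
      nlinarith [h1 i, h0 i]
    · simp only [hi, if_false, sub_zero]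
      have hle : lam i ≤ c := hl (by
        rw [Fin.le_def]
        simp only
        omega)
      nlinarith [h1 i, h0 i]
  have hsum := Finset.sum_le_sum (s := Finset.univ) fun i _ => key i
  rw [Finset.sum_sub_distrib, ← Finset.mul_sum, Finset.sum_sub_distrib, hk, hcard] at hsum
  linarith

variable {n : Type*} [Fintype n] [DecidableEq n]

/-- Orthogonal diagonalization of a real symmetric matrix. -/
theorem diag {A : Matrix n n ℝ} (hA : A.IsHermitian) :
    ∃ U : Matrix n n ℝ, U * Uᵀ = 1 ∧ Uᵀ * U = 1 ∧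
      A = U * Matrix.diagonal hA.eigenvalues * Uᵀ := by
  refine ⟨(hA.eigenvectorUnitary : Matrix n n ℝ), ?_, ?_, ?_⟩
  · have := Unitary.coe_mul_star_self hA.eigenvectorUnitary
    rwa [Unitary.coe_star, Matrix.star_eq_conjTranspose, Matrix.conjTranspose_eq_transpose_of_trivial] at this
  · have := Unitary.coe_star_mul_self hA.eigenvectorUnitary
    rwa [Matrix.star_eq_conjTranspose, Matrix.conjTranspose_eq_transpose_of_trivial] at this
  · have := hA.spectral_theorem
    rw [Unitary.conjStarAlgAut_apply] at this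
    rw [Matrix.star_eq_conjTranspose, Matrix.conjTranspose_eq_transpose_of_trivial] at this
    exact this

/-- Sum of the `k` largest eigenvalues. -/
noncomputable def topSum (A : Matrix n n ℝ) (hA : A.IsHermitian) (k : ℕ) : ℝ :=
  ∑ i : Fin (Fintype.card n), if (i : ℕ) < k then hA.eigenvalues₀ i else 0

/-- Ky Fan, upper bound. -/
theorem trace_le {A : Matrix n n ℝ} (hA : A.IsHermitian) (Q : Matrix n n ℝ) (k : ℕ)
    (h0 : ∀ w, 0 ≤ w ⬝ᵥ (Q *ᵥ w)) (h1 : ∀ w, w ⬝ᵥ (Q *ᵥ w) ≤ w ⬝ᵥ w) (ht : Q.trace = k) :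
    (A * Q).trace ≤ topSum A hA k := by
  obtain ⟨U, hU1, hU2, hAU⟩ := diag hA
  set q : n → ℝ := fun i => (Uᵀ * Q * U) i i with hq
  have hqi : ∀ i, q i = (fun j => U j i) ⬝ᵥ (Q *ᵥ (fun j => U j i)) := by
    intro i
    simp only [hq, Matrix.mul_apply, Matrix.transpose_apply, dotProduct, Matrix.mulVec,
      Finset.sum_mul, Finset.mul_sum]
    rw [Finset.sum_comm]
    apply Finset.sum_congr rfl; intro a _
    apply Finset.sum_congr rfl; intro b _
    ring
  have hq0 : ∀ i, 0 ≤ q i := fun i => by rw [hqi]; exact h0 _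
  have hq1 : ∀ i, q i ≤ 1 := fun i => by
    rw [hqi]
    refine (h1 _).trans ?_
    have : (Uᵀ * U) i i = 1 := by rw [hU2]; simp
    rw [Matrix.mul_apply] at this
    simp only [Matrix.transpose_apply] at this
    rw [dotProduct, this]
  have hqs : ∑ i, q i = k := by
    have : (Uᵀ * Q * U).trace = k := by
      rw [Matrix.trace_mul_comm, ← Matrix.mul_assoc, hU1, Matrix.one_mul, ht]
    rw [← this]
    rfl
  have htr : (A * Q).trace = ∑ i, hA.eigenvalues i * q i := by
    have h2 : (A * Q).trace = (Matrix.diagonal hA.eigenvalues * (Uᵀ * Q * U)).trace := by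
      conv_lhs => rw [hAU]
      rw [Matrix.mul_assoc, Matrix.mul_assoc, Matrix.trace_mul_comm]
      simp only [Matrix.mul_assoc]
    rw [h2]
    simp [Matrix.trace, Matrix.diagonal_mul, hq]
  rw [htr, topSum]
  set e := (Fintype.equivOfCardEq (Fintype.card_fin (Fintype.card n)) :
    Fin (Fintype.card n) ≃ n)
  have h3 : ∑ i, hA.eigenvalues i * q i = ∑ j, hA.eigenvalues₀ j * q (e j) := by
    rw [← Equiv.sum_comp e]
    apply Finset.sum_congr rfl
    intro j _
    simp [Matrix.IsHermitian.eigenvalues, e]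
  rw [h3]
  apply sum_top _ hA.eigenvalues₀_antitone _ (fun j => hq0 _) (fun j => hq1 _)
  rw [← hqs, ← Equiv.sum_comp e]

/-- Ky Fan, attainment. -/
theorem exists_proj {A : Matrix n n ℝ} (hA : A.IsHermitian) (k : ℕ) (hk : k ≤ Fintype.card n) :
    ∃ P : Matrix n n ℝ, (∀ w, 0 ≤ w ⬝ᵥ (P *ᵥ w)) ∧ (∀ w, w ⬝ᵥ (P *ᵥ w) ≤ w ⬝ᵥ w) ∧
      P.trace = k ∧ (A * P).trace = topSum A hA k := by
  obtain ⟨U, hU1, hU2, hAU⟩ := diag hA
  set e := (Fintype.equivOfCardEq (Fintype.card_fin (Fintype.card n)) :
    Fin (Fintype.card n) ≃ n) with he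
  set p : n → ℝ := fun i => if ((e.symm i : Fin _) : ℕ) < k then 1 else 0 with hp
  have quad : ∀ w, w ⬝ᵥ ((U * Matrix.diagonal p * Uᵀ) *ᵥ w)
      = ∑ i, p i * (Uᵀ *ᵥ w) i ^ 2 := by
    intro w
    rw [← Matrix.mulVec_mulVec, ← Matrix.mulVec_mulVec, Matrix.dotProduct_mulVec]
    have : w ᵥ* U = Uᵀ *ᵥ w := by rw [Matrix.mulVec_transpose]
    rw [this, dotProduct]
    apply Finset.sum_congr rfl
    intro i _
    rw [Matrix.mulVec_diagonal]
    ring
  have quad1 : ∀ w, w ⬝ᵥ w = ∑ i, (Uᵀ *ᵥ w) i ^ 2 := by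
    intro w
    have h2 : (Uᵀ *ᵥ w) ⬝ᵥ (Uᵀ *ᵥ w) = w ⬝ᵥ w := by
      rw [Matrix.dotProduct_mulVec, Matrix.vecMul_transpose, Matrix.mulVec_mulVec, hU1,
        Matrix.one_mulVec]
    rw [← h2, dotProduct]
    apply Finset.sum_congr rfl
    intro i _
    ring
  refine ⟨U * Matrix.diagonal p * Uᵀ, ?_, ?_, ?_, ?_⟩
  · intro w
    rw [quad]
    apply Finset.sum_nonneg
    intro i _
    apply mul_nonneg _ (sq_nonneg _)
    simp only [hp]; split_ifs <;> norm_num
  · intro w
    rw [quad, quad1]
    apply Finset.sum_le_sum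
    intro i _
    have : p i ≤ 1 := by simp only [hp]; split_ifs <;> norm_num
    nlinarith [sq_nonneg ((Uᵀ *ᵥ w) i)]
  · rw [Matrix.trace_mul_comm, ← Matrix.mul_assoc, hU2, Matrix.one_mul, Matrix.trace_diagonal]
    rw [← Equiv.sum_comp e]
    simp only [hp, Equiv.symm_apply_apply]
    rw [Finset.sum_ite]
    simp only [Finset.sum_const, nsmul_eq_mul, mul_one, mul_zero, add_zero]
    have : (Finset.univ.filter fun i : Fin (Fintype.card n) => (i : ℕ) < k).card = k := by
      have h2 : (Finset.univ.filter fun i : Fin (Fintype.card n) => (i : ℕ) < k)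
          = Finset.univ.map (Fin.castLEEmb hk) := by
        ext i
        simp only [Finset.mem_filter, Finset.mem_univ, true_and, Finset.mem_map,
          Fin.castLEEmb_apply]
        constructor
        · intro hi
          exact ⟨⟨i, hi⟩, by ext; simp⟩
        · rintro ⟨a, ha⟩
          rw [← ha]
          simp
      rw [h2]
      simp
    exact_mod_cast this
  · have h2 : A * (U * Matrix.diagonal p * Uᵀ)
        = U * (Matrix.diagonal hA.eigenvalues * Matrix.diagonal p) * Uᵀ := by
      conv_lhs => rw [hAU]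
      calc U * Matrix.diagonal hA.eigenvalues * Uᵀ * (U * Matrix.diagonal p * Uᵀ)
          = U * Matrix.diagonal hA.eigenvalues * (Uᵀ * U) * Matrix.diagonal p * Uᵀ := by
            simp only [Matrix.mul_assoc]
        _ = _ := by rw [hU2]; simp only [Matrix.mul_assoc, Matrix.one_mul]
    rw [h2, Matrix.trace_mul_comm, ← Matrix.mul_assoc, hU2, Matrix.one_mul,
      Matrix.diagonal_mul_diagonal, Matrix.trace_diagonal, topSum]
    rw [← Equiv.sum_comp e]
    apply Finset.sum_congr rfl
    intro j _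
    simp only [hp, Equiv.symm_apply_apply, Matrix.IsHermitian.eigenvalues]
    simp [e]

end Pool.Agent.Lib.MP_0ad4be_co
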