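import Mathlib
import Pool.Agent.Lib.MP_0ad4be_co.KyFan

set_option autoImplicit false
set_option linter.unusedSectionVars false

/-! Sum of the positive eigenvalues of a symmetric kernel on a finite set, as a supremum over
contractions. -/

namespace Pool.Agent.Lib.MP_0ad4be_co.Full

open Finset

variable {α : Type*} [DecidableEq α]

/-- `P`, restricted to `S`, is symmetric and satisfies `0 ≤ P ≤ 1`. -/
structure Con (S : Finset α) (P : α → α → ℝ) : Prop where
  symm : ∀ x ∈ S, ∀ y ∈ S, P x y = P y x
  nonneg : ∀ w : α → ℝ, 0 ≤ ∑ x ∈ S, ∑ y ∈ S, P x y * (w x * w y)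
  le_one : ∀ w : α → ℝ, ∑ x ∈ S, ∑ y ∈ S, P x y * (w x * w y) ≤ ∑ x ∈ S, w x ^ 2

/-- trace pairing -/
def tr (S : Finset α) (A P : α → α → ℝ) : ℝ := ∑ x ∈ S, ∑ y ∈ S, A x y * P x y

/-- sum of the positive eigenvalues of `A` on `S` -/
noncomputable def pp (S : Finset α) (A : α → α → ℝ) : ℝ :=
  sSup {r | ∃ P, Con S P ∧ tr S A P = r}

/-- identity kernel -/
def dl (x y : α) : ℝ := if x = y then 1 else 0

theorem dl_self (x : α) : dl x x = 1 := by simp [dl]

theorem dl_comm (x y : α) : dl x y = dl y x := by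
  simp only [dl, eq_comm]

theorem sum_dl {S : Finset α} {x : α} (hx : x ∈ S) (f : α → ℝ) :
    ∑ y ∈ S, dl x y * f y = f x := by
  simp only [dl, ite_mul, one_mul, zero_mul]
  rw [Finset.sum_ite_eq]
  simp [hx]

theorem qf_dl (S : Finset α) (w : α → ℝ) :
    ∑ x ∈ S, ∑ y ∈ S, dl x y * (w x * w y) = ∑ x ∈ S, w x ^ 2 := by
  apply Finset.sum_congr rfl
  intro x hx
  rw [sum_dl hx (fun y => w x * w y)]
  ring

theorem tr_dl (S : Finset α) (A : α → α → ℝ) : tr S A dl = ∑ x ∈ S, A x x := by
  unfold tr
  apply Finset.sum_congr rfl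
  intro x hx
  calc ∑ y ∈ S, A x y * dl x y = ∑ y ∈ S, dl x y * A x y :=
        Finset.sum_congr rfl fun y _ => mul_comm _ _
    _ = A x x := sum_dl hx _

theorem dl_tr (S : Finset α) (P : α → α → ℝ) : tr S dl P = ∑ x ∈ S, P x x := by
  unfold tr
  apply Finset.sum_congr rfl
  intro x hx
  exact sum_dl hx _

theorem con_zero (S : Finset α) : Con S (fun _ _ => 0) where
  symm := by intros; rfl
  nonneg := by intro w; simp
  le_one := by
    intro w
    simp only [zero_mul, Finset.sum_const_zero]
    positivity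

theorem con_one (S : Finset α) : Con S dl where
  symm := by intro x _ y _; exact dl_comm x y
  nonneg := by
    intro w
    rw [qf_dl]
    positivity
  le_one := by
    intro w
    rw [qf_dl]

theorem Con.compl {S : Finset α} {P : α → α → ℝ} (h : Con S P) :
    Con S (fun x y => dl x y - P x y) where
  symm := by
    intro x hx y hy
    rw [dl_comm, h.symm x hx y hy]
  nonneg := by
    intro w
    simp only [sub_mul, Finset.sum_sub_distrib]
    rw [qf_dl]
    linarith [h.le_one w]
  le_one := by
    intro w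
    simp only [sub_mul, Finset.sum_sub_distrib]
    rw [qf_dl]
    linarith [h.nonneg w]

theorem Con.sub {S T : Finset α} {P : α → α → ℝ} (h : Con S P) (hT : T ⊆ S) : Con T P where
  symm := fun x hx y hy => h.symm x (hT hx) y (hT hy)
  nonneg := by
    intro w
    have h1 := h.nonneg (fun x => if x ∈ T then w x else 0)
    have h2 : ∑ x ∈ S, ∑ y ∈ S, P x y * ((if x ∈ T then w x else 0) * (if y ∈ T then w y else 0))
        = ∑ x ∈ T, ∑ y ∈ T, P x y * (w x * w y) := by
      rw [← Finset.sum_subset hT (f := fun x => ∑ y ∈ S, P x y *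
        ((if x ∈ T then w x else 0) * (if y ∈ T then w y else 0)))]
      · apply Finset.sum_congr rfl
        intro x hx
        rw [← Finset.sum_subset hT]
        · apply Finset.sum_congr rfl
          intro y hy
          rw [if_pos hx, if_pos hy]
        · intro y _ hy
          rw [if_neg hy]
          ring
      · intro x _ hx
        apply Finset.sum_eq_zero
        intro y _
        rw [if_neg hx]
        ring
    rw [h2] at h1
    exact h1
  le_one := by
    intro w
    have h1 := h.le_one (fun x => if x ∈ T then w x else 0)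
    have h2 : ∑ x ∈ S, ∑ y ∈ S, P x y * ((if x ∈ T then w x else 0) * (if y ∈ T then w y else 0))
        = ∑ x ∈ T, ∑ y ∈ T, P x y * (w x * w y) := by
      rw [← Finset.sum_subset hT (f := fun x => ∑ y ∈ S, P x y *
        ((if x ∈ T then w x else 0) * (if y ∈ T then w y else 0)))]
      · apply Finset.sum_congr rfl
        intro x hx
        rw [← Finset.sum_subset hT]
        · apply Finset.sum_congr rfl
          intro y hy
          rw [if_pos hx, if_pos hy]
        · intro y _ hy
          rw [if_neg hy]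
          ring
      · intro x _ hx
        apply Finset.sum_eq_zero
        intro y _
        rw [if_neg hx]
        ring
    have h3 : ∑ x ∈ S, (if x ∈ T then w x else 0) ^ 2 = ∑ x ∈ T, w x ^ 2 := by
      rw [← Finset.sum_subset hT (f := fun x => (if x ∈ T then w x else 0) ^ 2)]
      · apply Finset.sum_congr rfl
        intro x hx
        rw [if_pos hx]
      · intro x _ hx
        rw [if_neg hx]
        ring
    rw [h2, h3] at h1
    exact h1

/-- two point test vectors -/
theorem Con.two {S : Finset α} {P : α → α → ℝ} (h : Con S P) {x y : α} (hx : x ∈ S) (hy : y ∈ S)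
    (hxy : x ≠ y) (a b : ℝ) :
    0 ≤ a ^ 2 * P x x + 2 * (a * b) * P x y + b ^ 2 * P y y ∧
      a ^ 2 * P x x + 2 * (a * b) * P x y + b ^ 2 * P y y ≤ a ^ 2 + b ^ 2 := by
  have hT : ({x, y} : Finset α) ⊆ S := by
    intro z hz
    simp only [Finset.mem_insert, Finset.mem_singleton] at hz
    rcases hz with rfl | rfl <;> assumption
  have h1 := h.sub hT
  have h2 := h1.nonneg (fun z => if z = x then a else b)
  have h3 := h1.le_one (fun z => if z = x then a else b)
  have hyx : y ≠ x := fun h => hxy h.symm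
  simp only [Finset.sum_pair hxy, if_true, if_neg hyx] at h2 h3
  have h4 := h.symm x hx y hy
  rw [← h4] at h2 h3
  constructor
  · linarith
  · linarith

theorem Con.diag_nonneg {S : Finset α} {P : α → α → ℝ} (h : Con S P) {x : α} (hx : x ∈ S) :
    0 ≤ P x x := by
  have h1 := (h.sub (T := {x}) (by simpa using hx)).nonneg (fun _ => 1)
  simpa using h1

theorem Con.diag_le {S : Finset α} {P : α → α → ℝ} (h : Con S P) {x : α} (hx : x ∈ S) :
    P x x ≤ 1 := by
  have h1 := (h.sub (T := {x}) (by simpa using hx)).le_one (fun _ => 1)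
  simpa using h1

theorem Con.abs_le {S : Finset α} {P : α → α → ℝ} (h : Con S P) {x y : α} (hx : x ∈ S)
    (hy : y ∈ S) : |P x y| ≤ 1 := by
  by_cases hxy : x = y
  · subst hxy
    rw [abs_of_nonneg (h.diag_nonneg hx)]
    exact h.diag_le hx
  · have h1 := h.two hx hy hxy 1 1
    have h2 := h.two hx hy hxy 1 (-1)
    rw [_root_.abs_le]
    constructor <;> nlinarith [h.diag_nonneg hx, h.diag_nonneg hy]

/-- weighted AM-GM for off-diagonal entries -/
theorem Con.two_mul_abs_le {S : Finset α} {P : α → α → ℝ} (h : Con S P) {x y : α} (hx : x ∈ S)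
    (hy : y ∈ S) (hxy : x ≠ y) {m : ℝ} (hm : 0 < m) :
    2 * |P x y| ≤ m * P x x + P y y / m := by
  have h1 := (h.two hx hy hxy m 1).1
  have h2 := (h.two hx hy hxy m (-1)).1
  have h3 : m * P x x + P y y / m = (m ^ 2 * P x x + P y y) / m := by
    field_simp
  rw [h3, le_div_iff₀ hm]
  rcases abs_cases (P x y) with ⟨h4, _⟩ | ⟨h4, _⟩ <;> rw [h4] <;> nlinarith

theorem tr_le_abs {S : Finset α} (A : α → α → ℝ) {P : α → α → ℝ} (h : Con S P) :
    tr S A P ≤ ∑ x ∈ S, ∑ y ∈ S, |A x y| := by
  unfold tr
  apply Finset.sum_le_sum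
  intro x hx
  apply Finset.sum_le_sum
  intro y hy
  calc A x y * P x y ≤ |A x y * P x y| := le_abs_self _
    _ = |A x y| * |P x y| := abs_mul _ _
    _ ≤ |A x y| * 1 := by
        apply mul_le_mul_of_nonneg_left (h.abs_le hx hy) (abs_nonneg _)
    _ = |A x y| := mul_one _

theorem pp_bdd (S : Finset α) (A : α → α → ℝ) : BddAbove {r | ∃ P, Con S P ∧ tr S A P = r} := by
  refine ⟨∑ x ∈ S, ∑ y ∈ S, |A x y|, ?_⟩
  rintro r ⟨P, hP, rfl⟩
  exact tr_le_abs A hP

theorem le_pp {S : Finset α} {A P : α → α → ℝ} (h : Con S P) : tr S A P ≤ pp S A :=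
  le_csSup (pp_bdd S A) ⟨P, h, rfl⟩

theorem pp_le {S : Finset α} {A : α → α → ℝ} {c : ℝ} (h : ∀ P, Con S P → tr S A P ≤ c) :
    pp S A ≤ c := by
  apply csSup_le
  · exact ⟨_, _, con_zero S, rfl⟩
  · rintro r ⟨P, hP, rfl⟩
    exact h P hP

theorem pp_nonneg (S : Finset α) (A : α → α → ℝ) : 0 ≤ pp S A := by
  have := le_pp (A := A) (con_zero S)
  simpa [tr] using this

theorem tr_congr {S : Finset α} {A B P : α → α → ℝ} (h : ∀ x ∈ S, ∀ y ∈ S, A x y = B x y) :
    tr S A P = tr S B P := by
  unfold tr
  apply Finset.sum_congr rfl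
  intro x hx
  apply Finset.sum_congr rfl
  intro y hy
  rw [h x hx y hy]

theorem pp_congr {S : Finset α} {A B : α → α → ℝ} (h : ∀ x ∈ S, ∀ y ∈ S, A x y = B x y) :
    pp S A = pp S B := by
  unfold pp
  simp_rw [tr_congr h]

/-- monotonicity in the kernel -/
theorem pp_mono {S : Finset α} {A B : α → α → ℝ} (h : ∀ P, Con S P → tr S A P ≤ tr S B P) :
    pp S A ≤ pp S B := by
  apply pp_le
  intro P hP
  exact (h P hP).trans (le_pp hP)

theorem tr_add (S : Finset α) (A B P : α → α → ℝ) :
    tr S (fun x y => A x y + B x y) P = tr S A P + tr S B P := by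
  simp only [tr, add_mul, Finset.sum_add_distrib]

theorem tr_sub (S : Finset α) (A B P : α → α → ℝ) :
    tr S (fun x y => A x y - B x y) P = tr S A P - tr S B P := by
  simp only [tr, sub_mul, Finset.sum_sub_distrib]

theorem tr_smul (S : Finset α) (c : ℝ) (A P : α → α → ℝ) :
    tr S (fun x y => c * A x y) P = c * tr S A P := by
  simp only [tr, mul_assoc, Finset.mul_sum]

theorem tr_neg (S : Finset α) (A P : α → α → ℝ) :
    tr S (fun x y => -A x y) P = -tr S A P := by
  simp only [tr, neg_mul, Finset.sum_neg_distrib]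

theorem tr_const {S : Finset α} {P : α → α → ℝ} (h : Con S P) {c : ℝ} (hc : 0 ≤ c) :
    0 ≤ tr S (fun _ _ => c) P := by
  have h1 := h.nonneg (fun _ => 1)
  simp only [mul_one] at h1
  have h2 : tr S (fun _ _ => c) P = c * ∑ x ∈ S, ∑ y ∈ S, P x y := by
    simp only [tr, Finset.mul_sum]
  rw [h2]
  positivity

theorem pp_add_const {S : Finset α} (A : α → α → ℝ) {c d : ℝ} (hc : c ≤ d) :
    pp S (fun x y => A x y + c) ≤ pp S (fun x y => A x y + d) := by
  apply pp_mono
  intro P hP
  have h1 := tr_const hP (sub_nonneg.mpr hc)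
  have h2 : tr S (fun x y => A x y + d) P
      = tr S (fun x y => A x y + c) P + tr S (fun _ _ => d - c) P := by
    rw [← tr_add]
    apply tr_congr
    intros
    ring
  linarith

theorem pp_smul {S : Finset α} (A : α → α → ℝ) {c : ℝ} (hc : 0 ≤ c) :
    pp S (fun x y => c * A x y) = c * pp S A := by
  apply le_antisymm
  · apply pp_le
    intro P hP
    rw [tr_smul]
    exact mul_le_mul_of_nonneg_left (le_pp hP) hc
  · rcases hc.eq_or_lt with h | h
    · rw [← h, zero_mul]
      exact pp_nonneg _ _
    · rw [← le_div_iff₀' h]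
      apply pp_le
      intro P hP
      rw [le_div_iff₀' h, ← tr_smul]
      exact le_pp hP

theorem pp_neg (S : Finset α) (A : α → α → ℝ) :
    pp S (fun x y => -A x y) = pp S A - ∑ x ∈ S, A x x := by
  apply le_antisymm
  · apply pp_le
    intro P hP
    have h1 := le_pp (A := A) hP.compl
    have h2 : tr S A (fun x y => dl x y - P x y) = ∑ x ∈ S, A x x - tr S A P := by
      rw [← tr_dl]
      simp only [tr, mul_sub, Finset.sum_sub_distrib]
    rw [tr_neg]
    linarith
  · rw [sub_le_iff_le_add]
    apply pp_le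
    intro P hP
    have h1 := le_pp (A := fun x y => -A x y) hP.compl
    have h2 : tr S (fun x y => -A x y) (fun x y => dl x y - P x y)
        = -∑ x ∈ S, A x x + tr S A P := by
      rw [← tr_dl]
      simp only [tr, mul_sub, Finset.sum_sub_distrib, neg_mul, Finset.sum_neg_distrib]
      ring
    linarith

/-- Extension by zero. -/
theorem Con.extend {S T : Finset α} {P : α → α → ℝ} (h : Con T P) (hT : T ⊆ S) :
    Con S (fun x y => if x ∈ T ∧ y ∈ T then P x y else 0) where
  symm := by
    intro x _ y _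
    by_cases hx : x ∈ T <;> by_cases hy : y ∈ T <;> simp [hx, hy]
    exact h.symm x hx y hy
  nonneg := by
    intro w
    have h1 := h.nonneg w
    have h2 : ∑ x ∈ S, ∑ y ∈ S, (if x ∈ T ∧ y ∈ T then P x y else 0) * (w x * w y)
        = ∑ x ∈ T, ∑ y ∈ T, P x y * (w x * w y) := by
      rw [← Finset.sum_subset hT (f := fun x => ∑ y ∈ S, (if x ∈ T ∧ y ∈ T then P x y else 0) *
        (w x * w y))]
      · apply Finset.sum_congr rfl
        intro x hx
        rw [← Finset.sum_subset hT]
        · apply Finset.sum_congr rfl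
          intro y hy
          rw [if_pos ⟨hx, hy⟩]
        · intro y _ hy
          rw [if_neg (fun h => hy h.2)]
          ring
      · intro x _ hx
        apply Finset.sum_eq_zero
        intro y _
        rw [if_neg (fun h => hx h.1)]
        ring
    rw [h2]
    exact h1
  le_one := by
    intro w
    have h1 := h.le_one w
    have h2 : ∑ x ∈ S, ∑ y ∈ S, (if x ∈ T ∧ y ∈ T then P x y else 0) * (w x * w y)
        = ∑ x ∈ T, ∑ y ∈ T, P x y * (w x * w y) := by
      rw [← Finset.sum_subset hT (f := fun x => ∑ y ∈ S, (if x ∈ T ∧ y ∈ T then P x y else 0) *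
        (w x * w y))]
      · apply Finset.sum_congr rfl
        intro x hx
        rw [← Finset.sum_subset hT]
        · apply Finset.sum_congr rfl
          intro y hy
          rw [if_pos ⟨hx, hy⟩]
        · intro y _ hy
          rw [if_neg (fun h => hy h.2)]
          ring
      · intro x _ hx
        apply Finset.sum_eq_zero
        intro y _
        rw [if_neg (fun h => hx h.1)]
        ring
    rw [h2]
    refine h1.trans (Finset.sum_le_sum_of_subset_of_nonneg hT fun x _ _ => sq_nonneg _)

theorem tr_extend {S T : Finset α} (A P : α → α → ℝ) (hT : T ⊆ S) :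
    tr S A (fun x y => if x ∈ T ∧ y ∈ T then P x y else 0) = tr T A P := by
  unfold tr
  rw [← Finset.sum_subset hT (f := fun x => ∑ y ∈ S, A x y *
    (if x ∈ T ∧ y ∈ T then P x y else 0))]
  · apply Finset.sum_congr rfl
    intro x hx
    rw [← Finset.sum_subset hT]
    · apply Finset.sum_congr rfl
      intro y hy
      rw [if_pos ⟨hx, hy⟩]
    · intro y _ hy
      rw [if_neg (fun h => hy h.2)]
      ring
  · intro x _ hx
    apply Finset.sum_eq_zero
    intro y _
    rw [if_neg (fun h => hx h.1)]
    ring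

theorem pp_subset {S T : Finset α} (A : α → α → ℝ) (hT : T ⊆ S) : pp T A ≤ pp S A := by
  apply pp_le
  intro P hP
  rw [← tr_extend A P hT]
  exact le_pp (hP.extend hT)

theorem diag_le_pp {S : Finset α} (A : α → α → ℝ) {x : α} (hx : x ∈ S) : A x x ≤ pp S A := by
  have h1 := le_pp (A := A) (con_one ({x} : Finset α))
  rw [tr_dl, Finset.sum_singleton] at h1
  exact h1.trans (pp_subset A (by simpa using hx))

theorem sum_diag_le_pp (S : Finset α) (A : α → α → ℝ) : ∑ x ∈ S, A x x ≤ pp S A := by
  rw [← tr_dl]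
  exact le_pp (con_one S)

theorem con_add_of_disjoint {S T : Finset α} {P Q : α → α → ℝ} (hP : Con S P) (hQ : Con T Q)
    (hd : Disjoint S T) :
    Con (S ∪ T) (fun x y => (if x ∈ S ∧ y ∈ S then P x y else 0)
      + (if x ∈ T ∧ y ∈ T then Q x y else 0)) := by
  have h1 := hP.extend (S := S ∪ T) Finset.subset_union_left
  have h2 := hQ.extend (S := S ∪ T) Finset.subset_union_right
  have key : ∀ (R : α → α → ℝ) (U : Finset α) (_ : U ⊆ S ∪ T) (w : α → ℝ),
      ∑ x ∈ S ∪ T, ∑ y ∈ S ∪ T, (if x ∈ U ∧ y ∈ U then R x y else 0) * (w x * w y)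
      = ∑ x ∈ U, ∑ y ∈ U, R x y * (w x * w y) := by
    intro R U hU w
    rw [← Finset.sum_subset hU (f := fun x => ∑ y ∈ S ∪ T, (if x ∈ U ∧ y ∈ U then R x y else 0) *
        (w x * w y))]
    · apply Finset.sum_congr rfl
      intro x hx
      rw [← Finset.sum_subset hU]
      · apply Finset.sum_congr rfl
        intro y hy
        rw [if_pos ⟨hx, hy⟩]
      · intro y _ hy
        rw [if_neg (fun h => hy h.2)]
        ring
    · intro x _ hx
      apply Finset.sum_eq_zero
      intro y _
      rw [if_neg (fun h => hx h.1)]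
      ring
  refine ⟨?_, ?_, ?_⟩
  · intro x hx y hy
    rw [h1.symm x hx y hy, h2.symm x hx y hy]
  · intro w
    simp only [add_mul, Finset.sum_add_distrib]
    exact add_nonneg (h1.nonneg w) (h2.nonneg w)
  · intro w
    simp only [add_mul, Finset.sum_add_distrib]
    rw [key P S Finset.subset_union_left, key Q T Finset.subset_union_right,
      Finset.sum_union hd]
    exact add_le_add (hP.le_one w) (hQ.le_one w)

/-- Superadditivity over disjoint unions. -/
theorem pp_union {S T : Finset α} (A : α → α → ℝ) (hd : Disjoint S T) :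
    pp S A + pp T A ≤ pp (S ∪ T) A := by
  have h : ∀ P, Con S P → tr S A P + pp T A ≤ pp (S ∪ T) A := by
    intro P hP
    have : pp T A ≤ pp (S ∪ T) A - tr S A P := by
      apply pp_le
      intro Q hQ
      have h1 := le_pp (A := A) (con_add_of_disjoint hP hQ hd)
      have h2 : tr (S ∪ T) A (fun x y => (if x ∈ S ∧ y ∈ S then P x y else 0)
          + (if x ∈ T ∧ y ∈ T then Q x y else 0)) = tr S A P + tr T A Q := by
        rw [← tr_extend A P (S := S ∪ T) Finset.subset_union_left,
          ← tr_extend A Q (S := S ∪ T) Finset.subset_union_right]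
        simp only [tr, mul_add, Finset.sum_add_distrib]
      linarith
    linarith
  have : pp S A ≤ pp (S ∪ T) A - pp T A := by
    apply pp_le
    intro P hP
    linarith [h P hP]
  linarith

/-- The all-ones test vector. -/
theorem con_ones (S : Finset α) : Con S (fun _ _ => 1 / (S.card : ℝ)) where
  symm := by intros; rfl
  nonneg := by
    intro w
    have : ∑ x ∈ S, ∑ y ∈ S, 1 / (S.card : ℝ) * (w x * w y)
        = 1 / (S.card : ℝ) * (∑ x ∈ S, w x) ^ 2 := by
      rw [sq, Finset.sum_mul_sum, Finset.mul_sum]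
      simp only [Finset.mul_sum]
    rw [this]
    positivity
  le_one := by
    intro w
    have : ∑ x ∈ S, ∑ y ∈ S, 1 / (S.card : ℝ) * (w x * w y)
        = 1 / (S.card : ℝ) * (∑ x ∈ S, w x) ^ 2 := by
      rw [sq, Finset.sum_mul_sum, Finset.mul_sum]
      simp only [Finset.mul_sum]
    rw [this]
    rcases S.eq_empty_or_nonempty with h | h
    · subst h; simp
    · have hc : (0 : ℝ) < S.card := by exact_mod_cast Finset.card_pos.mpr h
      rw [one_div, inv_mul_le_iff₀ hc]
      have := sq_sum_le_card_mul_sum_sq (s := S) (f := w)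
      simpa using this

end Pool.Agent.Lib.MP_0ad4be_co.Full
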