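import Mathlib
import Pool.Agent.Lib.MP_0ad4be_co.PP

set_option autoImplicit false
set_option linter.unusedSectionVars false

namespace Pool.Agent.Lib.MP_0ad4be_co.Full

open Finset

variable {α : Type*} [DecidableEq α]

/-- spectral data of a symmetric kernel on `S` -/
structure SD (S : Finset α) (A : α → α → ℝ) (lam : S → ℝ) (u : S → α → ℝ) : Prop where
  dec : ∀ x ∈ S, ∀ y ∈ S, A x y = ∑ i, lam i * (u i x * u i y)
  orth : ∀ i j, ∑ x ∈ S, u i x * u j x = if i = j then 1 else 0
  compl : ∀ x ∈ S, ∀ y ∈ S, ∑ i, u i x * u i y = if x = y then 1 else 0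

theorem exists_SD (S : Finset α) (A : α → α → ℝ) (hA : ∀ x ∈ S, ∀ y ∈ S, A x y = A y x) :
    ∃ (lam : S → ℝ) (u : S → α → ℝ), SD S A lam u := by
  set M : Matrix S S ℝ := Matrix.of fun i j => A i j with hM
  have hH : M.IsHermitian := by
    ext i j
    simp only [hM, Matrix.conjTranspose_apply, Matrix.of_apply, star_trivial]
    exact hA _ j.2 _ i.2
  obtain ⟨U, h1, h2, h3⟩ := diag hH
  refine ⟨hH.eigenvalues, fun i x => if h : x ∈ S then U ⟨x, h⟩ i else 0, ?_, ?_, ?_⟩
  · intro x hx y hy
    have h4 : A x y = M ⟨x, hx⟩ ⟨y, hy⟩ := rfl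
    have h5 : M ⟨x, hx⟩ ⟨y, hy⟩ = (U * Matrix.diagonal hH.eigenvalues * U.transpose) ⟨x, hx⟩ ⟨y, hy⟩ :=
      congrFun (congrFun h3 ⟨x, hx⟩) ⟨y, hy⟩
    rw [h4, h5, Matrix.mul_apply]
    apply Finset.sum_congr rfl
    intro i _
    rw [Matrix.mul_diagonal, Matrix.transpose_apply, dif_pos hx, dif_pos hy]
    ring
  · intro i j
    have h4 : (U.transpose * U) i j = if i = j then 1 else 0 := by
      rw [h2, Matrix.one_apply]
    rw [← h4, Matrix.mul_apply, ← Finset.sum_coe_sort S]
    apply Finset.sum_congr rfl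
    intro x _
    rw [dif_pos x.2, dif_pos x.2, Matrix.transpose_apply]
  · intro x hx y hy
    have h4 : (U * U.transpose) ⟨x, hx⟩ ⟨y, hy⟩ = if x = y then 1 else 0 := by
      rw [h1, Matrix.one_apply]
      simp
    rw [← h4, Matrix.mul_apply]
    apply Finset.sum_congr rfl
    intro i _
    rw [dif_pos hx, dif_pos hy, Matrix.transpose_apply]

/-- functional calculus -/
noncomputable def pj {S : Finset α} (u : S → α → ℝ) (f : S → ℝ) (x y : α) : ℝ :=
  ∑ i, f i * (u i x * u i y)

theorem SD.parseval {S : Finset α} {A : α → α → ℝ} {lam : S → ℝ} {u : S → α → ℝ}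
    (h : SD S A lam u) (w : α → ℝ) :
    ∑ i, (∑ x ∈ S, u i x * w x) ^ 2 = ∑ x ∈ S, w x ^ 2 := by
  calc ∑ i, (∑ x ∈ S, u i x * w x) ^ 2
      = ∑ i, ∑ x ∈ S, ∑ y ∈ S, (u i x * u i y) * (w x * w y) := by
        apply Finset.sum_congr rfl; intro i _
        rw [sq, Finset.sum_mul_sum]
        apply Finset.sum_congr rfl; intro x _
        apply Finset.sum_congr rfl; intro y _
        ring
    _ = ∑ x ∈ S, ∑ y ∈ S, (∑ i, u i x * u i y) * (w x * w y) := by
        rw [Finset.sum_comm]
        apply Finset.sum_congr rfl; intro x _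
        rw [Finset.sum_comm]
        apply Finset.sum_congr rfl; intro y _
        rw [Finset.sum_mul]
    _ = ∑ x ∈ S, ∑ y ∈ S, dl x y * (w x * w y) := by
        apply Finset.sum_congr rfl; intro x hx
        apply Finset.sum_congr rfl; intro y hy
        rw [h.compl x hx y hy, dl]
    _ = _ := qf_dl S w

theorem qf_pj {S T : Finset α} (u : S → α → ℝ) (f : S → ℝ) (w : α → ℝ) :
    ∑ x ∈ T, ∑ y ∈ T, pj u f x y * (w x * w y) = ∑ i, f i * (∑ x ∈ T, u i x * w x) ^ 2 := by
  symm
  calc ∑ i, f i * (∑ x ∈ T, u i x * w x) ^ 2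
      = ∑ i, ∑ x ∈ T, ∑ y ∈ T, f i * (u i x * u i y) * (w x * w y) := by
        apply Finset.sum_congr rfl; intro i _
        rw [sq, Finset.sum_mul_sum, Finset.mul_sum]
        apply Finset.sum_congr rfl; intro x _
        rw [Finset.mul_sum]
        apply Finset.sum_congr rfl; intro y _
        ring
    _ = _ := by
        rw [Finset.sum_comm]
        apply Finset.sum_congr rfl; intro x _
        rw [Finset.sum_comm]
        apply Finset.sum_congr rfl; intro y _
        rw [pj, Finset.sum_mul]

theorem SD.con_pj {S : Finset α} {A : α → α → ℝ} {lam : S → ℝ} {u : S → α → ℝ}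
    (h : SD S A lam u) {f : S → ℝ} (h0 : ∀ i, 0 ≤ f i) (h1 : ∀ i, f i ≤ 1) :
    Con S (pj u f) where
  symm := by
    intro x _ y _
    simp only [pj]
    apply Finset.sum_congr rfl; intro i _
    ring
  nonneg := by
    intro w
    rw [qf_pj]
    exact Finset.sum_nonneg fun i _ => mul_nonneg (h0 i) (sq_nonneg _)
  le_one := by
    intro w
    rw [qf_pj, ← h.parseval]
    apply Finset.sum_le_sum; intro i _
    nlinarith [sq_nonneg (∑ x ∈ S, u i x * w x), h1 i]

theorem SD.tr_eq {S T : Finset α} {A : α → α → ℝ} {lam : S → ℝ} {u : S → α → ℝ}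
    (h : SD S A lam u) (hT : T ⊆ S) (Q : α → α → ℝ) :
    tr T A Q = ∑ i, lam i * ∑ x ∈ T, ∑ y ∈ T, Q x y * (u i x * u i y) := by
  symm
  calc ∑ i, lam i * ∑ x ∈ T, ∑ y ∈ T, Q x y * (u i x * u i y)
      = ∑ i, ∑ x ∈ T, ∑ y ∈ T, lam i * (u i x * u i y) * Q x y := by
        apply Finset.sum_congr rfl; intro i _
        rw [Finset.mul_sum]
        apply Finset.sum_congr rfl; intro x _
        rw [Finset.mul_sum]
        apply Finset.sum_congr rfl; intro y _
        ring
    _ = _ := by
        rw [Finset.sum_comm]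
        apply Finset.sum_congr rfl; intro x hx
        rw [Finset.sum_comm]
        apply Finset.sum_congr rfl; intro y hy
        rw [h.dec x (hT hx) y (hT hy), Finset.sum_mul]

theorem SD.row {S : Finset α} {A : α → α → ℝ} {lam : S → ℝ} {u : S → α → ℝ}
    (h : SD S A lam u) (f : S → ℝ) {x : α} (hx : x ∈ S) (z : α) :
    ∑ y ∈ S, A x y * pj u f z y = ∑ i, lam i * f i * (u i x * u i z) := by
  calc ∑ y ∈ S, A x y * pj u f z y
      = ∑ y ∈ S, ∑ i, ∑ j, (lam i * f j * (u i x * u j z)) * (u i y * u j y) := by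
        apply Finset.sum_congr rfl; intro y hy
        rw [h.dec x hx y hy, pj, Finset.sum_mul_sum]
        apply Finset.sum_congr rfl; intro i _
        apply Finset.sum_congr rfl; intro j _
        ring
    _ = ∑ i, ∑ j, (lam i * f j * (u i x * u j z)) * ∑ y ∈ S, u i y * u j y := by
        rw [Finset.sum_comm]
        apply Finset.sum_congr rfl; intro i _
        rw [Finset.sum_comm]
        apply Finset.sum_congr rfl; intro j _
        rw [Finset.mul_sum]
    _ = _ := by
        apply Finset.sum_congr rfl; intro i _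
        simp only [h.orth, mul_ite, mul_one, mul_zero]
        rw [Finset.sum_ite_eq]
        simp

theorem SD.idem {S : Finset α} {A : α → α → ℝ} {lam : S → ℝ} {u : S → α → ℝ}
    (h : SD S A lam u) (f : S → ℝ) (x z : α) :
    ∑ y ∈ S, pj u f x y * pj u f z y = ∑ i, f i ^ 2 * (u i x * u i z) := by
  calc ∑ y ∈ S, pj u f x y * pj u f z y
      = ∑ y ∈ S, ∑ i, ∑ j, (f i * f j * (u i x * u j z)) * (u i y * u j y) := by
        apply Finset.sum_congr rfl; intro y hy
        rw [pj, pj, Finset.sum_mul_sum]
        apply Finset.sum_congr rfl; intro i _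
        apply Finset.sum_congr rfl; intro j _
        ring
    _ = ∑ i, ∑ j, (f i * f j * (u i x * u j z)) * ∑ y ∈ S, u i y * u j y := by
        rw [Finset.sum_comm]
        apply Finset.sum_congr rfl; intro i _
        rw [Finset.sum_comm]
        apply Finset.sum_congr rfl; intro j _
        rw [Finset.mul_sum]
    _ = _ := by
        apply Finset.sum_congr rfl; intro i _
        simp only [h.orth, mul_ite, mul_one, mul_zero]
        rw [Finset.sum_ite_eq, if_pos (Finset.mem_univ i)]
        ring

/-- indicator of the positive part -/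
noncomputable def posf {S : Finset α} (lam : S → ℝ) (i : S) : ℝ := if 0 < lam i then 1 else 0

theorem posf_nonneg {S : Finset α} (lam : S → ℝ) (i : S) : 0 ≤ posf lam i := by
  unfold posf; split_ifs <;> norm_num

theorem posf_le_one {S : Finset α} (lam : S → ℝ) (i : S) : posf lam i ≤ 1 := by
  unfold posf; split_ifs <;> norm_num

theorem posf_sq {S : Finset α} (lam : S → ℝ) (i : S) : posf lam i ^ 2 = posf lam i := by
  unfold posf; split_ifs <;> norm_num

theorem SD.half {S T : Finset α} {A : α → α → ℝ} {lam : S → ℝ} {u : S → α → ℝ}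
    (h : SD S A lam u) (hT : T ⊆ S) :
    pp T A ≤ ∑ x ∈ T, ∑ y ∈ S, A x y * pj u (posf lam) x y := by
  have h1 : ∑ x ∈ T, ∑ y ∈ S, A x y * pj u (posf lam) x y
      = ∑ i, lam i * posf lam i * ∑ x ∈ T, u i x ^ 2 := by
    rw [show ∑ x ∈ T, ∑ y ∈ S, A x y * pj u (posf lam) x y
      = ∑ x ∈ T, ∑ i, lam i * posf lam i * (u i x * u i x) from
      Finset.sum_congr rfl fun x hx => h.row (posf lam) (hT hx) x]
    rw [Finset.sum_comm]
    apply Finset.sum_congr rfl; intro i _
    rw [Finset.mul_sum]
    apply Finset.sum_congr rfl; intro x _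
    ring
  rw [h1]
  apply pp_le
  intro Q hQ
  rw [h.tr_eq hT]
  apply Finset.sum_le_sum; intro i _
  have h2 := hQ.nonneg (u i)
  have h3 := hQ.le_one (u i)
  unfold posf
  split_ifs with h4
  · nlinarith
  · have : lam i ≤ 0 := not_lt.mp h4
    nlinarith

theorem SD.tr_pos {S : Finset α} {A : α → α → ℝ} {lam : S → ℝ} {u : S → α → ℝ}
    (h : SD S A lam u) : tr S A (pj u (posf lam)) = pp S A := by
  apply le_antisymm
  · exact le_pp (h.con_pj (posf_nonneg lam) (posf_le_one lam))
  · exact h.half (Finset.Subset.refl S)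

/-- The positive projection. -/
theorem exists_pos (S : Finset α) (A : α → α → ℝ) (hA : ∀ x ∈ S, ∀ y ∈ S, A x y = A y x) :
    ∃ P, Con S P ∧ tr S A P = pp S A ∧
      ∀ T ⊆ S, pp T A ≤ ∑ x ∈ T, ∑ y ∈ S, A x y * P x y := by
  obtain ⟨lam, u, h⟩ := exists_SD S A hA
  exact ⟨pj u (posf lam), h.con_pj (posf_nonneg lam) (posf_le_one lam), h.tr_pos,
    fun T hT => h.half hT⟩

/-- The number of positive eigenvalues is at most the number of squares. -/
theorem inertia {β : Type*} (S : Finset α) (A : α → α → ℝ)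
    (hA : ∀ x ∈ S, ∀ y ∈ S, A x y = A y x) (I : Finset β) (g : β → α → ℝ)
    (hI : ∀ w : α → ℝ, ∑ x ∈ S, ∑ y ∈ S, A x y * (w x * w y) ≤ ∑ j ∈ I, (∑ x ∈ S, g j x * w x) ^ 2)
    {θ : ℝ} (hθ : 0 ≤ θ) :
    pp S A - θ * I.card ≤ pp S (fun x y => A x y - θ * dl x y) := by
  classical
  obtain ⟨lam, u, h⟩ := exists_SD S A hA
  have hcon := h.con_pj (posf_nonneg lam) (posf_le_one lam)
  have h1 := le_pp (A := fun x y => A x y - θ * dl x y) hcon
  rw [tr_sub, tr_smul, h.tr_pos, dl_tr] at h1
  -- trace of the projection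
  have h2 : ∑ x ∈ S, pj u (posf lam) x x = (Fintype.card {i // 0 < lam i} : ℝ) := by
    calc ∑ x ∈ S, pj u (posf lam) x x = ∑ i, posf lam i * ∑ x ∈ S, u i x * u i x := by
          simp only [pj]
          rw [Finset.sum_comm]
          apply Finset.sum_congr rfl; intro i _
          rw [Finset.mul_sum]
      _ = ∑ i, posf lam i := by
          apply Finset.sum_congr rfl; intro i _
          rw [h.orth, if_pos rfl, mul_one]
      _ = _ := by
          unfold posf
          rw [Finset.sum_ite]
          simp only [Finset.sum_const, nsmul_eq_mul, mul_one, mul_zero, add_zero]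
          rw [Fintype.card_subtype]
  rw [h2] at h1
  have h3 : Fintype.card {i // 0 < lam i} ≤ I.card := by
    by_contra hcon
    push Not at hcon
    let φ : ({i // 0 < lam i} → ℝ) →ₗ[ℝ] (I → ℝ) :=
      { toFun := fun c j => ∑ i, c i * ∑ x ∈ S, g j x * u i x
        map_add' := by
          intro c d
          ext j
          simp [add_mul, Finset.sum_add_distrib]
        map_smul' := by
          intro r c
          ext j
          simp [mul_assoc, Finset.mul_sum] }
    have h4 : LinearMap.ker φ ≠ ⊥ := by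
      apply LinearMap.ker_ne_bot_of_finrank_lt
      simpa using hcon
    obtain ⟨c, hc, hc0⟩ := (Submodule.ne_bot_iff _).mp h4
    rw [LinearMap.mem_ker] at hc
    set w : α → ℝ := fun x => ∑ i, c i * u i x with hw
    have h5 : ∀ k : S, ∑ x ∈ S, u k x * w x = if hk : 0 < lam k then c ⟨k, hk⟩ else 0 := by
      intro k
      calc ∑ x ∈ S, u k x * w x = ∑ i : {i // 0 < lam i}, c i * ∑ x ∈ S, u k x * u i x := by
            simp only [hw, Finset.mul_sum]
            rw [Finset.sum_comm]
            apply Finset.sum_congr rfl; intro i _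
            apply Finset.sum_congr rfl; intro x _
            ring
        _ = ∑ i : {i // 0 < lam i}, c i * (if k = i then 1 else 0) := by
            simp only [h.orth]
        _ = _ := by
            split_ifs with hk
            · rw [Finset.sum_eq_single ⟨k, hk⟩]
              · simp
              · intro b _ hb
                rw [if_neg, mul_zero]
                intro h6
                apply hb
                ext
                simp [h6]
              · simp
            · apply Finset.sum_eq_zero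
              intro i _
              rw [if_neg, mul_zero]
              intro h6
              exact hk (h6 ▸ i.2)
    have h6 : ∑ x ∈ S, ∑ y ∈ S, A x y * (w x * w y)
        = ∑ i : {i // 0 < lam i}, lam i * c i ^ 2 := by
      have h7 := h.tr_eq (Finset.Subset.refl S) (fun x y => w x * w y)
      rw [tr] at h7
      rw [h7]
      have h8 : ∀ i : S, ∑ x ∈ S, ∑ y ∈ S, w x * w y * (u i x * u i y)
          = (∑ x ∈ S, u i x * w x) ^ 2 := by
        intro i
        rw [sq, Finset.sum_mul_sum]
        apply Finset.sum_congr rfl; intro x _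
        apply Finset.sum_congr rfl; intro y _
        ring
      simp only [h8, h5]
      have h9 : ∑ i : {i // 0 < lam i}, lam i * c i ^ 2
          = ∑ i : {i // 0 < lam i}, lam i.1 * (if hk : 0 < lam i.1 then c ⟨i.1, hk⟩ else 0) ^ 2 := by
        apply Finset.sum_congr rfl
        intro i _
        rw [dif_pos i.2]
      rw [h9, ← Finset.sum_subtype (Finset.univ.filter fun i : S => 0 < lam i) (by simp)
        (fun i => lam i * (if hk : 0 < lam i then c ⟨i, hk⟩ else 0) ^ 2)]
      symm
      apply Finset.sum_filter_of_ne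
      intro x _ hx
      by_contra hcon
      rw [dif_neg hcon] at hx
      simp at hx
    have h7 : 0 < ∑ i : {i // 0 < lam i}, lam i * c i ^ 2 := by
      obtain ⟨i, hi⟩ : ∃ i, c i ≠ 0 := by
        by_contra hcon
        push Not at hcon
        exact hc0 (funext hcon)
      apply Finset.sum_pos'
      · intro j _
        exact mul_nonneg j.2.le (sq_nonneg _)
      · exact ⟨i, Finset.mem_univ _, mul_pos i.2 (by positivity)⟩
    have h8 := hI w
    rw [h6] at h8
    have h9 : ∑ j ∈ I, (∑ x ∈ S, g j x * w x) ^ 2 = 0 := by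
      apply Finset.sum_eq_zero
      intro j hj
      have h10 : φ c ⟨j, hj⟩ = 0 := by rw [hc]; rfl
      have h11 : ∑ x ∈ S, g j x * w x = φ c ⟨j, hj⟩ := by
        change _ = ∑ i, c i * ∑ x ∈ S, g j x * u i x
        simp only [hw, Finset.mul_sum]
        rw [Finset.sum_comm]
        apply Finset.sum_congr rfl; intro i _
        apply Finset.sum_congr rfl; intro x _
        ring
      rw [h11, h10]
      ring
    linarith
  have h4 : (Fintype.card {i // 0 < lam i} : ℝ) ≤ I.card := by exact_mod_cast h3
  nlinarith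

end Pool.Agent.Lib.MP_0ad4be_co.Full
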