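import Mathlib
import Pool.Agent.Lib.MP_0ad4be_co.Spectral

set_option autoImplicit false
set_option linter.unusedSectionVars false

namespace Pool.Agent.Lib.MP_0ad4be_co.Full

open Finset

variable {V : Type*} [DecidableEq V]

theorem sum_star {v : V} {S' L : Finset (Finset V)} (hS : ∀ x ∈ S', v ∉ x)
    (hL : ∀ x ∈ L, v ∉ x) (h : Finset V → ℝ) :
    ∑ z ∈ S' ∪ L.image (insert v), h z = ∑ x ∈ S', h x + ∑ x ∈ L, h (insert v x) := by
  rw [Finset.sum_union, Finset.sum_image]
  · intro x hx y hy hxy
    have h1 := congrArg (fun z => Finset.erase z v) hxy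
    simpa [Finset.erase_insert (hL x hx), Finset.erase_insert (hL y hy)] using h1
  · rw [Finset.disjoint_left]
    intro z hz hz2
    obtain ⟨y, _, rfl⟩ := Finset.mem_image.mp hz2
    exact hS _ hz (Finset.mem_insert_self _ _)

theorem swap_if {β : Type*} [DecidableEq β] (S L : Finset β) (h : β → ℝ) :
    ∑ x ∈ S, (if x ∈ L then h x else 0) = ∑ x ∈ L, (if x ∈ S then h x else 0) := by
  rw [← Finset.sum_filter, ← Finset.sum_filter]
  apply Finset.sum_congr _ (fun _ _ => rfl)
  ext x
  simp [and_comm]

theorem ssum_b {v : V} {S' L : Finset (Finset V)} (hS : ∀ x ∈ S', v ∉ x)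
    (hL : ∀ x ∈ L, v ∉ x) (h : Finset V → ℝ) (h0 : ∀ x ∈ L, x ∉ S' → h (insert v x) = 0) :
    ∑ z ∈ S' ∪ L.image (insert v), h z
      = ∑ x ∈ S', (h x + if x ∈ L then h (insert v x) else 0) := by
  rw [sum_star hS hL, Finset.sum_add_distrib, swap_if]
  congr 1
  apply Finset.sum_congr rfl
  intro x hx
  split_ifs with h1
  · rfl
  · exact h0 x hx h1

theorem ssum_a {v : V} {S' L : Finset (Finset V)} (hS : ∀ x ∈ S', v ∉ x)
    (hL : ∀ x ∈ L, v ∉ x) (h : Finset V → ℝ) (h0 : ∀ x ∈ S', x ∉ L → h x = 0) :
    ∑ z ∈ S' ∪ L.image (insert v), h z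
      = ∑ x ∈ L, ((if x ∈ S' then h x else 0) + h (insert v x)) := by
  rw [sum_star hS hL, Finset.sum_add_distrib, ← swap_if]
  congr 1
  apply Finset.sum_congr rfl
  intro x hx
  split_ifs with h1
  · rfl
  · exact h0 x hx h1

theorem dsum_b {v : V} {S' L : Finset (Finset V)} (hS : ∀ x ∈ S', v ∉ x)
    (hL : ∀ x ∈ L, v ∉ x) (H : Finset V → Finset V → ℝ)
    (h0 : ∀ x ∈ L, x ∉ S' → ∀ z, H (insert v x) z = 0 ∧ H z (insert v x) = 0) :
    ∑ z ∈ S' ∪ L.image (insert v), ∑ z' ∈ S' ∪ L.image (insert v), H z z'
      = ∑ x ∈ S', ∑ y ∈ S', (H x y + (if y ∈ L then H x (insert v y) else 0)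
          + (if x ∈ L then H (insert v x) y else 0)
          + (if x ∈ L then (if y ∈ L then H (insert v x) (insert v y) else 0) else 0)) := by
  rw [ssum_b hS hL]
  · apply Finset.sum_congr rfl
    intro x hx
    rw [ssum_b hS hL (h := fun z' => H x z') (fun y hy hy2 => (h0 y hy hy2 x).2)]
    split_ifs with h1
    · rw [ssum_b hS hL (h := fun z' => H (insert v x) z')
        (fun y hy hy2 => (h0 y hy hy2 (insert v x)).2), ← Finset.sum_add_distrib]
      apply Finset.sum_congr rfl
      intro y hy
      ring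
    · rw [add_zero]
      apply Finset.sum_congr rfl
      intro y hy
      ring
  · intro x hx hx2
    apply Finset.sum_eq_zero
    intro z _
    exact (h0 x hx hx2 z).1

theorem dsum_a {v : V} {S' L : Finset (Finset V)} (hS : ∀ x ∈ S', v ∉ x)
    (hL : ∀ x ∈ L, v ∉ x) (H : Finset V → Finset V → ℝ)
    (h0 : ∀ x ∈ S', x ∉ L → ∀ z, H x z = 0 ∧ H z x = 0) :
    ∑ z ∈ S' ∪ L.image (insert v), ∑ z' ∈ S' ∪ L.image (insert v), H z z'
      = ∑ x ∈ L, ∑ y ∈ L, ((if x ∈ S' then (if y ∈ S' then H x y else 0) else 0)
          + (if x ∈ S' then H x (insert v y) else 0)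
          + (if y ∈ S' then H (insert v x) y else 0)
          + H (insert v x) (insert v y)) := by
  rw [ssum_a hS hL]
  · apply Finset.sum_congr rfl
    intro x hx
    rw [ssum_a hS hL (h := fun z' => H (insert v x) z')
      (fun y hy hy2 => (h0 y hy hy2 (insert v x)).2)]
    split_ifs with h1
    · rw [ssum_a hS hL (h := fun z' => H x z')
        (fun y hy hy2 => (h0 y hy hy2 x).2), ← Finset.sum_add_distrib]
      apply Finset.sum_congr rfl
      intro y hy
      ring
    · rw [zero_add]
      apply Finset.sum_congr rfl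
      intro y hy
      ring
  · intro x hx hx2
    apply Finset.sum_eq_zero
    intro z _
    exact (h0 x hx hx2 z).1

/-- compression to `S'` -/
noncomputable def bK (v : V) (L : Finset (Finset V)) (c s : ℝ) (B : Finset V → Finset V → ℝ)
    (x y : Finset V) : ℝ :=
  (if x ∈ L then c else 1) * (if y ∈ L then c else 1) * B x y
    + (if x ∈ L then c else 1) * (if y ∈ L then s else 0) * B x (insert v y)
    + (if x ∈ L then s else 0) * (if y ∈ L then c else 1) * B (insert v x) y
    + (if x ∈ L then s else 0) * (if y ∈ L then s else 0) * B (insert v x) (insert v y)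

/-- compression to `L` -/
noncomputable def aK (v : V) (S' : Finset (Finset V)) (c s : ℝ) (B : Finset V → Finset V → ℝ)
    (x y : Finset V) : ℝ :=
  (if x ∈ S' then -s else 0) * (if y ∈ S' then -s else 0) * B x y
    + (if x ∈ S' then -s else 0) * (if y ∈ S' then c else 1) * B x (insert v y)
    + (if x ∈ S' then c else 1) * (if y ∈ S' then -s else 0) * B (insert v x) y
    + (if x ∈ S' then c else 1) * (if y ∈ S' then c else 1) * B (insert v x) (insert v y)

theorem peel_trial {v : V} {S' L : Finset (Finset V)} (hS : ∀ x ∈ S', v ∉ x)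
    (hL : ∀ x ∈ L, v ∉ x) {c s : ℝ} (hcs : c ^ 2 + s ^ 2 = 1)
    {Pb Pa : Finset V → Finset V → ℝ} (hb : Con S' Pb) (ha : Con L Pa) :
    ∃ P, Con (S' ∪ L.image (insert v)) P ∧ ∀ B : Finset V → Finset V → ℝ,
      tr (S' ∪ L.image (insert v)) B P
        = tr S' (bK v L c s B) Pb + tr L (aK v S' c s B) Pa := by
  set om : Finset V → ℝ := fun z => if v ∈ z then s else (if z ∈ L then c else 1) with hom
  set al : Finset V → ℝ := fun z => if v ∈ z then (if z.erase v ∈ S' then c else 1) else -s
    with hal
  set Pb' : Finset V → Finset V → ℝ := fun x y => if x ∈ S' ∧ y ∈ S' then Pb x y else 0 with hPb'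
  set Pa' : Finset V → Finset V → ℝ := fun x y => if x ∈ L ∧ y ∈ L then Pa x y else 0 with hPa'
  have ex : ∀ x : Finset V, v ∉ x → x.erase v = x := fun x hx => Finset.erase_eq_of_notMem hx
  have ei : ∀ x : Finset V, v ∉ x → (insert v x).erase v = x := fun x hx => Finset.erase_insert hx
  have mi : ∀ x : Finset V, v ∈ insert v x := fun x => Finset.mem_insert_self _ _
  have symb : ∀ x y, Pb' x y = Pb' y x := by
    intro x y
    simp only [hPb']
    by_cases hx : x ∈ S' <;> by_cases hy : y ∈ S' <;> simp [hx, hy]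
    exact hb.symm x hx y hy
  have syma : ∀ x y, Pa' x y = Pa' y x := by
    intro x y
    simp only [hPa']
    by_cases hx : x ∈ L <;> by_cases hy : y ∈ L <;> simp [hx, hy]
    exact ha.symm x hx y hy
  -- the two parts of any bilinear sum
  have partb : ∀ F : Finset V → Finset V → ℝ,
      ∑ z ∈ S' ∪ L.image (insert v), ∑ z' ∈ S' ∪ L.image (insert v),
        (om z * om z' * Pb' (z.erase v) (z'.erase v)) * F z z'
      = ∑ x ∈ S', ∑ y ∈ S', bK v L c s F x y * Pb x y := by
    intro F
    rw [dsum_b hS hL]
    · apply Finset.sum_congr rfl; intro x hx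
      apply Finset.sum_congr rfl; intro y hy
      have hvx := hS x hx
      have hvy := hS y hy
      simp only [hom, hPb', ex x hvx, ex y hvy, ei x hvx, ei y hvy, mi, if_true, if_neg hvx,
        if_neg hvy, hx, hy, true_and, bK]
      split_ifs <;> ring
    · intro x hx hx2 z
      have hvx := hL x hx
      simp only [hPb', ei x hvx, hx2, false_and, and_false, if_false, mul_zero, zero_mul,
        true_and]
  have parta : ∀ F : Finset V → Finset V → ℝ,
      ∑ z ∈ S' ∪ L.image (insert v), ∑ z' ∈ S' ∪ L.image (insert v),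
        (al z * al z' * Pa' (z.erase v) (z'.erase v)) * F z z'
      = ∑ x ∈ L, ∑ y ∈ L, aK v S' c s F x y * Pa x y := by
    intro F
    rw [dsum_a hS hL]
    · apply Finset.sum_congr rfl; intro x hx
      apply Finset.sum_congr rfl; intro y hy
      have hvx := hL x hx
      have hvy := hL y hy
      simp only [hal, hPa', ex x hvx, ex y hvy, ei x hvx, ei y hvy, mi, if_true, if_neg hvx,
        if_neg hvy, hx, hy, true_and, aK]
      split_ifs <;> ring
    · intro x hx hx2 z
      have hvx := hS x hx
      simp only [hPa', ex x hvx, hx2, false_and, and_false, if_false, mul_zero, zero_mul,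
        true_and]
  refine ⟨fun z z' => om z * om z' * Pb' (z.erase v) (z'.erase v)
    + al z * al z' * Pa' (z.erase v) (z'.erase v), ⟨?_, ?_, ?_⟩, ?_⟩
  · intro z _ z' _
    rw [symb, syma]
    ring
  · intro w
    simp only [add_mul, Finset.sum_add_distrib]
    rw [partb (fun z z' => w z * w z'), parta (fun z z' => w z * w z')]
    have h1 := hb.nonneg (fun x => (if x ∈ L then c else 1) * w x
      + (if x ∈ L then s else 0) * w (insert v x))
    have h2 := ha.nonneg (fun x => (if x ∈ S' then -s else 0) * w x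
      + (if x ∈ S' then c else 1) * w (insert v x))
    have h3 : ∑ x ∈ S', ∑ y ∈ S', bK v L c s (fun z z' => w z * w z') x y * Pb x y
        = ∑ x ∈ S', ∑ y ∈ S', Pb x y * (((if x ∈ L then c else 1) * w x
      + (if x ∈ L then s else 0) * w (insert v x)) * ((if y ∈ L then c else 1) * w y
      + (if y ∈ L then s else 0) * w (insert v y))) := by
      apply Finset.sum_congr rfl; intro x hx
      apply Finset.sum_congr rfl; intro y hy
      rw [bK]; ring
    have h4 : ∑ x ∈ L, ∑ y ∈ L, aK v S' c s (fun z z' => w z * w z') x y * Pa x y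
        = ∑ x ∈ L, ∑ y ∈ L, Pa x y * (((if x ∈ S' then -s else 0) * w x
      + (if x ∈ S' then c else 1) * w (insert v x)) * ((if y ∈ S' then -s else 0) * w y
      + (if y ∈ S' then c else 1) * w (insert v y))) := by
      apply Finset.sum_congr rfl; intro x hx
      apply Finset.sum_congr rfl; intro y hy
      rw [aK]; ring
    rw [h3, h4]
    exact add_nonneg h1 h2
  · intro w
    simp only [add_mul, Finset.sum_add_distrib]
    rw [partb (fun z z' => w z * w z'), parta (fun z z' => w z * w z')]
    have h1 := hb.le_one (fun x => (if x ∈ L then c else 1) * w x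
      + (if x ∈ L then s else 0) * w (insert v x))
    have h2 := ha.le_one (fun x => (if x ∈ S' then -s else 0) * w x
      + (if x ∈ S' then c else 1) * w (insert v x))
    have h3 : ∑ x ∈ S', ∑ y ∈ S', bK v L c s (fun z z' => w z * w z') x y * Pb x y
        = ∑ x ∈ S', ∑ y ∈ S', Pb x y * (((if x ∈ L then c else 1) * w x
      + (if x ∈ L then s else 0) * w (insert v x)) * ((if y ∈ L then c else 1) * w y
      + (if y ∈ L then s else 0) * w (insert v y))) := by
      apply Finset.sum_congr rfl; intro x hx
      apply Finset.sum_congr rfl; intro y hy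
      rw [bK]; ring
    have h4 : ∑ x ∈ L, ∑ y ∈ L, aK v S' c s (fun z z' => w z * w z') x y * Pa x y
        = ∑ x ∈ L, ∑ y ∈ L, Pa x y * (((if x ∈ S' then -s else 0) * w x
      + (if x ∈ S' then c else 1) * w (insert v x)) * ((if y ∈ S' then -s else 0) * w y
      + (if y ∈ S' then c else 1) * w (insert v y))) := by
      apply Finset.sum_congr rfl; intro x hx
      apply Finset.sum_congr rfl; intro y hy
      rw [aK]; ring
    rw [h3, h4]
    refine (add_le_add h1 h2).trans (le_of_eq ?_)
    rw [sum_star hS hL]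
    set D : Finset V → ℝ := fun x => (c * w x + s * w (insert v x)) ^ 2 - w x ^ 2 with hD
    have h5 : ∑ x ∈ S', ((if x ∈ L then c else 1) * w x
        + (if x ∈ L then s else 0) * w (insert v x)) ^ 2
        = ∑ x ∈ S', w x ^ 2 + ∑ x ∈ S', (if x ∈ L then D x else 0) := by
      rw [← Finset.sum_add_distrib]
      apply Finset.sum_congr rfl; intro x hx
      simp only [hD]
      split_ifs <;> ring
    have h6 : ∑ x ∈ L, ((if x ∈ S' then -s else 0) * w x
        + (if x ∈ S' then c else 1) * w (insert v x)) ^ 2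
        = ∑ x ∈ L, w (insert v x) ^ 2 - ∑ x ∈ L, (if x ∈ S' then D x else 0) := by
      rw [← Finset.sum_sub_distrib]
      apply Finset.sum_congr rfl; intro x hx
      simp only [hD]
      split_ifs
      · linear_combination (w x ^ 2 + w (insert v x) ^ 2) * hcs
      · ring
    rw [h5, h6, swap_if S' L]
    ring
  · intro B
    have h1 := partb B
    have h2 := parta B
    unfold tr
    rw [← h1, ← h2, ← Finset.sum_add_distrib]
    apply Finset.sum_congr rfl; intro z _
    rw [← Finset.sum_add_distrib]
    apply Finset.sum_congr rfl; intro z' _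
    ring

/-- mixing of contractions with weights -/
theorem con_mix {α : Type*} {S : Finset α} {P R : α → α → ℝ} (hP : Con S P) (hR : Con S R)
    (g g' : α → ℝ) (hg : ∀ x ∈ S, g x ^ 2 + g' x ^ 2 = 1) :
    Con S (fun x y => g x * g y * P x y + g' x * g' y * R x y) where
  symm := by
    intro x hx y hy
    rw [hP.symm x hx y hy, hR.symm x hx y hy]
    ring
  nonneg := by
    intro w
    have h1 := hP.nonneg (fun x => g x * w x)
    have h2 := hR.nonneg (fun x => g' x * w x)
    have h3 : ∑ x ∈ S, ∑ y ∈ S, (g x * g y * P x y + g' x * g' y * R x y) * (w x * w y)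
        = ∑ x ∈ S, ∑ y ∈ S, P x y * (g x * w x * (g y * w y))
          + ∑ x ∈ S, ∑ y ∈ S, R x y * (g' x * w x * (g' y * w y)) := by
      rw [← Finset.sum_add_distrib]
      apply Finset.sum_congr rfl; intro x _
      rw [← Finset.sum_add_distrib]
      apply Finset.sum_congr rfl; intro y _
      ring
    rw [h3]
    exact add_nonneg h1 h2
  le_one := by
    intro w
    have h1 := hP.le_one (fun x => g x * w x)
    have h2 := hR.le_one (fun x => g' x * w x)
    have h3 : ∑ x ∈ S, ∑ y ∈ S, (g x * g y * P x y + g' x * g' y * R x y) * (w x * w y)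
        = ∑ x ∈ S, ∑ y ∈ S, P x y * (g x * w x * (g y * w y))
          + ∑ x ∈ S, ∑ y ∈ S, R x y * (g' x * w x * (g' y * w y)) := by
      rw [← Finset.sum_add_distrib]
      apply Finset.sum_congr rfl; intro x _
      rw [← Finset.sum_add_distrib]
      apply Finset.sum_congr rfl; intro y _
      ring
    rw [h3]
    refine (add_le_add h1 h2).trans (le_of_eq ?_)
    rw [← Finset.sum_add_distrib]
    apply Finset.sum_congr rfl; intro x hx
    linear_combination w x ^ 2 * hg x hx

end Pool.Agent.Lib.MP_0ad4be_co.Full
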