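import Mathlib
import Pool.Agent.Lib.MP_0ad4be_co.Peel

set_option autoImplicit false
set_option linter.unusedSectionVars false

namespace Pool.Agent.Lib.MP_0ad4be_co.Full

open Finset

variable {V : Type*} [DecidableEq V]

/-- disjointness kernel -/
def Z (x y : Finset V) : ℝ := if Disjoint x y then 1 else 0

theorem Z_comm (x y : Finset V) : Z x y = Z y x := by
  simp only [Z, disjoint_comm]

theorem Z_ins_right {v : V} {x y : Finset V} (hx : v ∉ x) : Z x (insert v y) = Z x y := by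
  simp only [Z, Finset.disjoint_insert_right, hx, not_false_eq_true, true_and]

theorem Z_ins_left {v : V} {x y : Finset V} (hy : v ∉ y) : Z (insert v x) y = Z x y := by
  simp only [Z, Finset.disjoint_insert_left, hy, not_false_eq_true, true_and]

theorem Z_ins_both {v : V} {x y : Finset V} : Z (insert v x) (insert v y) = 0 := by
  simp [Z]

theorem dl_ins_right {v : V} {x y : Finset V} (hx : v ∉ x) : dl x (insert v y) = 0 := by
  rw [dl, if_neg]
  rintro rfl
  exact hx (Finset.mem_insert_self _ _)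

theorem dl_ins_left {v : V} {x y : Finset V} (hy : v ∉ y) : dl (insert v x) y = 0 := by
  rw [dl, if_neg]
  rintro rfl
  exact hy (Finset.mem_insert_self _ _)

theorem dl_ins_both {v : V} {x y : Finset V} (hx : v ∉ x) (hy : v ∉ y) :
    dl (insert v x) (insert v y) = dl x y := by
  simp only [dl]
  congr 1
  apply propext
  constructor
  · intro h
    have h1 := congrArg (fun z => Finset.erase z v) h
    simpa [Finset.erase_insert hx, Finset.erase_insert hy] using h1
  · rintro rfl; rfl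

theorem sum_if_left {β : Type*} [DecidableEq β] (S L : Finset β) (f : β → β → ℝ) :
    ∑ x ∈ S, ∑ y ∈ S, (if x ∈ L then f x y else 0)
      = ∑ x ∈ S.filter (· ∈ L), ∑ y ∈ S, f x y := by
  rw [Finset.sum_filter]
  apply Finset.sum_congr rfl
  intro x _
  split_ifs <;> simp

theorem sum_if_right {β : Type*} [DecidableEq β] (S L : Finset β) (f : β → β → ℝ) :
    ∑ x ∈ S, ∑ y ∈ S, (if y ∈ L then f x y else 0)
      = ∑ y ∈ S.filter (· ∈ L), ∑ x ∈ S, f x y := by
  rw [Finset.sum_comm]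
  exact sum_if_left S L (fun y x => f x y)

theorem sum_if_both {β : Type*} [DecidableEq β] (S L : Finset β) (f : β → β → ℝ) :
    ∑ x ∈ S, ∑ y ∈ S, (if x ∈ L then (if y ∈ L then f x y else 0) else 0)
      = ∑ x ∈ S.filter (· ∈ L), ∑ y ∈ S.filter (· ∈ L), f x y := by
  rw [sum_if_left S L (fun x y => if y ∈ L then f x y else 0)]
  apply Finset.sum_congr rfl
  intro x _
  rw [Finset.sum_filter]

/-- the compressed kernel on the link -/
noncomputable def aF (S' : Finset (Finset V)) (σ t c s : ℝ) (x y : Finset V) : ℝ :=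
  if x ∈ S' then
    (if y ∈ S' then c ^ 2 * t - (2 * c * s - s ^ 2) * (σ * Z x y + t)
      else c * t - s * (σ * Z x y + t))
  else (if y ∈ S' then c * t - s * (σ * Z x y + t) else t)

theorem aF_comm (S' : Finset (Finset V)) (σ t c s : ℝ) (x y : Finset V) :
    aF S' σ t c s x y = aF S' σ t c s y x := by
  unfold aF
  rw [Z_comm y x]
  by_cases hx : x ∈ S' <;> by_cases hy : y ∈ S' <;> simp [hx, hy]

theorem apl_trial {v : V} {S' L : Finset (Finset V)} (hS : ∀ x ∈ S', v ∉ x)
    (hL : ∀ x ∈ L, v ∉ x) (σ t θ c s Γ : ℝ) (hcs : c ^ 2 + s ^ 2 = 1) (hΓ : Γ ^ 2 ≤ 1)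
    {P R Q : Finset V → Finset V → ℝ} (hP : Con S' P) (hR : Con (S'.filter (· ∈ L)) R)
    (hQ : Con L Q) :
    tr S' (fun x y => σ * Z x y + t) P
      + 2 * ((c + s) * Γ - 1) * ∑ x ∈ S'.filter (· ∈ L), ∑ y ∈ S', (σ * Z x y + t) * P x y
      + tr (S'.filter (· ∈ L)) (fun x y => ((c + s) * Γ - 1) ^ 2 * (σ * Z x y + t)
          - s ^ 2 * Γ ^ 2 * (σ * Z x y)) P
      - θ * ∑ x ∈ S', (if x ∈ L then Γ ^ 2 else 1) * P x x
      + (1 - Γ ^ 2) * tr (S'.filter (· ∈ L)) (fun x y => (c ^ 2 + 2 * c * s) * (σ * Z x y + t)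
          + s ^ 2 * t - θ * dl x y) R
      + tr L (fun x y => aF S' σ t c s x y - θ * dl x y) Q
      ≤ pp (S' ∪ L.image (insert v)) (fun x y => σ * Z x y + t - θ * dl x y) := by
  set R' : Finset V → Finset V → ℝ := fun x y =>
    if x ∈ S'.filter (· ∈ L) ∧ y ∈ S'.filter (· ∈ L) then R x y else 0 with hR'
  have hR2 : Con S' R' := hR.extend (Finset.filter_subset _ _)
  set q : ℝ := √(1 - Γ ^ 2) with hq
  have hq2 : q * q = 1 - Γ ^ 2 := Real.mul_self_sqrt (by linarith)
  have hPb := con_mix hP hR2 (fun x => if x ∈ L then Γ else 1) (fun x => if x ∈ L then q else 0)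
    (by
      intro x _
      split_ifs
      · nlinarith
      · norm_num)
  obtain ⟨T, hT, hB⟩ := peel_trial hS hL hcs hPb hQ
  have h1 := le_pp (A := fun x y => σ * Z x y + t - θ * dl x y) hT
  rw [hB] at h1
  refine le_trans (le_of_eq ?_) h1
  -- the `a` part
  have ha : tr L (aK v S' c s fun x y => σ * Z x y + t - θ * dl x y) Q
      = tr L (fun x y => aF S' σ t c s x y - θ * dl x y) Q := by
    apply tr_congr
    intro x hx y hy
    have hvx := hL x hx
    have hvy := hL y hy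
    simp only [aK, aF, Z_ins_right hvx, Z_ins_left hvy, Z_ins_both, dl_ins_right hvx,
      dl_ins_left hvy, dl_ins_both hvx hvy]
    by_cases h2 : x ∈ S' <;> by_cases h3 : y ∈ S'
    · simp only [h2, h3, if_true]
      linear_combination (-θ * dl x y) * hcs
    · have : dl x y = 0 := by
        rw [dl, if_neg]
        rintro rfl
        exact h3 h2
      simp only [h2, h3, if_true, if_false, this]
      ring
    · have : dl x y = 0 := by
        rw [dl, if_neg]
        rintro rfl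
        exact h2 h3
      simp only [h2, h3, if_true, if_false, this]
      ring
    · simp only [h2, h3, if_false]
      ring
  rw [ha]
  -- the `b` part
  set M : Finset V → Finset V → ℝ := fun x y => σ * Z x y + t with hM
  have hb : ∀ x ∈ S', ∀ y ∈ S', bK v L c s (fun x y => σ * Z x y + t - θ * dl x y) x y
      * ((if x ∈ L then Γ else 1) * (if y ∈ L then Γ else 1) * P x y
        + (if x ∈ L then q else 0) * (if y ∈ L then q else 0) * R' x y)
      = M x y * P x y
        + ((c + s) * Γ - 1) * (if x ∈ L then M x y * P x y else 0)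
        + ((c + s) * Γ - 1) * (if y ∈ L then M x y * P x y else 0)
        + (if x ∈ L then (if y ∈ L then (((c + s) * Γ - 1) ^ 2 * (σ * Z x y + t)
          - s ^ 2 * Γ ^ 2 * (σ * Z x y)) * P x y else 0) else 0)
        - θ * (dl x y * ((if x ∈ L then Γ ^ 2 else 1) * P x y))
        + (1 - Γ ^ 2) * (if x ∈ L then (if y ∈ L then ((c ^ 2 + 2 * c * s) * (σ * Z x y + t)
          + s ^ 2 * t - θ * dl x y) * R x y else 0) else 0) := by
    intro x hx y hy
    have hvx := hS x hx
    have hvy := hS y hy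
    simp only [bK, Z_ins_right hvx, Z_ins_left hvy, Z_ins_both, dl_ins_right hvx,
      dl_ins_left hvy, dl_ins_both hvx hvy, hR', hM, Finset.mem_filter, hx, hy, true_and]
    by_cases h2 : x ∈ L <;> by_cases h3 : y ∈ L
    · simp only [h2, h3, if_true, and_self]
      have h4 : c ^ 2 = 1 - s ^ 2 := by linarith
      have e1 : (c * c * (σ * Z x y + t - θ * dl x y) + c * s * (σ * Z x y + t - θ * 0)
          + s * c * (σ * Z x y + t - θ * 0) + s * s * (σ * 0 + t - θ * dl x y))
          = (c ^ 2 + 2 * c * s) * (σ * Z x y + t) + s ^ 2 * t - θ * dl x y := by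
        linear_combination (-θ * dl x y) * hcs
      rw [e1]
      have e2 : (c + s) ^ 2 = 1 + 2 * c * s := by linarith [hcs, (by ring : (c + s) ^ 2 = c ^ 2 + s ^ 2 + 2 * c * s)]
      have e3 : (1 + ((c + s) * Γ - 1)) ^ 2 = (1 + 2 * c * s) * Γ ^ 2 := by
        rw [← e2]; ring
      linear_combination ((c ^ 2 + 2 * c * s) * (σ * Z x y + t) + s ^ 2 * t - θ * dl x y)
        * R x y * hq2 - (σ * Z x y + t) * P x y * e3
        + (σ * Z x y + t) * P x y * Γ ^ 2 * hcs
    · have : dl x y = 0 := by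
        rw [dl, if_neg]
        rintro rfl
        exact h3 h2
      simp only [h2, h3, if_true, if_false, this, and_false]
      ring
    · have : dl x y = 0 := by
        rw [dl, if_neg]
        rintro rfl
        exact h2 h3
      simp only [h2, h3, if_true, if_false, this, and_true]
      ring
    · simp only [h2, h3, if_false, and_self]
      ring
  have hb2 : tr S' (bK v L c s fun x y => σ * Z x y + t - θ * dl x y)
      (fun x y => (if x ∈ L then Γ else 1) * (if y ∈ L then Γ else 1) * P x y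
        + (if x ∈ L then q else 0) * (if y ∈ L then q else 0) * R' x y)
      = ∑ x ∈ S', ∑ y ∈ S', (M x y * P x y
        + ((c + s) * Γ - 1) * (if x ∈ L then M x y * P x y else 0)
        + ((c + s) * Γ - 1) * (if y ∈ L then M x y * P x y else 0)
        + (if x ∈ L then (if y ∈ L then (((c + s) * Γ - 1) ^ 2 * (σ * Z x y + t)
          - s ^ 2 * Γ ^ 2 * (σ * Z x y)) * P x y else 0) else 0)
        - θ * (dl x y * ((if x ∈ L then Γ ^ 2 else 1) * P x y))
        + (1 - Γ ^ 2) * (if x ∈ L then (if y ∈ L then ((c ^ 2 + 2 * c * s) * (σ * Z x y + t)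
          + s ^ 2 * t - θ * dl x y) * R x y else 0) else 0)) := by
    unfold tr
    apply Finset.sum_congr rfl; intro x hx
    apply Finset.sum_congr rfl; intro y hy
    exact hb x hx y hy
  rw [hb2]
  simp only [Finset.sum_add_distrib, Finset.sum_sub_distrib, ← Finset.mul_sum]
  rw [sum_if_left S' L (fun x y => M x y * P x y), sum_if_right S' L (fun x y => M x y * P x y),
    sum_if_both S' L (fun x y => (((c + s) * Γ - 1) ^ 2 * (σ * Z x y + t)
          - s ^ 2 * Γ ^ 2 * (σ * Z x y)) * P x y),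
    sum_if_both S' L (fun x y => ((c ^ 2 + 2 * c * s) * (σ * Z x y + t)
          + s ^ 2 * t - θ * dl x y) * R x y)]
  have e1 : ∑ y ∈ S'.filter (· ∈ L), ∑ x ∈ S', M x y * P x y
      = ∑ x ∈ S'.filter (· ∈ L), ∑ y ∈ S', M x y * P x y := by
    apply Finset.sum_congr rfl; intro x hx
    apply Finset.sum_congr rfl; intro y hy
    rw [hP.symm x (Finset.mem_filter.mp hx).1 y hy]
    simp only [hM]
    rw [Z_comm]
  have e2 : ∑ x ∈ S', ∑ y ∈ S', dl x y * ((if x ∈ L then Γ ^ 2 else 1) * P x y)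
      = ∑ x ∈ S', (if x ∈ L then Γ ^ 2 else 1) * P x x := by
    apply Finset.sum_congr rfl; intro x hx
    exact sum_dl hx (fun y => (if x ∈ L then Γ ^ 2 else 1) * P x y)
  rw [e1, e2]
  simp only [tr]
  ring

/-- Peel inequality, `θ = 0`. -/
theorem apl1 {v : V} {S' L : Finset (Finset V)} (hS : ∀ x ∈ S', v ∉ x)
    (hL : ∀ x ∈ L, v ∉ x) (σ t c s Γ : ℝ) (hcs : c ^ 2 + s ^ 2 = 1) (hΓ : Γ ^ 2 ≤ 1)
    (he : 1 ≤ (c + s) * Γ) :
    pp S' (fun x y => σ * Z x y + t)
      + 2 * ((c + s) * Γ - 1) * pp (S'.filter (· ∈ L)) (fun x y => σ * Z x y + t)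
      + (1 - Γ ^ 2) * pp (S'.filter (· ∈ L)) (fun x y => (c ^ 2 + 2 * c * s) * (σ * Z x y + t)
          + s ^ 2 * t)
      + pp L (aF S' σ t c s)
      ≤ pp (S' ∪ L.image (insert v)) (fun x y => σ * Z x y + t)
        + pp (S'.filter (· ∈ L)) (fun x y => -(((c + s) * Γ - 1) ^ 2 * (σ * Z x y + t)
          - s ^ 2 * Γ ^ 2 * (σ * Z x y))) := by
  obtain ⟨P, hP, hP1, hP2⟩ := exists_pos S' (fun x y => σ * Z x y + t) (by
    intro x _ y _; rw [Z_comm])
  obtain ⟨R, hR, hR1, _⟩ := exists_pos (S'.filter (· ∈ L))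
    (fun x y => (c ^ 2 + 2 * c * s) * (σ * Z x y + t) + s ^ 2 * t) (by
      intro x _ y _; rw [Z_comm])
  obtain ⟨Q, hQ, hQ1, _⟩ := exists_pos L (aF S' σ t c s) (by
      intro x _ y _; rw [aF_comm])
  have h1 := apl_trial hS hL σ t 0 c s Γ hcs hΓ hP hR hQ
  simp only [zero_mul, sub_zero] at h1
  rw [hP1, hR1] at h1
  have h2 : tr L (fun x y => aF S' σ t c s x y) Q = pp L (aF S' σ t c s) := hQ1
  rw [h2] at h1
  have h3 := hP2 (S'.filter (· ∈ L)) (Finset.filter_subset _ _)
  have h4 := le_pp (A := fun x y => -(((c + s) * Γ - 1) ^ 2 * (σ * Z x y + t)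
          - s ^ 2 * Γ ^ 2 * (σ * Z x y))) (hP.sub (Finset.filter_subset (· ∈ L) S'))
  rw [tr_neg] at h4
  have h5 : 0 ≤ 2 * ((c + s) * Γ - 1) := by linarith
  have h6 := mul_le_mul_of_nonneg_left h3 h5
  linarith

/-- Peel inequality with a threshold. -/
theorem apl2 {v : V} {S' L : Finset (Finset V)} (hS : ∀ x ∈ S', v ∉ x)
    (hL : ∀ x ∈ L, v ∉ x) (σ t θ c s Γ : ℝ) (hθ : 0 ≤ θ) (hcs : c ^ 2 + s ^ 2 = 1)
    (hΓ : Γ ^ 2 ≤ 1) (he : (c + s) * Γ = 1) :
    pp S' (fun x y => σ * Z x y + t - θ * dl x y)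
      + (1 - Γ ^ 2) * pp (S'.filter (· ∈ L)) (fun x y => (c ^ 2 + 2 * c * s) * (σ * Z x y + t)
          + s ^ 2 * t - θ * dl x y)
      + pp L (fun x y => aF S' σ t c s x y - θ * dl x y)
      ≤ pp (S' ∪ L.image (insert v)) (fun x y => σ * Z x y + t - θ * dl x y)
        + s ^ 2 * Γ ^ 2 * pp (S'.filter (· ∈ L)) (fun x y => σ * Z x y) := by
  obtain ⟨P, hP, hP1, _⟩ := exists_pos S' (fun x y => σ * Z x y + t - θ * dl x y) (by
    intro x _ y _; rw [Z_comm, dl_comm])
  obtain ⟨R, hR, hR1, _⟩ := exists_pos (S'.filter (· ∈ L))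
    (fun x y => (c ^ 2 + 2 * c * s) * (σ * Z x y + t) + s ^ 2 * t - θ * dl x y) (by
      intro x _ y _; rw [Z_comm, dl_comm])
  obtain ⟨Q, hQ, hQ1, _⟩ := exists_pos L (fun x y => aF S' σ t c s x y - θ * dl x y) (by
      intro x _ y _; rw [aF_comm, dl_comm])
  have h1 := apl_trial hS hL σ t θ c s Γ hcs hΓ hP hR hQ
  rw [he, hR1, hQ1] at h1
  simp only [sub_self, mul_zero, zero_mul, add_zero, ne_eq, OfNat.ofNat_ne_zero,
    not_false_eq_true, zero_pow, zero_sub] at h1
  rw [tr_sub, tr_smul, dl_tr] at hP1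
  have h3 : ∑ x ∈ S', (if x ∈ L then Γ ^ 2 else 1) * P x x ≤ ∑ x ∈ S', P x x := by
    apply Finset.sum_le_sum
    intro x hx
    have h4 := hP.diag_nonneg hx
    split_ifs
    · nlinarith
    · linarith
  have h4 := le_pp (A := fun x y => σ * Z x y) (hP.sub (Finset.filter_subset (· ∈ L) S'))
  have h5 : tr (S'.filter (· ∈ L)) (fun x y => -(s ^ 2 * Γ ^ 2 * (σ * Z x y))) P
      = -(s ^ 2 * Γ ^ 2 * tr (S'.filter (· ∈ L)) (fun x y => σ * Z x y) P) := by
    rw [tr_neg, tr_smul]
  rw [h5] at h1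
  have h6 : 0 ≤ s ^ 2 * Γ ^ 2 := by positivity
  nlinarith [mul_le_mul_of_nonneg_left h4 h6, mul_le_mul_of_nonneg_left h3 hθ]

end Pool.Agent.Lib.MP_0ad4be_co.Full
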