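import Mathlib
import Pool.Agent.Lib.MP_0ad4be_co.KyFan

set_option autoImplicit false

namespace Pool.Agent.Lib.MP_0ad4be_co

open Matrix Finset

variable {n : Type*} [Fintype n] [DecidableEq n]

/-- If `K` has unit columns, `L` is one wherever `Kᵀ K` is nonzero and
`Kᵀ K - τ D = Mᵀ M`, then the spectral sums of `L` dominate `τ` times those of `D`. -/
theorem schur_bound {L D : Matrix n n ℝ} (hL : L.IsHermitian) (hD : D.IsHermitian)
    (K M : Matrix n n ℝ) (τ : ℝ) (hcol : ∀ x, ∑ z, K z x ^ 2 = 1)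
    (hsupp : ∀ x y, L x y * (Kᵀ * K) x y = (Kᵀ * K) x y)
    (hM : Kᵀ * K - τ • D = Mᵀ * M) (k : ℕ) (hk : k ≤ Fintype.card n) :
    τ * topSum D hD k ≤ topSum L hL k := by
  obtain ⟨P, hP0, hP1, hPt, hPD⟩ := exists_proj hD k hk
  -- the Schur product
  set Q : Matrix n n ℝ := Matrix.of fun x y => (Kᵀ * K) x y * P x y with hQ
  have quad : ∀ w, w ⬝ᵥ (Q *ᵥ w)
      = ∑ z, (fun x => K z x * w x) ⬝ᵥ (P *ᵥ fun x => K z x * w x) := by
    intro w
    simp only [hQ, dotProduct, Matrix.mulVec, Matrix.of_apply, Matrix.mul_apply,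
      Matrix.transpose_apply, Finset.mul_sum, Finset.sum_mul]
    calc ∑ x, ∑ y, ∑ z, w x * (K z x * K z y * P x y * w y)
        = ∑ x, ∑ z, ∑ y, w x * (K z x * K z y * P x y * w y) :=
          Finset.sum_congr rfl fun x _ => Finset.sum_comm
      _ = ∑ z, ∑ x, ∑ y, w x * (K z x * K z y * P x y * w y) := Finset.sum_comm
      _ = _ := by
          apply Finset.sum_congr rfl; intro z _
          apply Finset.sum_congr rfl; intro x _
          apply Finset.sum_congr rfl; intro y _
          ring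
  have hQ0 : ∀ w, 0 ≤ w ⬝ᵥ (Q *ᵥ w) := by
    intro w
    rw [quad]
    exact Finset.sum_nonneg fun z _ => hP0 _
  have hQ1 : ∀ w, w ⬝ᵥ (Q *ᵥ w) ≤ w ⬝ᵥ w := by
    intro w
    rw [quad]
    calc ∑ z, (fun x => K z x * w x) ⬝ᵥ (P *ᵥ fun x => K z x * w x)
        ≤ ∑ z, (fun x => K z x * w x) ⬝ᵥ (fun x => K z x * w x) :=
          Finset.sum_le_sum fun z _ => hP1 _
      _ = ∑ x, (∑ z, K z x ^ 2) * (w x * w x) := by
          simp only [dotProduct, Finset.sum_mul]
          rw [Finset.sum_comm]
          apply Finset.sum_congr rfl; intro x _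
          apply Finset.sum_congr rfl; intro z _
          ring
      _ = w ⬝ᵥ w := by
          simp only [hcol, one_mul, dotProduct]
  have hQt : Q.trace = k := by
    rw [← hPt]
    simp only [Matrix.trace, Matrix.diag_apply, hQ, Matrix.of_apply]
    apply Finset.sum_congr rfl
    intro x _
    have : (Kᵀ * K) x x = 1 := by
      rw [Matrix.mul_apply, ← hcol x]
      apply Finset.sum_congr rfl
      intro z _
      rw [Matrix.transpose_apply]; ring
    rw [this, one_mul]
  have h1 := trace_le hL Q k hQ0 hQ1 hQt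
  have symP : ∀ (A : Matrix n n ℝ), (A * P).trace = ∑ x, ∑ y, A x y * P y x := by
    intro A
    simp only [Matrix.trace, Matrix.diag_apply, Matrix.mul_apply]
  have h2 : (L * Q).trace = ∑ x, ∑ y, (Kᵀ * K) x y * P y x := by
    have hsymm : ∀ x y, (Kᵀ * K) y x = (Kᵀ * K) x y := by
      intro x y
      simp only [Matrix.mul_apply, Matrix.transpose_apply]
      exact Finset.sum_congr rfl fun z _ => mul_comm _ _
    rw [Matrix.trace]
    apply Finset.sum_congr rfl; intro x _
    rw [Matrix.diag_apply, Matrix.mul_apply]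
    apply Finset.sum_congr rfl; intro y _
    rw [hQ, Matrix.of_apply, hsymm, ← mul_assoc, hsupp]
  have h3 : τ * (D * P).trace ≤ ∑ x, ∑ y, (Kᵀ * K) x y * P y x := by
    rw [← symP]
    have h4 : (Kᵀ * K * P).trace - τ * (D * P).trace = ((Mᵀ * M) * P).trace := by
      rw [← hM, Matrix.sub_mul, Matrix.trace_sub, Matrix.smul_mul, Matrix.trace_smul, smul_eq_mul]
    have h5 : ((Mᵀ * M) * P).trace = ∑ z, (fun x => M z x) ⬝ᵥ (P *ᵥ fun x => M z x) := by
      rw [symP]
      simp only [dotProduct, Matrix.mulVec, Matrix.mul_apply, Matrix.transpose_apply,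
        Finset.mul_sum, Finset.sum_mul]
      calc ∑ x, ∑ y, ∑ z, M z x * M z y * P y x
          = ∑ x, ∑ z, ∑ y, M z x * M z y * P y x :=
            Finset.sum_congr rfl fun x _ => Finset.sum_comm
        _ = ∑ z, ∑ x, ∑ y, M z x * M z y * P y x := Finset.sum_comm
        _ = ∑ z, ∑ y, ∑ x, M z x * M z y * P y x :=
            Finset.sum_congr rfl fun x _ => Finset.sum_comm
        _ = _ := by
            apply Finset.sum_congr rfl; intro z _
            apply Finset.sum_congr rfl; intro y _
            apply Finset.sum_congr rfl; intro x _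
            ring
    have h6 : 0 ≤ ((Mᵀ * M) * P).trace := by
      rw [h5]
      exact Finset.sum_nonneg fun z _ => hP0 _
    linarith
  rw [← hPD]
  linarith

end Pool.Agent.Lib.MP_0ad4be_co
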