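import Mathlib
import Pool.Agent.Lib.MP_0ad4be_co.Schur

set_option autoImplicit false

namespace Pool.Agent.Lib.MP_0ad4be_co

open Matrix Finset

variable {V : Type*} [DecidableEq V]

/-- incidence entry, rows = faces, columns = simplices -/
noncomputable def inc (G : Finset (Finset V)) (sg : Finset V → Finset V → ℝ) : Matrix G G ℝ :=
  Matrix.of fun z x => if z.1 ⊆ x.1 ∧ x.1.card = z.1.card + 1 then sg x.1 z.1 else 0

/-- The Schur product bound for a complex, with parameters `a`, `b`, `τ`. -/
theorem complex_bound (G : Finset (Finset V)) (hne : ∀ x ∈ G, x.Nonempty)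
    (hdown : ∀ x ∈ G, ∀ y ⊆ x, y.Nonempty → y ∈ G)
    (sg : Finset V → Finset V → ℝ) (hsg : ∀ x y, sg x y = 1 ∨ sg x y = -1)
    (N : ℕ) (hN : ∀ x ∈ G, x.card ≤ N) (a b : ℕ → ℝ) (τ : ℝ)
    (h1 : ∀ s, 1 ≤ s → s ≤ N → a s ^ 2 + s * b s ^ 2 = 1) (hb : b 1 = 0)
    (h2 : ∀ s, 2 ≤ s → s ≤ N → 2 * a (s - 1) * b s = τ)
    {L D : Matrix G G ℝ} (hL : L.IsHermitian) (hD : D.IsHermitian)
    (hLdef : ∀ x y, ¬ Disjoint x.1 y.1 → L x y = 1)
    (hDdef : D = inc G sg + (inc G sg)ᵀ)
    (k : ℕ) (hk : k ≤ G.card) :
    τ * topSum D hD k ≤ topSum L hL k := by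
  set A : Matrix G G ℝ := Matrix.diagonal fun x => a x.1.card with hA
  set B : Matrix G G ℝ := Matrix.diagonal fun x => b x.1.card with hB
  set E : Matrix G G ℝ := inc G sg with hE
  have hKz : ∀ z x, (A + E * B) z x = (if z = x then a x.1.card else 0) + E z x * b x.1.card := by
    intro z x
    rw [Matrix.add_apply, hB, Matrix.mul_diagonal, hA, Matrix.diagonal_apply]
    congr 1
    split_ifs with h
    · rw [h]
    · rfl
  have hEne : ∀ z x : G, E z x ≠ 0 → z.1 ⊆ x.1 ∧ x.1.card = z.1.card + 1 := by
    intro z x h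
    by_contra hcon
    apply h
    rw [hE, inc, Matrix.of_apply, if_neg hcon]
  have hEx : ∀ x : G, E x x = 0 := by
    intro x
    by_contra h
    have := (hEne x x h).2
    omega
  refine schur_bound hL hD (A + E * B) (A - E * B) τ ?_ ?_ ?_ k (by simpa using hk)
  · -- unit columns
    intro x
    have hx1 : 1 ≤ x.1.card := Finset.card_pos.mpr (hne x.1 x.2)
    have hsq : ∀ z, (A + E * B) z x ^ 2
        = (if z = x then a x.1.card ^ 2 else 0) + E z x ^ 2 * b x.1.card ^ 2 := by
      intro z
      rw [hKz]
      by_cases h : z = x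
      · subst h
        simp [hEx]
      · simp [h]; ring
    simp_rw [hsq]
    rw [Finset.sum_add_distrib, ← Finset.sum_mul, Finset.sum_ite_eq' Finset.univ x]
    simp only [Finset.mem_univ, if_true]
    rcases Nat.lt_or_ge 1 x.1.card with h | h
    · have hcard : ∑ z : G, E z x ^ 2 = x.1.card := by
        have h3 : ∀ z : G, E z x ^ 2 = if z.1 ∈ x.1.powersetCard (x.1.card - 1) then 1 else 0 := by
          intro z
          rw [hE, inc, Matrix.of_apply]
          have : (z.1 ∈ x.1.powersetCard (x.1.card - 1)) ↔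
              (z.1 ⊆ x.1 ∧ x.1.card = z.1.card + 1) := by
            rw [Finset.mem_powersetCard]
            constructor
            · rintro ⟨h4, h5⟩
              exact ⟨h4, by omega⟩
            · rintro ⟨h4, h5⟩
              exact ⟨h4, by omega⟩
          by_cases h4 : z.1 ⊆ x.1 ∧ x.1.card = z.1.card + 1
          · rw [if_pos h4, if_pos (this.mpr h4)]
            rcases hsg x.1 z.1 with h5 | h5 <;> rw [h5] <;> norm_num
          · rw [if_neg h4, if_neg (fun h5 => h4 (this.mp h5))]
            norm_num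
        simp_rw [h3]
        have h6 : ∑ z : G, (if z.1 ∈ x.1.powersetCard (x.1.card - 1) then (1 : ℝ) else 0)
            = ∑ z ∈ G, (if z ∈ x.1.powersetCard (x.1.card - 1) then (1 : ℝ) else 0) :=
          Finset.sum_coe_sort G
            (fun z => if z ∈ x.1.powersetCard (x.1.card - 1) then (1 : ℝ) else 0)
        rw [h6, Finset.sum_ite_mem]
        have h7 : G ∩ x.1.powersetCard (x.1.card - 1) = x.1.powersetCard (x.1.card - 1) := by
          apply Finset.inter_eq_right.mpr
          intro y hy
          rw [Finset.mem_powersetCard] at hy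
          exact hdown x.1 x.2 y hy.1 (Finset.card_pos.mp (by omega))
        rw [h7, Finset.sum_const, Finset.card_powersetCard, nsmul_eq_mul, mul_one]
        obtain ⟨m, hm⟩ : ∃ m, x.1.card = m + 1 := ⟨x.1.card - 1, by omega⟩
        rw [hm, Nat.add_sub_cancel, Nat.choose_succ_self_right]
      rw [hcard]
      have := h1 x.1.card hx1 (hN x.1 x.2)
      linarith
    · have hx : x.1.card = 1 := by omega
      rw [hx, hb]
      have := h1 1 le_rfl (hx ▸ hN x.1 x.2)
      rw [hb] at this
      nlinarith
  · -- support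
    intro x y
    by_cases h : Disjoint x.1 y.1
    · have : ((A + E * B)ᵀ * (A + E * B)) x y = 0 := by
        rw [Matrix.mul_apply]
        apply Finset.sum_eq_zero
        intro z _
        rw [Matrix.transpose_apply]
        by_contra hcon
        have hx : (A + E * B) z x ≠ 0 := left_ne_zero_of_mul hcon
        have hy : (A + E * B) z y ≠ 0 := right_ne_zero_of_mul hcon
        have sub : ∀ w : G, (A + E * B) z w ≠ 0 → z.1 ⊆ w.1 := by
          intro w hw
          rw [hKz] at hw
          by_cases h3 : z = w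
          · rw [h3]
          · rw [if_neg h3, zero_add] at hw
            exact (hEne z w (left_ne_zero_of_mul hw)).1
        obtain ⟨v, hv⟩ := hne z.1 z.2
        exact (Finset.disjoint_left.mp h) (sub x hx hv) (sub y hy hv)
      rw [this, mul_zero]
    · rw [hLdef x y h, one_mul]
  · -- the difference is a Gram matrix
    have hAt : Aᵀ = A := by rw [hA, Matrix.diagonal_transpose]
    have h3 : (A + E * B)ᵀ * (A + E * B) - (A - E * B)ᵀ * (A - E * B)
        = (2 : ℝ) • (A * (E * B) + (A * (E * B))ᵀ) := by
      rw [Matrix.transpose_add, Matrix.transpose_sub, Matrix.transpose_mul A, hAt]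
      rw [two_smul]
      noncomm_ring
    have h4 : (2 : ℝ) • (A * (E * B)) = τ • E := by
      ext z x
      rw [Matrix.smul_apply, Matrix.smul_apply, hA, Matrix.diagonal_mul, hB, Matrix.mul_diagonal,
        smul_eq_mul, smul_eq_mul]
      by_cases h : E z x = 0
      · rw [h]; ring
      · have h5 := (hEne z x h).2
        have hz1 : 1 ≤ z.1.card := Finset.card_pos.mpr (hne z.1 z.2)
        have h6 := h2 x.1.card (by omega) (hN x.1 x.2)
        rw [h5] at h6 ⊢
        simp only [Nat.add_sub_cancel] at h6
        rw [← h6]; ring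
    have h5 : (2 : ℝ) • (A * (E * B) + (A * (E * B))ᵀ) = τ • D := by
      rw [smul_add, ← Matrix.transpose_smul, h4, Matrix.transpose_smul, ← smul_add, hDdef]
    rw [h5] at h3
    rw [← h3]
    abel
  
end Pool.Agent.Lib.MP_0ad4be_co
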