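import Mathlib
import Pool.Agent.Lib.MP_0ad4be_co.Spectral

set_option autoImplicit false
set_option linter.unusedSectionVars false

namespace Pool.Agent.Lib.MP_0ad4be_co.Full

open Finset

section general

variable {α : Type*} [DecidableEq α]

theorem SD.eig {S : Finset α} {A : α → α → ℝ} {lam : S → ℝ} {u : S → α → ℝ}
    (h : SD S A lam u) {x : α} (hx : x ∈ S) (i : S) :
    ∑ y ∈ S, A x y * u i y = lam i * u i x := by
  calc ∑ y ∈ S, A x y * u i y = ∑ y ∈ S, ∑ j, (lam j * u j x) * (u j y * u i y) := by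
        apply Finset.sum_congr rfl; intro y hy
        rw [h.dec x hx y hy, Finset.sum_mul]
        apply Finset.sum_congr rfl; intro j _
        ring
    _ = ∑ j, (lam j * u j x) * ∑ y ∈ S, u j y * u i y := by
        rw [Finset.sum_comm]
        apply Finset.sum_congr rfl; intro j _
        rw [Finset.mul_sum]
    _ = _ := by
        simp only [h.orth, mul_ite, mul_one, mul_zero]
        rw [Finset.sum_ite_eq']
        simp

/-- The spectral projection of a bipartite kernel above a nonnegative threshold. -/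
theorem bip_pos (S : Finset α) (D : α → α → ℝ) (hD : ∀ x ∈ S, ∀ y ∈ S, D x y = D y x)
    (ε : α → ℝ) (hbip : ∀ x ∈ S, ∀ y ∈ S, D x y * (ε x + ε y) = 0) {θ : ℝ} (hθ : 0 ≤ θ) :
    ∃ P, Con S P ∧ tr S (fun x y => D x y - θ * dl x y) P
        = pp S (fun x y => D x y - θ * dl x y) ∧
      (∀ x ∈ S, ∑ y ∈ S, P x y ^ 2 = P x x) ∧ (∀ x ∈ S, ∑ y ∈ S, ε y * P x y ^ 2 = 0) := by
  obtain ⟨lam, u, h⟩ := exists_SD S (fun x y => D x y - θ * dl x y) (by
    intro x hx y hy
    rw [hD x hx y hy, dl_comm])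
  refine ⟨pj u (posf lam), h.con_pj (posf_nonneg lam) (posf_le_one lam), h.tr_pos, ?_, ?_⟩
  · intro x _
    have h1 := h.idem (posf lam) x x
    rw [pj]
    simp only [posf_sq] at h1
    rw [← h1]
    apply Finset.sum_congr rfl; intro y _
    rw [sq]
  · intro x _
    have heig : ∀ y ∈ S, ∀ i : S, ∑ z ∈ S, D y z * u i z = (lam i + θ) * u i y := by
      intro y hy i
      have h1 := h.eig hy i
      simp only [sub_mul, Finset.sum_sub_distrib, mul_assoc, ← Finset.mul_sum] at h1
      rw [sum_dl hy (fun z => u i z)] at h1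
      linarith
    have key : ∀ i j : S, 0 < lam i → 0 < lam j → ∑ y ∈ S, ε y * (u i y * u j y) = 0 := by
      intro i j hi hj
      have h1 : (lam j + θ) * ∑ y ∈ S, ε y * (u i y * u j y)
          = ∑ y ∈ S, ∑ z ∈ S, ε y * u i y * (D y z * u j z) := by
        rw [Finset.mul_sum]
        apply Finset.sum_congr rfl; intro y hy
        rw [← Finset.mul_sum, heig y hy j]
        ring
      have h2 : (lam i + θ) * ∑ y ∈ S, ε y * (u i y * u j y)
          = ∑ y ∈ S, ∑ z ∈ S, ε z * u j z * (D z y * u i y) := by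
        rw [Finset.sum_comm, Finset.mul_sum]
        apply Finset.sum_congr rfl; intro y hy
        rw [← Finset.mul_sum, heig y hy i]
        ring
      have h3 : (lam j + θ) * ∑ y ∈ S, ε y * (u i y * u j y)
          + (lam i + θ) * ∑ y ∈ S, ε y * (u i y * u j y) = 0 := by
        rw [h1, h2, ← Finset.sum_add_distrib]
        apply Finset.sum_eq_zero; intro y hy
        rw [← Finset.sum_add_distrib]
        apply Finset.sum_eq_zero; intro z hz
        have h4 := hbip y hy z hz
        rw [hD z hz y hy]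
        linear_combination (u i y * u j z) * h4
      have h4 : ((lam j + θ) + (lam i + θ)) * ∑ y ∈ S, ε y * (u i y * u j y) = 0 := by
        linarith
      rcases mul_eq_zero.mp h4 with h5 | h5
      · exfalso; linarith
      · exact h5
    calc ∑ y ∈ S, ε y * pj u (posf lam) x y ^ 2
        = ∑ y ∈ S, ∑ i, ∑ j, (posf lam i * posf lam j * (u i x * u j x))
            * (ε y * (u i y * u j y)) := by
          apply Finset.sum_congr rfl; intro y hy
          rw [pj, sq, Finset.sum_mul_sum, Finset.mul_sum]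
          apply Finset.sum_congr rfl; intro i _
          rw [Finset.mul_sum]
          apply Finset.sum_congr rfl; intro j _
          ring
      _ = ∑ i, ∑ j, (posf lam i * posf lam j * (u i x * u j x))
            * ∑ y ∈ S, ε y * (u i y * u j y) := by
          rw [Finset.sum_comm]
          apply Finset.sum_congr rfl; intro i _
          rw [Finset.sum_comm]
          apply Finset.sum_congr rfl; intro j _
          rw [Finset.mul_sum]
      _ = 0 := by
          apply Finset.sum_eq_zero; intro i _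
          apply Finset.sum_eq_zero; intro j _
          unfold posf
          by_cases hi : 0 < lam i <;> by_cases hj : 0 < lam j <;> simp only [hi, hj, if_true,
            if_false, zero_mul, mul_zero]
          rw [key i j hi hj, mul_zero]

end general

variable {V : Type*} [DecidableEq V]

/-- `y` is a facet of `x` -/
def Fa (x y : Finset V) : Prop := y ⊆ x ∧ x.card = y.card + 1

instance (x y : Finset V) : Decidable (Fa x y) := by unfold Fa; infer_instance

/-- the Dirac kernel -/
noncomputable def Dk (sg : Finset V → Finset V → ℝ) (x y : Finset V) : ℝ :=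
  (if Fa x y then sg x y else 0) + (if Fa y x then sg y x else 0)

theorem Fa_asymm {x y : Finset V} (h : Fa x y) : ¬ Fa y x := by
  intro h2
  have := h.2
  have := h2.2
  omega

theorem Dk_comm (sg : Finset V → Finset V → ℝ) (x y : Finset V) : Dk sg x y = Dk sg y x := by
  rw [Dk, Dk, add_comm]

theorem abs_Dk_le {sg : Finset V → Finset V → ℝ} (hsg : ∀ x y, |sg x y| ≤ 1) (x y : Finset V) :
    |Dk sg x y| ≤ (if Fa x y then 1 else 0) + (if Fa y x then 1 else 0) := by
  rw [Dk]
  by_cases h1 : Fa x y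
  · simp [h1, Fa_asymm h1, hsg]
  · by_cases h2 : Fa y x
    · simp [h1, h2, hsg]
    · simp [h1, h2]

/-- parity sign -/
noncomputable def sgn (x : Finset V) : ℝ := (-1) ^ x.card

theorem sgn_Fa {x y : Finset V} (h : Fa x y) : sgn x + sgn y = 0 := by
  rw [sgn, sgn, h.2, pow_succ]
  ring

theorem sgn_cases (x : Finset V) : sgn x = 1 ∨ sgn x = -1 := by
  rw [sgn]
  exact neg_one_pow_eq_or ℝ _

theorem Dk_bip (sg : Finset V → Finset V → ℝ) (x y : Finset V) :
    Dk sg x y * (sgn x + sgn y) = 0 := by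
  rw [Dk]
  by_cases h1 : Fa x y
  · rw [sgn_Fa h1, mul_zero]
  · by_cases h2 : Fa y x
    · rw [add_comm (sgn x), sgn_Fa h2, mul_zero]
    · simp [h1, h2]

/-- Properties of the spectral projection of the Dirac kernel above `θ ≥ 0`. -/
structure DP (S : Finset (Finset V)) (P : Finset V → Finset V → ℝ) : Prop where
  con : Con S P
  sq : ∀ x ∈ S, ∑ y ∈ S, P x y ^ 2 = P x x
  par : ∀ x ∈ S, ∑ y ∈ S, sgn y * P x y ^ 2 = 0

theorem exists_DP (S : Finset (Finset V)) (sg : Finset V → Finset V → ℝ) {θ : ℝ} (hθ : 0 ≤ θ) :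
    ∃ P, DP S P ∧ tr S (fun x y => Dk sg x y - θ * dl x y) P
      = pp S (fun x y => Dk sg x y - θ * dl x y) := by
  obtain ⟨P, h1, h2, h3, h4⟩ := bip_pos S (Dk sg) (fun x _ y _ => Dk_comm sg x y) sgn
    (fun x _ y _ => Dk_bip sg x y) hθ
  exact ⟨P, ⟨h1, h3, h4⟩, h2⟩

theorem DP.opp {S : Finset (Finset V)} {P : Finset V → Finset V → ℝ} (h : DP S P)
    {x : Finset V} (hx : x ∈ S) :
    ∑ y ∈ S, (if sgn x + sgn y = 0 then P x y ^ 2 else 0) = P x x / 2 := by
  have h1 := h.sq x hx
  have h2 := h.par x hx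
  have h3 : ∀ y ∈ S, (if sgn x + sgn y = 0 then P x y ^ 2 else 0)
      = (P x y ^ 2 - sgn x * (sgn y * P x y ^ 2)) / 2 := by
    intro y _
    rcases sgn_cases x with hx | hx <;> rcases sgn_cases y with hy | hy <;> rw [hx, hy] <;>
      norm_num
  rw [Finset.sum_congr rfl h3, ← Finset.sum_div, Finset.sum_sub_distrib, ← Finset.mul_sum, h1, h2]
  ring

theorem DP.diag_le {S : Finset (Finset V)} {P : Finset V → Finset V → ℝ} (h : DP S P)
    {x : Finset V} (hx : x ∈ S) : P x x ≤ 1 / 2 := by
  have h1 := h.sq x hx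
  have h2 := h.opp hx
  have h3 : ∑ y ∈ S, (if sgn x + sgn y = 0 then P x y ^ 2 else 0) + P x x ^ 2
      ≤ ∑ y ∈ S, P x y ^ 2 := by
    have h4 : P x x ^ 2 = ∑ y ∈ S, dl x y * P x y ^ 2 := by
      rw [sum_dl hx (fun y => P x y ^ 2)]
    rw [h4, ← Finset.sum_add_distrib]
    apply Finset.sum_le_sum; intro y _
    by_cases hxy : x = y
    · subst hxy
      have : sgn x + sgn x ≠ 0 := by
        rcases sgn_cases x with h | h <;> rw [h] <;> norm_num
      rw [if_neg this, dl_self]
      linarith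
    · rw [dl, if_neg hxy]
      split_ifs <;> nlinarith [sq_nonneg (P x y)]
  rw [h1, h2] at h3
  have h4 := h.con.diag_nonneg hx
  nlinarith

theorem DP.sum_Fa {S : Finset (Finset V)} {P : Finset V → Finset V → ℝ} (h : DP S P)
    {x : Finset V} (hx : x ∈ S) :
    ∑ y ∈ S, ((if Fa x y then P x y ^ 2 else 0) + (if Fa y x then P x y ^ 2 else 0))
      ≤ P x x / 2 := by
  rw [← h.opp hx]
  apply Finset.sum_le_sum; intro y _
  by_cases h1 : Fa x y
  · simp [h1, Fa_asymm h1, sgn_Fa h1]
  · by_cases h2 : Fa y x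
    · have := sgn_Fa h2
      rw [add_comm] at this
      simp [h1, h2, this]
    · simp only [h1, h2, if_false, add_zero]
      split_ifs
      · positivity
      · exact le_rfl

/-- the pairing with the Dirac kernel in terms of facets -/
theorem tr_Dk_le {S : Finset (Finset V)} {P : Finset V → Finset V → ℝ} (h : Con S P)
    {sg : Finset V → Finset V → ℝ} (hsg : ∀ x y, |sg x y| ≤ 1) :
    tr S (Dk sg) P ≤ ∑ x ∈ S, ∑ y ∈ S, (if Fa x y then 2 * |P x y| else 0) := by
  have h1 : tr S (Dk sg) P ≤ ∑ x ∈ S, ∑ y ∈ S, ((if Fa x y then |P x y| else 0)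
      + (if Fa y x then |P x y| else 0)) := by
    unfold tr
    apply Finset.sum_le_sum; intro x _
    apply Finset.sum_le_sum; intro y _
    calc Dk sg x y * P x y ≤ |Dk sg x y * P x y| := le_abs_self _
      _ = |Dk sg x y| * |P x y| := abs_mul _ _
      _ ≤ ((if Fa x y then 1 else 0) + (if Fa y x then 1 else 0)) * |P x y| :=
          mul_le_mul_of_nonneg_right (abs_Dk_le hsg x y) (abs_nonneg _)
      _ = _ := by
          split_ifs <;> ring
  refine h1.trans (le_of_eq ?_)
  simp only [Finset.sum_add_distrib]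
  have h2 : ∑ x ∈ S, ∑ y ∈ S, (if Fa y x then |P x y| else 0)
      = ∑ x ∈ S, ∑ y ∈ S, (if Fa x y then |P x y| else 0) := by
    rw [Finset.sum_comm]
    apply Finset.sum_congr rfl; intro x hx
    apply Finset.sum_congr rfl; intro y hy
    rw [h.symm y hy x hx]
  rw [h2, ← Finset.sum_add_distrib]
  apply Finset.sum_congr rfl; intro x _
  rw [← Finset.sum_add_distrib]
  apply Finset.sum_congr rfl; intro y _
  split_ifs <;> ring

/-- weighted sum over facets pairs of the squares -/
theorem DP.weighted {S : Finset (Finset V)} {P : Finset V → Finset V → ℝ} (h : DP S P)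
    (lam : Finset V → ℝ) (hlam : ∀ x ∈ S, 0 ≤ lam x) :
    ∑ x ∈ S, ∑ y ∈ S, (if Fa x y then (lam x + lam y) * P x y ^ 2 else 0)
      ≤ ∑ x ∈ S, lam x * (P x x / 2) := by
  have h1 : ∑ x ∈ S, ∑ y ∈ S, (if Fa x y then (lam x + lam y) * P x y ^ 2 else 0)
      = ∑ x ∈ S, ∑ y ∈ S, lam x * ((if Fa x y then P x y ^ 2 else 0)
        + (if Fa y x then P x y ^ 2 else 0)) := by
    have h2 : ∑ x ∈ S, ∑ y ∈ S, lam x * (if Fa y x then P x y ^ 2 else 0)
        = ∑ x ∈ S, ∑ y ∈ S, lam y * (if Fa x y then P x y ^ 2 else 0) := by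
      rw [Finset.sum_comm]
      apply Finset.sum_congr rfl; intro x hx
      apply Finset.sum_congr rfl; intro y hy
      rw [h.con.symm y hy x hx]
    simp only [mul_add, Finset.sum_add_distrib]
    rw [h2, ← Finset.sum_add_distrib]
    apply Finset.sum_congr rfl; intro x _
    rw [← Finset.sum_add_distrib]
    apply Finset.sum_congr rfl; intro y _
    split_ifs <;> ring
  rw [h1]
  apply Finset.sum_le_sum; intro x hx
  rw [← Finset.mul_sum]
  exact mul_le_mul_of_nonneg_left (h.sum_Fa hx) (hlam x hx)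

theorem DP.sum_even {S : Finset (Finset V)} {P : Finset V → Finset V → ℝ} (h : DP S P) :
    ∑ x ∈ S.filter (fun x => Even x.card), P x x = ∑ x ∈ S.filter (fun x => Odd x.card), P x x := by
  have h1 : ∑ x ∈ S, sgn x * P x x = 0 := by
    have h2 : ∑ x ∈ S, sgn x * P x x = ∑ x ∈ S, ∑ y ∈ S, sgn x * P x y ^ 2 := by
      apply Finset.sum_congr rfl; intro x hx
      rw [← Finset.mul_sum, h.sq x hx]
    rw [h2, Finset.sum_comm]
    apply Finset.sum_eq_zero; intro y hy
    rw [← h.par y hy]
    apply Finset.sum_congr rfl; intro x hx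
    rw [h.con.symm x hx y hy]
  rw [← Finset.sum_filter_add_sum_filter_not S (fun x => Even x.card)] at h1
  have h2 : ∑ x ∈ S.filter (fun x => Even x.card), sgn x * P x x
      = ∑ x ∈ S.filter (fun x => Even x.card), P x x := by
    apply Finset.sum_congr rfl; intro x hx
    rw [sgn, (Finset.mem_filter.mp hx).2.neg_one_pow, one_mul]
  have h3 : ∑ x ∈ S.filter (fun x => ¬ Even x.card), sgn x * P x x
      = -∑ x ∈ S.filter (fun x => Odd x.card), P x x := by
    rw [← Finset.sum_neg_distrib]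
    apply Finset.sum_congr
    · ext x
      simp only [Finset.mem_filter, Nat.not_even_iff_odd]
    · intro x hx
      have h4 := (Finset.mem_filter.mp hx).2
      rw [sgn, h4.neg_one_pow]
      ring
  rw [h2, h3] at h1
  linarith

/-- Global Dirac bound. -/
theorem dirac_global (S : Finset (Finset V)) {sg : Finset V → Finset V → ℝ}
    (hsg : ∀ x y, |sg x y| ≤ 1) {θ lam A B : ℝ} (hθ : 0 ≤ θ) (hlam : 0 < lam) (hA : 0 ≤ A)
    (hB : 0 ≤ B) (hAB : A + B = lam / 2 - θ) :
    pp S (fun x y => Dk sg x y - θ * dl x y)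
      ≤ A * ((S.filter fun x => Even x.card).card : ℝ)
        + B * ((S.filter fun x => Odd x.card).card : ℝ)
        + ∑ x ∈ S, ∑ y ∈ S, (if Fa x y then 1 / (2 * lam) else 0) := by
  obtain ⟨P, hP, hPP⟩ := exists_DP S sg hθ
  rw [← hPP, tr_sub, tr_smul, dl_tr]
  have h1 := tr_Dk_le hP.con hsg
  have h2 := hP.weighted (fun _ => lam) (fun _ _ => hlam.le)
  have h3 : ∑ x ∈ S, ∑ y ∈ S, (if Fa x y then 2 * |P x y| else 0)
      ≤ ∑ x ∈ S, ∑ y ∈ S, (if Fa x y then 1 / (2 * lam) else 0)
        + ∑ x ∈ S, ∑ y ∈ S, (if Fa x y then (lam + lam) * P x y ^ 2 else 0) := by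
    rw [← Finset.sum_add_distrib]
    apply Finset.sum_le_sum; intro x _
    rw [← Finset.sum_add_distrib]
    apply Finset.sum_le_sum; intro y _
    split_ifs
    · have h4 : 0 ≤ (1 - 2 * lam * |P x y|) ^ 2 / (2 * lam) := by positivity
      have h5 : (1 - 2 * lam * |P x y|) ^ 2 / (2 * lam)
          = 1 / (2 * lam) + (lam + lam) * |P x y| ^ 2 - 2 * |P x y| := by
        field_simp
        ring
      rw [h5, sq_abs] at h4
      linarith
    · norm_num
  have h4 : ∑ x ∈ S, lam * (P x x / 2) = lam / 2 * ∑ x ∈ S, P x x := by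
    rw [Finset.mul_sum]
    apply Finset.sum_congr rfl; intro x _
    ring
  have h5 : ∑ x ∈ S, P x x = 2 * ∑ x ∈ S.filter (fun x => Even x.card), P x x := by
    rw [← Finset.sum_filter_add_sum_filter_not S (fun x => Even x.card)]
    have h6 : ∑ x ∈ S.filter (fun x => ¬ Even x.card), P x x
        = ∑ x ∈ S.filter (fun x => Odd x.card), P x x := by
      apply Finset.sum_congr
      · ext x
        simp only [Finset.mem_filter, Nat.not_even_iff_odd]
      · intros; rfl
    rw [h6, ← hP.sum_even]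
    ring
  have h6 : ∑ x ∈ S.filter (fun x => Even x.card), P x x
      ≤ ((S.filter fun x => Even x.card).card : ℝ) / 2 := by
    calc ∑ x ∈ S.filter (fun x => Even x.card), P x x
        ≤ ∑ x ∈ S.filter (fun x => Even x.card), (1 / 2 : ℝ) :=
          Finset.sum_le_sum fun x hx => hP.diag_le (Finset.mem_filter.mp hx).1
      _ = _ := by rw [Finset.sum_const, nsmul_eq_mul]; ring
  have h7 : ∑ x ∈ S.filter (fun x => Even x.card), P x x
      ≤ ((S.filter fun x => Odd x.card).card : ℝ) / 2 := by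
    rw [hP.sum_even]
    calc ∑ x ∈ S.filter (fun x => Odd x.card), P x x
        ≤ ∑ x ∈ S.filter (fun x => Odd x.card), (1 / 2 : ℝ) :=
          Finset.sum_le_sum fun x hx => hP.diag_le (Finset.mem_filter.mp hx).1
      _ = _ := by rw [Finset.sum_const, nsmul_eq_mul]; ring
  rw [h4] at h2
  have h8 := mul_le_mul_of_nonneg_left h6 hA
  have h9 := mul_le_mul_of_nonneg_left h7 hB
  nlinarith

/-- Local Dirac bound: `X` is the set where weights live, the rest has small norm. -/
theorem dirac_local {S X : Finset (Finset V)} (hX : X ⊆ S) {sg : Finset V → Finset V → ℝ}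
    (hsg : ∀ x y, |sg x y| ≤ 1) {θ : ℝ} (hθ : 0 ≤ θ) (lam : Finset V → ℝ)
    (hlam : ∀ x ∈ X, 2 * θ ≤ lam x) (hlam0 : ∀ x ∈ X, 0 < lam x)
    (hlamR : ∀ x ∈ S, x ∉ X → lam x = 0)
    (hR : ∀ P, Con S P → ∑ x ∈ S \ X, ∑ y ∈ S \ X, (if Fa x y then 2 * |P x y| else 0)
      ≤ θ * ∑ x ∈ S \ X, P x x) :
    pp S (fun x y => Dk sg x y - θ * dl x y)
      ≤ ∑ x ∈ X, (lam x / 2 - θ) / 2
        + ∑ x ∈ S, ∑ y ∈ S, (if Fa x y ∧ (x ∈ X ∨ y ∈ X) then 1 / (lam x + lam y) else 0) := by
  obtain ⟨P, hP, hPP⟩ := exists_DP S sg hθ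
  rw [← hPP, tr_sub, tr_smul, dl_tr]
  have hl0 : ∀ x ∈ S, 0 ≤ lam x := by
    intro x hx
    by_cases h : x ∈ X
    · exact (hlam0 x h).le
    · exact (hlamR x hx h).ge
  have h1 := tr_Dk_le hP.con hsg
  have h2 := hP.weighted lam hl0
  have h3 : ∑ x ∈ S, ∑ y ∈ S, (if Fa x y then 2 * |P x y| else 0)
      ≤ ∑ x ∈ S, ∑ y ∈ S, (if Fa x y ∧ (x ∈ X ∨ y ∈ X) then 1 / (lam x + lam y) else 0)
        + ∑ x ∈ S, ∑ y ∈ S, (if Fa x y then (lam x + lam y) * P x y ^ 2 else 0)
        + ∑ x ∈ S, ∑ y ∈ S, (if x ∈ X then 0 else (if y ∈ X then 0 else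
            (if Fa x y then 2 * |P x y| else 0))) := by
    rw [← Finset.sum_add_distrib, ← Finset.sum_add_distrib]
    apply Finset.sum_le_sum; intro x hx
    rw [← Finset.sum_add_distrib, ← Finset.sum_add_distrib]
    apply Finset.sum_le_sum; intro y hy
    by_cases hF : Fa x y
    · have hxl := hl0 x hx
      have hyl := hl0 y hy
      by_cases hxy : x ∈ X ∨ y ∈ X
      · have hpos : 0 < lam x + lam y := by
          rcases hxy with h | h
          · linarith [hlam0 x h]
          · linarith [hlam0 y h]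
        have h4 : 0 ≤ (1 - (lam x + lam y) * |P x y|) ^ 2 / (lam x + lam y) := by positivity
        have h5 : (1 - (lam x + lam y) * |P x y|) ^ 2 / (lam x + lam y)
            = 1 / (lam x + lam y) + (lam x + lam y) * |P x y| ^ 2 - 2 * |P x y| := by
          field_simp
          ring
        rw [h5, sq_abs] at h4
        rw [if_pos hF, if_pos ⟨hF, hxy⟩, if_pos hF]
        have h6 : (0 : ℝ) ≤ (if x ∈ X then 0 else (if y ∈ X then 0 else 2 * |P x y|)) := by
          split_ifs <;> positivity
        linarith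
      · push Not at hxy
        rw [if_pos hF, if_neg (by
          rintro ⟨_, h | h⟩
          · exact hxy.1 h
          · exact hxy.2 h), if_pos hF, if_neg hxy.1, if_neg hxy.2]
        have : 0 ≤ (lam x + lam y) * P x y ^ 2 := by positivity
        linarith
    · simp [hF]
  have h4 : ∑ x ∈ S, ∑ y ∈ S, (if x ∈ X then 0 else (if y ∈ X then 0 else
            (if Fa x y then 2 * |P x y| else 0)))
      = ∑ x ∈ S \ X, ∑ y ∈ S \ X, (if Fa x y then 2 * |P x y| else 0) := by
    rw [← Finset.sum_sdiff hX (f := fun x => ∑ y ∈ S, (if x ∈ X then 0 else (if y ∈ X then 0 else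
            (if Fa x y then 2 * |P x y| else 0))))]
    have h5 : ∑ x ∈ X, ∑ y ∈ S, (if x ∈ X then 0 else (if y ∈ X then 0 else
            (if Fa x y then 2 * |P x y| else 0))) = 0 := by
      apply Finset.sum_eq_zero; intro x hx
      apply Finset.sum_eq_zero; intro y _
      rw [if_pos hx]
    rw [h5, add_zero]
    apply Finset.sum_congr rfl; intro x hx
    rw [← Finset.sum_sdiff hX (f := fun y => (if x ∈ X then 0 else (if y ∈ X then 0 else
            (if Fa x y then 2 * |P x y| else 0))))]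
    have h6 : ∑ y ∈ X, (if x ∈ X then 0 else (if y ∈ X then 0 else
            (if Fa x y then 2 * |P x y| else 0))) = 0 := by
      apply Finset.sum_eq_zero; intro y hy
      rw [if_pos hy]
      simp
    rw [h6, add_zero]
    apply Finset.sum_congr rfl; intro y hy
    rw [if_neg (Finset.mem_sdiff.mp hx).2, if_neg (Finset.mem_sdiff.mp hy).2]
  have h5 := hR P hP.con
  have h6 : ∑ x ∈ S, P x x = ∑ x ∈ S \ X, P x x + ∑ x ∈ X, P x x := (Finset.sum_sdiff hX).symm
  have h7 : ∑ x ∈ S, lam x * (P x x / 2) = ∑ x ∈ X, lam x * (P x x / 2) := by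
    symm
    apply Finset.sum_subset hX
    intro x hx hxX
    rw [hlamR x hx hxX, zero_mul]
  have h8 : ∑ x ∈ X, lam x * (P x x / 2) - θ * ∑ x ∈ X, P x x ≤ ∑ x ∈ X, (lam x / 2 - θ) / 2 := by
    rw [Finset.mul_sum, ← Finset.sum_sub_distrib]
    apply Finset.sum_le_sum; intro x hx
    have h9 := hP.diag_le (hX hx)
    have h10 := hP.con.diag_nonneg (hX hx)
    have h11 := hlam x hx
    nlinarith
  rw [h7] at h2
  rw [h4] at h3
  have h9 : θ * ∑ x ∈ S, P x x = θ * ∑ x ∈ S \ X, P x x + θ * ∑ x ∈ X, P x x := by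
    rw [h6]; ring
  linarith

/-- number of facets in `R` -/
noncomputable def dn (R : Finset (Finset V)) (x : Finset V) : ℝ :=
  ((R.filter fun y => Fa x y).card : ℝ)

/-- number of cofacets in `R` -/
noncomputable def up (R : Finset (Finset V)) (x : Finset V) : ℝ :=
  ((R.filter fun y => Fa y x).card : ℝ)

/-- Schur test. -/
theorem schur_R {R : Finset (Finset V)} {P : Finset V → Finset V → ℝ} (hP : Con R P)
    (m : ℕ → ℝ) (hm : ∀ s, 0 < m s) {θ : ℝ}
    (h : ∀ x ∈ R, m x.card * dn R x + up R x / m (x.card + 1) ≤ θ) :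
    ∑ x ∈ R, ∑ y ∈ R, (if Fa x y then 2 * |P x y| else 0) ≤ θ * ∑ x ∈ R, P x x := by
  have h1 : ∑ x ∈ R, ∑ y ∈ R, (if Fa x y then 2 * |P x y| else 0)
      ≤ ∑ x ∈ R, ∑ y ∈ R, (if Fa x y then m x.card * P x x else 0)
        + ∑ x ∈ R, ∑ y ∈ R, (if Fa x y then P y y / m x.card else 0) := by
    rw [← Finset.sum_add_distrib]
    apply Finset.sum_le_sum; intro x hx
    rw [← Finset.sum_add_distrib]
    apply Finset.sum_le_sum; intro y hy
    split_ifs with hF
    · have hne : x ≠ y := by
        rintro rfl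
        have := hF.2
        omega
      exact hP.two_mul_abs_le hx hy hne (hm _)
    · norm_num
  have h2 : ∑ x ∈ R, ∑ y ∈ R, (if Fa x y then m x.card * P x x else 0)
      = ∑ x ∈ R, (m x.card * dn R x) * P x x := by
    apply Finset.sum_congr rfl; intro x _
    rw [Finset.sum_ite]
    simp only [Finset.sum_const, nsmul_eq_mul, mul_zero, add_zero, dn]
    ring
  have h3 : ∑ x ∈ R, ∑ y ∈ R, (if Fa x y then P y y / m x.card else 0)
      = ∑ x ∈ R, (up R x / m (x.card + 1)) * P x x := by
    rw [Finset.sum_comm]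
    apply Finset.sum_congr rfl; intro y _
    have h4 : ∀ x ∈ R, (if Fa x y then P y y / m x.card else 0)
        = (if Fa x y then P y y / m (y.card + 1) else 0) := by
      intro x _
      split_ifs with hF
      · rw [hF.2]
      · rfl
    rw [Finset.sum_congr rfl h4, Finset.sum_ite]
    simp only [Finset.sum_const, nsmul_eq_mul, mul_zero, add_zero, up]
    ring
  rw [h2, h3, ← Finset.sum_add_distrib] at h1
  refine h1.trans ?_
  rw [Finset.mul_sum]
  apply Finset.sum_le_sum; intro x hx
  rw [← add_mul]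
  exact mul_le_mul_of_nonneg_right (h x hx) (hP.diag_nonneg hx)

end Pool.Agent.Lib.MP_0ad4be_co.Full
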