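import Mathlib
import Pool.Agent.Lib.MP_0ad4be_co.Apl

set_option autoImplicit false
set_option linter.unusedSectionVars false

namespace Pool.Agent.Lib.MP_0ad4be_co.Full

open Finset

variable {V : Type*} [DecidableEq V]

/-- down-closed families containing the empty set -/
structure DC (F : Finset (Finset V)) : Prop where
  empty : ∅ ∈ F
  down : ∀ x ∈ F, ∀ y ⊆ x, y ∈ F

/-- deletion of a vertex -/
def del (v : V) (F : Finset (Finset V)) : Finset (Finset V) := F.filter (fun x => v ∉ x)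

/-- link of a vertex (with the empty set) -/
def lk (v : V) (F : Finset (Finset V)) : Finset (Finset V) :=
  F.filter (fun x => v ∉ x ∧ insert v x ∈ F)

theorem mem_del {v : V} {F : Finset (Finset V)} {x : Finset V} :
    x ∈ del v F ↔ x ∈ F ∧ v ∉ x := by simp [del]

theorem mem_lk {v : V} {F : Finset (Finset V)} {x : Finset V} :
    x ∈ lk v F ↔ x ∈ F ∧ v ∉ x ∧ insert v x ∈ F := by simp [lk]

theorem lk_subset_del (v : V) (F : Finset (Finset V)) : lk v F ⊆ del v F := by
  intro x hx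
  rw [mem_lk] at hx
  rw [mem_del]
  exact ⟨hx.1, hx.2.1⟩

theorem DC.del {F : Finset (Finset V)} (h : DC F) (v : V) : DC (del v F) where
  empty := by
    rw [mem_del]
    exact ⟨h.empty, by simp⟩
  down := by
    intro x hx y hy
    rw [mem_del] at hx ⊢
    exact ⟨h.down x hx.1 y hy, fun h1 => hx.2 (hy h1)⟩

theorem DC.lk {F : Finset (Finset V)} (h : DC F) {v : V} (hv : {v} ∈ F) : DC (lk v F) where
  empty := by
    rw [mem_lk]
    exact ⟨h.empty, by simp, by simpa using hv⟩
  down := by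
    intro x hx y hy
    rw [mem_lk] at hx ⊢
    exact ⟨h.down x hx.1 y hy, fun h1 => hx.2.1 (hy h1),
      h.down _ hx.2.2 _ (Finset.insert_subset_insert v hy)⟩

theorem not_mem_del {v : V} {F : Finset (Finset V)} : ∀ x ∈ del v F, v ∉ x :=
  fun _ hx => (mem_del.mp hx).2

theorem not_mem_lk {v : V} {F : Finset (Finset V)} : ∀ x ∈ lk v F, v ∉ x :=
  fun _ hx => (mem_lk.mp hx).2.1

theorem DC.split {F : Finset (Finset V)} (h : DC F) (v : V) :
    Full.del v F ∪ (Full.lk v F).image (insert v) = F := by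
  ext z
  simp only [Finset.mem_union, mem_del, Finset.mem_image, mem_lk]
  constructor
  · rintro (h1 | ⟨x, h1, rfl⟩)
    · exact h1.1
    · exact h1.2.2
  · intro hz
    by_cases hv : v ∈ z
    · right
      refine ⟨z.erase v, ⟨h.down z hz _ (Finset.erase_subset _ _), Finset.notMem_erase _ _, ?_⟩,
        Finset.insert_erase hv⟩
      rwa [Finset.insert_erase hv]
    · left
      exact ⟨hz, hv⟩

theorem DC.split_erase {F : Finset (Finset V)} (h : DC F) (v : V) :
    (Full.del v F).erase ∅ ∪ (Full.lk v F).image (insert v) = F.erase ∅ := by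
  conv_rhs => rw [← h.split v]
  ext z
  simp only [Finset.mem_union, Finset.mem_erase, Finset.mem_image]
  constructor
  · rintro (h1 | ⟨x, h1, rfl⟩)
    · exact ⟨h1.1, Or.inl h1.2⟩
    · exact ⟨Finset.insert_ne_empty _ _, Or.inr ⟨x, h1, rfl⟩⟩
  · rintro ⟨h1, h2 | h2⟩
    · exact Or.inl ⟨h1, h2⟩
    · exact Or.inr h2

theorem filter_del (v : V) (F : Finset (Finset V)) :
    (del v F).filter (· ∈ lk v F) = lk v F := by
  ext x
  simp only [Finset.mem_filter]
  constructor
  · exact fun h => h.2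
  · exact fun h => ⟨lk_subset_del v F h, h⟩

theorem filter_del_erase (v : V) (F : Finset (Finset V)) :
    ((del v F).erase ∅).filter (· ∈ lk v F) = (lk v F).erase ∅ := by
  ext x
  simp only [Finset.mem_filter, Finset.mem_erase]
  constructor
  · exact fun h => ⟨h.1.1, h.2⟩
  · exact fun h => ⟨⟨h.1, lk_subset_del v F h.2⟩, h.2⟩

/-- sum over a family, split by a vertex -/
theorem DC.sum_split {F : Finset (Finset V)} (h : DC F) (v : V) (f : Finset V → ℝ) :
    ∑ x ∈ F, f x = ∑ x ∈ Full.del v F, f x + ∑ x ∈ Full.lk v F, f (insert v x) := by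
  conv_lhs => rw [← h.split v]
  exact sum_star not_mem_del not_mem_lk f

theorem DC.sum_split_erase {F : Finset (Finset V)} (h : DC F) (v : V) (f : Finset V → ℝ) :
    ∑ x ∈ F.erase ∅, f x
      = ∑ x ∈ (Full.del v F).erase ∅, f x + ∑ x ∈ Full.lk v F, f (insert v x) := by
  rw [← h.split_erase v]
  exact sum_star (fun x hx => not_mem_del x (Finset.mem_of_mem_erase hx)) not_mem_lk f

theorem DC.induction {C : Finset (Finset V) → Prop} (h0 : C {∅})
    (hstep : ∀ (F : Finset (Finset V)) (v : V), DC F → {v} ∈ F → C (Full.del v F) →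
      C (Full.lk v F) → C F) : ∀ F, DC F → C F := by
  have key : ∀ (n : ℕ) (F : Finset (Finset V)), F.card = n → DC F → C F := by
    intro n
    induction n using Nat.strong_induction_on with
    | _ n ih =>
      intro F hn hF
      by_cases h : ∃ v, {v} ∈ F
      · obtain ⟨v, hv⟩ := h
        have h1 : (Full.del v F).card < F.card := by
          apply Finset.card_lt_card
          refine ⟨Finset.filter_subset _ _, fun h2 => ?_⟩
          have := h2 hv
          rw [mem_del] at this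
          exact this.2 (by simp)
        have h2 : (Full.lk v F).card ≤ (Full.del v F).card :=
          Finset.card_le_card (lk_subset_del v F)
        exact hstep F v hF hv (ih _ (by omega) _ rfl (hF.del v))
          (ih _ (by omega) _ rfl (hF.lk hv))
      · have : F = {∅} := by
          ext x
          simp only [Finset.mem_singleton]
          constructor
          · intro hx
            by_contra hne
            obtain ⟨v, hv⟩ := Finset.nonempty_iff_ne_empty.mpr hne
            exact h ⟨v, hF.down x hx _ (by simpa using hv)⟩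
          · rintro rfl
            exact hF.empty
        rw [this]
        exact h0
  intro F hF
  exact key _ F rfl hF

/-- `β_t` -/
noncomputable def be (t : ℝ) (F : Finset (Finset V)) : ℝ := pp F (fun x y => Z x y + t)

/-- `A°_t` -/
noncomputable def Ao (t : ℝ) (F : Finset (Finset V)) : ℝ := pp (F.erase ∅) (fun x y => t - Z x y)

/-- the functional `F_θ(L)` -/
noncomputable def FL (θ : ℝ) (F : Finset (Finset V)) : ℝ :=
  pp (F.erase ∅) (fun x y => 1 - Z x y - θ * dl x y)

theorem Z_empty_right (x : Finset V) : Z x ∅ = 1 := by simp [Z]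

theorem Z_empty_left (x : Finset V) : Z ∅ x = 1 := by simp [Z]

theorem Z_self {x : Finset V} (hx : x ≠ ∅) : Z x x = 0 := by
  simp [Z, hx]

theorem DC.sum_Z {F : Finset (Finset V)} (h : DC F) : ∑ x ∈ F, Z x x = 1 := by
  rw [Finset.sum_eq_single_of_mem ∅ h.empty]
  · simp [Z]
  · intro x _ hx
    exact Z_self hx

theorem be_mono {s t : ℝ} (h : s ≤ t) (F : Finset (Finset V)) : be s F ≤ be t F :=
  pp_add_const _ h

theorem Ao_mono {s t : ℝ} (h : s ≤ t) (F : Finset (Finset V)) : Ao s F ≤ Ao t F := by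
  have := pp_add_const (S := F.erase ∅) (fun x y => -Z x y) h
  have e : ∀ r : ℝ, Ao r F = pp (F.erase ∅) (fun x y => -Z x y + r) := by
    intro r
    apply pp_congr
    intros
    ring
  rw [e, e]
  exact this

/-- `pp (-(Z + t)) = β_t - 1 - t |F|` -/
theorem DC.pp_neg_Z {F : Finset (Finset V)} (h : DC F) (t : ℝ) :
    pp F (fun x y => -(Z x y + t)) = be t F - 1 - t * F.card := by
  rw [pp_neg, Finset.sum_add_distrib, h.sum_Z]
  simp only [Finset.sum_const, nsmul_eq_mul, be]
  ring

theorem one_le_add {c s : ℝ} (hc : 0 ≤ c) (hs : 0 ≤ s) (hcs : c ^ 2 + s ^ 2 = 1) : 1 ≤ c + s := by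
  nlinarith [mul_nonneg hc hs]

/-- recursion for `β_t` -/
theorem be_rec {v : V} {F : Finset (Finset V)} (hF : DC F) (hv : {v} ∈ F) {t c s : ℝ}
    (ht : 0 ≤ t) (hc : 0 ≤ c) (hs : 0 ≤ s) (hcs : c ^ 2 + s ^ 2 = 1)
    (hg : s ^ 2 ≤ 2 * c * s) (hγ : (c + s - 1) ^ 2 ≤ s ^ 2) :
    be t (del v F) + 2 * (c + s - 1) * be t (lk v F)
      + ((2 * c * s - s ^ 2) - (s ^ 2 - (c + s - 1) ^ 2)) * be 0 (lk v F) - (2 * c * s - s ^ 2)
      ≤ be t F := by
  have hL := hF.lk hv
  have h1 := apl1 (v := v) (S' := del v F) (L := lk v F) not_mem_del not_mem_lk 1 t c s 1 hcs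
    (by norm_num) (by linarith [one_le_add hc hs hcs])
  rw [filter_del, hF.split v] at h1
  have e1 : ∀ S : Finset (Finset V), pp S (fun x y => 1 * Z x y + t) = be t S := by
    intro S
    apply pp_congr
    intros
    ring
  rw [e1, e1, e1] at h1
  have h2 : (2 * c * s - s ^ 2) * (be 0 (lk v F) - 1) ≤ pp (lk v F) (aF (del v F) 1 t c s) := by
    have h3 : (2 * c * s - s ^ 2) * (be 0 (lk v F) - 1)
        = pp (lk v F) (fun x y => (2 * c * s - s ^ 2) * -(Z x y + 0)) := by
      rw [pp_smul _ (by linarith), hL.pp_neg_Z]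
      ring
    rw [h3]
    have h4 := pp_add_const (S := lk v F)
      (fun x y => (2 * c * s - s ^ 2) * -(Z x y + 0)) (c := 0) (d := (c - s) ^ 2 * t)
      (by positivity)
    have h5 : pp (lk v F) (aF (del v F) 1 t c s)
        = pp (lk v F) (fun x y => (2 * c * s - s ^ 2) * -(Z x y + 0) + (c - s) ^ 2 * t) := by
      apply pp_congr
      intro x hx y hy
      rw [aF, if_pos (lk_subset_del v F hx), if_pos (lk_subset_del v F hy)]
      ring
    rw [h5]
    simpa using h4
  have h3 : pp (lk v F) (fun x y => -(((c + s) * 1 - 1) ^ 2 * (1 * Z x y + t)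
      - s ^ 2 * 1 ^ 2 * (1 * Z x y))) ≤ (s ^ 2 - (c + s - 1) ^ 2) * be 0 (lk v F) := by
    have h4 : (s ^ 2 - (c + s - 1) ^ 2) * be 0 (lk v F)
        = pp (lk v F) (fun x y => (s ^ 2 - (c + s - 1) ^ 2) * (Z x y + 0)) := by
      rw [pp_smul _ (by linarith)]
      rfl
    rw [h4]
    have h5 := pp_add_const (S := lk v F)
      (fun x y => (s ^ 2 - (c + s - 1) ^ 2) * (Z x y + 0)) (c := -((c + s - 1) ^ 2 * t)) (d := 0)
      (by
        have : 0 ≤ (c + s - 1) ^ 2 * t := by positivity
        linarith)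
    refine le_trans (le_of_eq ?_) (h5.trans (le_of_eq ?_))
    · apply pp_congr
      intros
      ring
    · apply pp_congr
      intros
      ring
  have h6 : (1 - (1 : ℝ) ^ 2) = 0 := by norm_num
  rw [h6, zero_mul, add_zero] at h1
  linarith

/-- lower bound for the compressed kernel on the link -/
theorem aF_lower {S' L : Finset (Finset V)} (hL : DC L) (hS : ∀ x ∈ L, x ∈ S' ↔ x ≠ ∅)
    {t τ c s g q h : ℝ} (ht : 0 ≤ t) (hgdef : g = 2 * c * s - s ^ 2) (hg : 0 < g)
    (hτ : τ * g ≤ t * (c - s) ^ 2) (hq : q = (c - s) * t + s) (hh : h = g + t * (c - s) ^ 2)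
    (hqh : h ≤ q) (hth : 2 * q ≤ t + h) :
    g * be τ L + 2 * (q - h) ≤ pp L (aF S' (-1) t c s) := by
  set τ0 : ℝ := t * (c - s) ^ 2 / g with hτ0
  have hτ0' : τ0 * g = t * (c - s) ^ 2 := by
    rw [hτ0]
    field_simp
  have hττ : τ ≤ τ0 := by
    rw [hτ0, le_div_iff₀ hg]
    exact hτ
  have hτ00 : 0 ≤ τ0 := by rw [hτ0]; positivity
  obtain ⟨P, hP, hP1, hP2⟩ := exists_pos L (fun x y => Z x y + τ0) (by
    intro x _ y _; rw [Z_comm])
  have h1 := le_pp (A := aF S' (-1) t c s) hP
  have e : tr L (aF S' (-1) t c s) P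
      = g * tr L (fun x y => Z x y + τ0) P + (q - h) * ∑ y ∈ L, P ∅ y
        + (q - h) * ∑ x ∈ L, P x ∅ + (t + h - 2 * q) * P ∅ ∅ := by
    have e1 : ∀ x ∈ L, ∀ y ∈ L, aF S' (-1) t c s x y = g * (Z x y + τ0) + (q - h) * dl ∅ x
        + (q - h) * dl ∅ y + (t + h - 2 * q) * (dl ∅ x * dl ∅ y) := by
      intro x hx y hy
      have hxS := hS x hx
      have hyS := hS y hy
      by_cases h3 : x = ∅ <;> by_cases h4 : y = ∅
      · subst h3; subst h4
        have : ∅ ∉ S' := fun h5 => (hxS.mp h5) rfl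
        rw [aF, if_neg this, if_neg this, Z_empty_left, dl_self]
        linear_combination hh - hτ0'
      · subst h3
        have h5 : ∅ ∉ S' := fun h5 => (hxS.mp h5) rfl
        have h6 : dl (∅ : Finset V) y = 0 := by rw [dl, if_neg (fun h => h4 h.symm)]
        rw [aF, if_neg h5, if_pos (hyS.mpr h4), Z_empty_left, dl_self, h6]
        linear_combination hh - hτ0' - hq
      · subst h4
        have h5 : ∅ ∉ S' := fun h5 => (hyS.mp h5) rfl
        have h6 : dl (∅ : Finset V) x = 0 := by rw [dl, if_neg (fun h => h3 h.symm)]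
        rw [aF, if_pos (hxS.mpr h3), if_neg h5, Z_empty_right, dl_self, h6]
        linear_combination hh - hτ0' - hq
      · have h6 : dl (∅ : Finset V) x = 0 := by rw [dl, if_neg (fun h => h3 h.symm)]
        have h7 : dl (∅ : Finset V) y = 0 := by rw [dl, if_neg (fun h => h4 h.symm)]
        rw [aF, if_pos (hxS.mpr h3), if_pos (hyS.mpr h4), h6, h7]
        linear_combination -hτ0' - Z x y * hgdef
    have e2 : tr L (aF S' (-1) t c s) P = ∑ x ∈ L, ∑ y ∈ L, (g * ((Z x y + τ0) * P x y)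
        + (q - h) * (dl ∅ x * P x y) + (q - h) * (dl ∅ y * P x y)
        + (t + h - 2 * q) * (dl ∅ x * (dl ∅ y * P x y))) := by
      unfold tr
      apply Finset.sum_congr rfl; intro x hx
      apply Finset.sum_congr rfl; intro y hy
      rw [e1 x hx y hy]
      ring
    rw [e2]
    simp only [Finset.sum_add_distrib, ← Finset.mul_sum]
    have e3 : ∑ x ∈ L, dl ∅ x * ∑ y ∈ L, P x y = ∑ y ∈ L, P ∅ y :=
      sum_dl hL.empty (fun x => ∑ y ∈ L, P x y)
    have e4 : ∑ x ∈ L, ∑ y ∈ L, dl ∅ y * P x y = ∑ x ∈ L, P x ∅ := by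
      apply Finset.sum_congr rfl; intro x _
      exact sum_dl hL.empty (fun y => P x y)
    have e5 : ∑ x ∈ L, dl ∅ x * ∑ y ∈ L, dl ∅ y * P x y = P ∅ ∅ := by
      rw [sum_dl hL.empty (fun x => ∑ y ∈ L, dl ∅ y * P x y)]
      exact sum_dl hL.empty (fun y => P ∅ y)
    rw [e3, e4, e5]
    rfl
  rw [e, hP1] at h1
  have h3 := hP2 {∅} (by simpa using hL.empty)
  rw [Finset.sum_singleton] at h3
  have h4 : ∑ y ∈ L, (Z ∅ y + τ0) * P ∅ y = (1 + τ0) * ∑ y ∈ L, P ∅ y := by
    rw [Finset.mul_sum]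
    apply Finset.sum_congr rfl; intro y _
    rw [Z_empty_left]
  rw [h4] at h3
  have h5 := diag_le_pp (fun x y : Finset V => Z x y + τ0) (Finset.mem_singleton_self (∅ : Finset V))
  simp only [Z_empty_left] at h5
  have h6 : 1 ≤ ∑ y ∈ L, P ∅ y := by nlinarith
  have h7 : ∑ x ∈ L, P x ∅ = ∑ y ∈ L, P ∅ y := by
    apply Finset.sum_congr rfl; intro x hx
    exact hP.symm x hx ∅ hL.empty
  rw [h7] at h1
  have h8 := hP.diag_nonneg hL.empty
  have h9 := be_mono hττ L
  have h10 : g * be τ L ≤ g * pp L (fun x y => Z x y + τ0) :=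
    mul_le_mul_of_nonneg_left h9 hg.le
  nlinarith [mul_nonneg (sub_nonneg.mpr hqh) (sub_nonneg.mpr h6),
    mul_nonneg (sub_nonneg.mpr hth) h8]

/-- recursion for `A°_t` -/
theorem Ao_rec {v : V} {F : Finset (Finset V)} (hF : DC F) (hv : {v} ∈ F)
    {t tp τ tt c s Γ e κ g co q h : ℝ} (ht : 0 ≤ t) (hc : 0 ≤ c) (hs : 0 ≤ s)
    (hcs : c ^ 2 + s ^ 2 = 1) (hΓ0 : 0 ≤ Γ) (hΓ1 : Γ ≤ 1)
    (he : e = (c + s) * Γ - 1) (he0 : 0 ≤ e) (hκ : κ = c ^ 2 + 2 * c * s)
    (hgdef : g = 2 * c * s - s ^ 2) (hg : 0 < g) (hco : co = s ^ 2 * Γ ^ 2 - e ^ 2)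
    (hco0 : 0 ≤ co) (hq : q = (c - s) * t + s) (hh : h = g + t * (c - s) ^ 2)
    (hqh : h ≤ q) (hth : 2 * q ≤ t + h)
    (htp : tp * κ ≤ t * (1 + 2 * c * s)) (hτ : τ * g ≤ t * (c - s) ^ 2)
    (htt : tt * co ≤ e ^ 2 * t) (httτ : tt ≤ τ) :
    Ao t (del v F) + 2 * e * Ao t (lk v F) + (1 - Γ ^ 2) * κ * Ao tp (lk v F)
      + (g - co) * be τ (lk v F) + co * (1 + tt * (lk v F).card) + 2 * (q - h) ≤ Ao t F := by
  have hL := hF.lk hv
  have hΓ2 : Γ ^ 2 ≤ 1 := by nlinarith
  have h1 := apl1 (v := v) (S' := (del v F).erase ∅) (L := lk v F)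
    (fun x hx => not_mem_del x (Finset.mem_of_mem_erase hx)) not_mem_lk (-1) t c s Γ hcs
    hΓ2 (by linarith)
  rw [filter_del_erase, hF.split_erase v] at h1
  have e1 : ∀ S : Finset (Finset V), pp (S.erase ∅) (fun x y => -1 * Z x y + t) = Ao t S := by
    intro S
    apply pp_congr
    intros
    ring
  rw [e1, e1, e1, ← he] at h1
  have h2 := aF_lower (S' := (del v F).erase ∅) hL (by
    intro x hx
    rw [Finset.mem_erase]
    exact ⟨fun h => h.1, fun h => ⟨h, lk_subset_del v F hx⟩⟩) ht hgdef hg hτ hq hh hqh hth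
  have hκ0 : 0 ≤ κ := by rw [hκ]; positivity
  have h3 : κ * Ao tp (lk v F) ≤ pp ((lk v F).erase ∅)
      (fun x y => (c ^ 2 + 2 * c * s) * (-1 * Z x y + t) + s ^ 2 * t) := by
    have h4 : κ * Ao tp (lk v F) = pp ((lk v F).erase ∅) (fun x y => κ * (tp - Z x y)) := by
      rw [pp_smul _ hκ0]; rfl
    rw [h4]
    have h5 := pp_add_const (S := (lk v F).erase ∅) (fun x y => -(κ * Z x y)) htp
    refine le_trans (le_of_eq ?_) (h5.trans (le_of_eq ?_))
    · apply pp_congr
      intros
      ring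
    · apply pp_congr
      intro x _ y _
      rw [hκ]
      linear_combination (-t) * hcs
  have h4 : pp ((lk v F).erase ∅) (fun x y => -(e ^ 2 * (-1 * Z x y + t)
      - s ^ 2 * Γ ^ 2 * (-1 * Z x y))) ≤ co * (be τ (lk v F) - 1 - tt * (lk v F).card) := by
    calc pp ((lk v F).erase ∅) (fun x y => -(e ^ 2 * (-1 * Z x y + t)
          - s ^ 2 * Γ ^ 2 * (-1 * Z x y)))
        ≤ pp (lk v F) (fun x y => -(e ^ 2 * (-1 * Z x y + t)
          - s ^ 2 * Γ ^ 2 * (-1 * Z x y))) := pp_subset _ (Finset.erase_subset _ _)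
      _ = pp (lk v F) (fun x y => co * -Z x y + -(e ^ 2 * t)) := by
          apply pp_congr
          intro x _ y _
          rw [hco]; ring
      _ ≤ pp (lk v F) (fun x y => co * -Z x y + -(tt * co)) :=
          pp_add_const _ (by linarith)
      _ = pp (lk v F) (fun x y => co * -(Z x y + tt)) := by
          apply pp_congr
          intros
          ring
      _ = co * (be tt (lk v F) - 1 - tt * (lk v F).card) := by
          rw [pp_smul _ hco0, hL.pp_neg_Z]
      _ ≤ _ := by
          apply mul_le_mul_of_nonneg_left _ hco0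
          linarith [be_mono httτ (lk v F)]
  have h5 : 0 ≤ 1 - Γ ^ 2 := by linarith
  have h6 := mul_le_mul_of_nonneg_left h3 h5
  nlinarith

/-- the all-ones bound -/
theorem FL_O1 {v : V} {F : Finset (Finset V)} (hF : DC F) (hv : {v} ∈ F) (θ : ℝ) :
    FL θ (del v F) + ((lk v F).card - θ) ≤ FL θ F := by
  have hL := hF.lk hv
  unfold FL
  rw [← hF.split_erase v]
  have hd : Disjoint ((del v F).erase ∅) ((lk v F).image (insert v)) := by
    rw [Finset.disjoint_left]
    intro z hz hz2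
    obtain ⟨y, _, rfl⟩ := Finset.mem_image.mp hz2
    exact not_mem_del _ (Finset.mem_of_mem_erase hz) (Finset.mem_insert_self _ _)
  refine le_trans ?_ (pp_union _ hd)
  have h1 := le_pp (A := fun x y : Finset V => 1 - Z x y - θ * dl x y)
    (con_ones ((lk v F).image (insert v)))
  have hcard : ((lk v F).image (insert v)).card = (lk v F).card := by
    apply Finset.card_image_of_injOn
    intro x hx y hy hxy
    have h1 := congrArg (fun z => Finset.erase z v) hxy
    simpa [Finset.erase_insert (not_mem_lk x hx), Finset.erase_insert (not_mem_lk y hy)] using h1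
  have hpos : (0 : ℝ) < (lk v F).card := by
    exact_mod_cast Finset.card_pos.mpr ⟨∅, hL.empty⟩
  have h2 : tr ((lk v F).image (insert v)) (fun x y => 1 - Z x y - θ * dl x y)
      (fun _ _ => 1 / (((lk v F).image (insert v)).card : ℝ)) = (lk v F).card - θ := by
    rw [hcard]
    set T := (lk v F).image (insert v) with hT
    have h3 : ∀ x ∈ T, ∑ y ∈ T, (1 - Z x y - θ * dl x y) * (1 / ((lk v F).card : ℝ))
        = 1 - θ / (lk v F).card := by
      intro x hx
      have h4 : ∀ y ∈ T, (1 - Z x y - θ * dl x y) * (1 / ((lk v F).card : ℝ))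
          = 1 / ((lk v F).card : ℝ) - dl x y * (θ / (lk v F).card) := by
        intro y hy
        obtain ⟨x', _, rfl⟩ := Finset.mem_image.mp hx
        obtain ⟨y', _, rfl⟩ := Finset.mem_image.mp hy
        rw [Z_ins_both]
        ring
      rw [Finset.sum_congr rfl h4, Finset.sum_sub_distrib, sum_dl hx (fun _ => θ / _),
        Finset.sum_const, hcard, nsmul_eq_mul]
      field_simp
    unfold tr
    rw [Finset.sum_congr rfl h3, Finset.sum_const, hcard, nsmul_eq_mul]
    field_simp
  rw [h2] at h1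
  linarith

theorem FL_mono {v : V} {F : Finset (Finset V)} (hF : DC F) (θ : ℝ) :
    FL θ (del v F) ≤ FL θ F := by
  unfold FL
  rw [← hF.split_erase v]
  exact pp_subset _ Finset.subset_union_left

theorem FL_zero (F : Finset (Finset V)) : FL 0 F = Ao 1 F := by
  apply pp_congr
  intros
  ring

/-- rotated peel with a threshold -/
theorem FL_rot {v : V} {F : Finset (Finset V)} (hF : DC F) (θ c s Γ : ℝ)
    (hθ : 0 ≤ θ) (hcs : c ^ 2 + s ^ 2 = 1) (hΓ : Γ ^ 2 ≤ 1) (he : (c + s) * Γ = 1) :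
    FL θ (del v F)
      + (1 - Γ ^ 2) * pp ((lk v F).erase ∅) (fun x y => (c ^ 2 + 2 * c * s) * (1 - Z x y)
          + s ^ 2 - θ * dl x y)
      + pp (lk v F) (fun x y => aF ((del v F).erase ∅) (-1) 1 c s x y - θ * dl x y)
      ≤ FL θ F + s ^ 2 * Γ ^ 2 * pp ((lk v F).erase ∅) (fun x y => -Z x y) := by
  have h1 := apl2 (v := v) (S' := (del v F).erase ∅) (L := lk v F)
    (fun x hx => not_mem_del x (Finset.mem_of_mem_erase hx)) not_mem_lk (-1) 1 θ c s Γ hθ hcs
    hΓ he
  rw [filter_del_erase, hF.split_erase v] at h1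
  have e1 : ∀ S : Finset (Finset V), pp (S.erase ∅) (fun x y => -1 * Z x y + 1 - θ * dl x y)
      = FL θ S := by
    intro S
    apply pp_congr
    intros
    ring
  have e2 : pp ((lk v F).erase ∅) (fun x y => (c ^ 2 + 2 * c * s) * (-1 * Z x y + 1)
          + s ^ 2 * 1 - θ * dl x y) = pp ((lk v F).erase ∅)
            (fun x y => (c ^ 2 + 2 * c * s) * (1 - Z x y) + s ^ 2 - θ * dl x y) := by
    apply pp_congr
    intros
    ring
  have e3 : pp ((lk v F).erase ∅) (fun x y => -1 * Z x y)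
      = pp ((lk v F).erase ∅) (fun x y => -Z x y) := by
    apply pp_congr
    intros
    ring
  rw [e1, e1, e2, e3] at h1
  exact h1

end Pool.Agent.Lib.MP_0ad4be_co.Full
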