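import Mathlib
import Pool.Agent.Lib.MP_0ad4be_co.Families

set_option autoImplicit false
set_option linter.unusedSectionVars false

namespace Pool.Agent.Lib.MP_0ad4be_co.Full

open Finset

variable {V : Type*} [DecidableEq V]

/-- number of odd sets -/
noncomputable def no (F : Finset (Finset V)) : ℝ := ((F.filter fun x => Odd x.card).card : ℝ)

/-- number of even sets (with the empty set if present) -/
noncomputable def ne (F : Finset (Finset V)) : ℝ := ((F.filter fun x => Even x.card).card : ℝ)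

def zeta (z x : Finset V) : ℝ := if z ⊆ x then 1 else 0

theorem zeta_empty (x : Finset V) : zeta ∅ x = 1 := by simp [zeta]

theorem DC.Z_eq {F : Finset (Finset V)} (h : DC F) {x y : Finset V} (hx : x ∈ F) :
    Z x y = ∑ z ∈ F, (-1 : ℝ) ^ z.card * (zeta z x * zeta z y) := by
  have h1 : ∀ z : Finset V, zeta z x * zeta z y = if z ∈ (x ∩ y).powerset then 1 else 0 := by
    intro z
    simp only [zeta, Finset.mem_powerset, Finset.subset_inter_iff]
    by_cases h1 : z ⊆ x <;> by_cases h2 : z ⊆ y <;> simp [h1, h2]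
  simp only [h1, mul_ite, mul_one, mul_zero]
  rw [Finset.sum_ite_mem]
  have h2 : F ∩ (x ∩ y).powerset = (x ∩ y).powerset := by
    apply Finset.inter_eq_right.mpr
    intro z hz
    exact h.down x hx z ((Finset.mem_powerset.mp hz).trans Finset.inter_subset_left)
  rw [h2]
  have h3 := Finset.sum_powerset_neg_one_pow_card (x := x ∩ y)
  have h4 : (∑ m ∈ (x ∩ y).powerset, (-1 : ℝ) ^ m.card) = if x ∩ y = ∅ then 1 else 0 := by
    have := congrArg (fun n : ℤ => (n : ℝ)) h3
    push_cast at this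
    rw [this]
  rw [h4, Z]
  simp only [Finset.disjoint_iff_inter_eq_empty]

theorem DC.qf_Z {F S : Finset (Finset V)} (h : DC F) (hS : S ⊆ F) (w : Finset V → ℝ) :
    ∑ x ∈ S, ∑ y ∈ S, Z x y * (w x * w y)
      = (∑ x ∈ S, w x) ^ 2
        + ∑ z ∈ (F.erase ∅).filter (fun x => Even x.card), (∑ x ∈ S, zeta z x * w x) ^ 2
        - ∑ z ∈ F.filter (fun x => Odd x.card), (∑ x ∈ S, zeta z x * w x) ^ 2 := by
  have h1 : ∑ x ∈ S, ∑ y ∈ S, Z x y * (w x * w y)
      = ∑ z ∈ F, (-1 : ℝ) ^ z.card * (∑ x ∈ S, zeta z x * w x) ^ 2 := by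
    symm
    calc ∑ z ∈ F, (-1 : ℝ) ^ z.card * (∑ x ∈ S, zeta z x * w x) ^ 2
        = ∑ z ∈ F, ∑ x ∈ S, ∑ y ∈ S, ((-1 : ℝ) ^ z.card * (zeta z x * zeta z y)) * (w x * w y) := by
          apply Finset.sum_congr rfl; intro z _
          rw [sq, Finset.sum_mul_sum, Finset.mul_sum]
          apply Finset.sum_congr rfl; intro x _
          rw [Finset.mul_sum]
          apply Finset.sum_congr rfl; intro y _
          ring
      _ = _ := by
          rw [Finset.sum_comm]
          apply Finset.sum_congr rfl; intro x hx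
          rw [Finset.sum_comm]
          apply Finset.sum_congr rfl; intro y _
          rw [h.Z_eq (hS hx), Finset.sum_mul]
  have h2 : ∀ f : Finset V → ℝ, ∑ z ∈ F, (-1 : ℝ) ^ z.card * f z
      = f ∅ + ∑ z ∈ (F.erase ∅).filter (fun x => Even x.card), f z
        - ∑ z ∈ F.filter (fun x => Odd x.card), f z := by
    intro f
    rw [← Finset.sum_filter_add_sum_filter_not F (fun x => Even x.card)
      (fun z => (-1 : ℝ) ^ z.card * f z)]
    have h3 : ∑ z ∈ F.filter (fun x => Even x.card), (-1 : ℝ) ^ z.card * f z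
        = ∑ z ∈ F.filter (fun x => Even x.card), f z := by
      apply Finset.sum_congr rfl; intro z hz
      rw [(Finset.mem_filter.mp hz).2.neg_one_pow, one_mul]
    have h4 : ∑ z ∈ F.filter (fun x => ¬ Even x.card), (-1 : ℝ) ^ z.card * f z
        = -∑ z ∈ F.filter (fun x => Odd x.card), f z := by
      rw [← Finset.sum_neg_distrib]
      apply Finset.sum_congr
      · ext z
        simp only [Finset.mem_filter, Nat.not_even_iff_odd]
      · intro z hz
        have h5 := (Finset.mem_filter.mp hz).2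
        rw [h5.neg_one_pow]
        ring
    rw [h3, h4]
    have h5 : F.filter (fun x => Even x.card)
        = insert ∅ ((F.erase ∅).filter (fun x => Even x.card)) := by
      ext z
      simp only [Finset.mem_filter, Finset.mem_insert, Finset.mem_erase]
      constructor
      · rintro ⟨h6, h7⟩
        by_cases hz : z = ∅
        · exact Or.inl hz
        · exact Or.inr ⟨⟨hz, h6⟩, h7⟩
      · rintro (rfl | ⟨⟨_, h6⟩, h7⟩)
        · exact ⟨h.empty, by simp⟩
        · exact ⟨h6, h7⟩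
    rw [h5, Finset.sum_insert (by simp)]
    ring
  rw [h1, h2]
  simp only [zeta_empty, one_mul]

theorem qf_one (S : Finset (Finset V)) (w : Finset V → ℝ) :
    ∑ x ∈ S, ∑ y ∈ S, (w x * w y) = (∑ x ∈ S, w x) ^ 2 := by
  rw [sq, Finset.sum_mul_sum]

theorem qf_affine (S : Finset (Finset V)) (a b : ℝ) (w : Finset V → ℝ) :
    ∑ x ∈ S, ∑ y ∈ S, (a * (1 - Z x y) + b) * (w x * w y)
      = (a + b) * (∑ x ∈ S, w x) ^ 2 - a * ∑ x ∈ S, ∑ y ∈ S, Z x y * (w x * w y) := by
  rw [← qf_one S w]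
  simp only [Finset.mul_sum, ← Finset.sum_sub_distrib]
  apply Finset.sum_congr rfl; intro x _
  apply Finset.sum_congr rfl; intro y _
  ring

theorem inertia_L {F : Finset (Finset V)} (h : DC F) {θ : ℝ} (hθ : 0 ≤ θ) :
    Ao 1 F - θ * no F ≤ FL θ F := by
  have h1 := inertia (F.erase ∅) (fun x y : Finset V => 1 - Z x y)
    (by intro x _ y _; rw [Z_comm]) (F.filter fun x => Odd x.card) zeta
    (by
      intro w
      have h2 := qf_affine (F.erase ∅) 1 0 w
      simp only [one_mul, add_zero] at h2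
      rw [h2, h.qf_Z (Finset.erase_subset _ _)]
      have h3 : 0 ≤ ∑ z ∈ (F.erase ∅).filter (fun x => Even x.card),
          (∑ x ∈ F.erase ∅, zeta z x * w x) ^ 2 := by positivity
      linarith) hθ
  exact h1

theorem inertia_negL {F : Finset (Finset V)} (h : DC F) {θ : ℝ} (hθ : 0 ≤ θ) :
    pp (F.erase ∅) (fun x y => -(1 - Z x y)) - θ * ne (F.erase ∅)
      ≤ pp (F.erase ∅) (fun x y => -(1 - Z x y) - θ * dl x y) := by
  have h1 := inertia (F.erase ∅) (fun x y : Finset V => -(1 - Z x y))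
    (by intro x _ y _; rw [Z_comm]) ((F.erase ∅).filter fun x => Even x.card) zeta
    (by
      intro w
      have h2 := qf_affine (F.erase ∅) 1 0 w
      simp only [one_mul, add_zero] at h2
      simp only [neg_mul, Finset.sum_neg_distrib]
      rw [h2, h.qf_Z (Finset.erase_subset _ _)]
      have h3 : 0 ≤ ∑ z ∈ F.filter (fun x => Odd x.card),
          (∑ x ∈ F.erase ∅, zeta z x * w x) ^ 2 := by positivity
      linarith) hθ
  exact h1

theorem inertia_b {L : Finset (Finset V)} (h : DC L) {θ κ s : ℝ} (hθ : 0 ≤ θ) (hκ : 0 ≤ κ) :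
    pp (L.erase ∅) (fun x y => κ * (1 - Z x y) + s ^ 2) - θ * (1 + no L)
      ≤ pp (L.erase ∅) (fun x y => κ * (1 - Z x y) + s ^ 2 - θ * dl x y) := by
  have hne : ∅ ∉ L.filter fun x => Odd x.card := by simp
  have h1 := inertia (L.erase ∅) (fun x y : Finset V => κ * (1 - Z x y) + s ^ 2)
    (by intro x _ y _; rw [Z_comm]) (insert ∅ (L.filter fun x => Odd x.card))
    (fun z x => if z = ∅ then s else √κ * zeta z x)
    (by
      intro w
      rw [qf_affine, h.qf_Z (Finset.erase_subset _ _), Finset.sum_insert hne]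
      have h3 : 0 ≤ ∑ z ∈ (L.erase ∅).filter (fun x => Even x.card),
          (∑ x ∈ L.erase ∅, zeta z x * w x) ^ 2 := by positivity
      have h4 : ∑ z ∈ L.filter (fun x => Odd x.card),
          (∑ x ∈ L.erase ∅, (if z = ∅ then s else √κ * zeta z x) * w x) ^ 2
          = κ * ∑ z ∈ L.filter (fun x => Odd x.card),
          (∑ x ∈ L.erase ∅, zeta z x * w x) ^ 2 := by
        rw [Finset.mul_sum]
        apply Finset.sum_congr rfl; intro z hz
        have hz0 : z ≠ ∅ := by rintro rfl; exact hne hz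
        simp only [if_neg hz0]
        have h5 : ∑ x ∈ L.erase ∅, √κ * zeta z x * w x = √κ * ∑ x ∈ L.erase ∅, zeta z x * w x := by
          rw [Finset.mul_sum]
          apply Finset.sum_congr rfl; intro x _
          ring
        rw [h5, mul_pow, Real.sq_sqrt hκ]
      rw [h4]
      simp only [if_true]
      rw [← Finset.mul_sum]
      nlinarith) hθ
  rw [Finset.card_insert_of_notMem hne] at h1
  push_cast at h1
  rw [no]
  linarith

/-- `aF` at `t = 1` on the link -/
theorem aF_one {S' L : Finset (Finset V)} (hS : ∀ x ∈ L, x ∈ S' ↔ x ≠ ∅) {c s : ℝ}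
    {x y : Finset V} (hx : x ∈ L) (hy : y ∈ L) :
    aF S' (-1) 1 c s x y = (if x = ∅ then 1 else c) * (if y = ∅ then 1 else c)
      + (2 * c * s - s ^ 2) * (Z x y - 1) := by
  have hxS := hS x hx
  have hyS := hS y hy
  by_cases h3 : x = ∅ <;> by_cases h4 : y = ∅
  · subst h3; subst h4
    have : ∅ ∉ S' := fun h5 => (hxS.mp h5) rfl
    rw [aF, if_neg this, if_neg this, Z_empty_left]
    simp
  · subst h3
    have h5 : ∅ ∉ S' := fun h5 => (hxS.mp h5) rfl
    rw [aF, if_neg h5, if_pos (hyS.mpr h4), Z_empty_left, if_pos rfl, if_neg h4]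
    ring
  · subst h4
    have h5 : ∅ ∉ S' := fun h5 => (hyS.mp h5) rfl
    rw [aF, if_pos (hxS.mpr h3), if_neg h5, Z_empty_right, if_pos rfl, if_neg h3]
    ring
  · rw [aF, if_pos (hxS.mpr h3), if_pos (hyS.mpr h4), if_neg h3, if_neg h4]
    ring

theorem inertia_a {S' L : Finset (Finset V)} (h : DC L) (hS : ∀ x ∈ L, x ∈ S' ↔ x ≠ ∅)
    {θ c s : ℝ} (hθ : 0 ≤ θ) (hg : 0 ≤ 2 * c * s - s ^ 2) :
    pp L (aF S' (-1) 1 c s) - θ * ne L
      ≤ pp L (fun x y => aF S' (-1) 1 c s x y - θ * dl x y) := by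
  have hfil : L.filter (fun x => Even x.card)
        = insert ∅ ((L.erase ∅).filter (fun x => Even x.card)) := by
    ext z
    simp only [Finset.mem_filter, Finset.mem_insert, Finset.mem_erase]
    constructor
    · rintro ⟨h6, h7⟩
      by_cases hz : z = ∅
      · exact Or.inl hz
      · exact Or.inr ⟨⟨hz, h6⟩, h7⟩
    · rintro (rfl | ⟨⟨_, h6⟩, h7⟩)
      · exact ⟨h.empty, by simp⟩
      · exact ⟨h6, h7⟩
  have hne : ∅ ∉ (L.erase ∅).filter fun x => Even x.card := by simp
  have h1 := inertia L (aF S' (-1) 1 c s)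
    (by intro x _ y _; rw [aF_comm]) (L.filter fun x => Even x.card)
    (fun z x => if z = ∅ then (if x = ∅ then 1 else c) else √(2 * c * s - s ^ 2) * zeta z x)
    (by
      intro w
      have h2 : ∑ x ∈ L, ∑ y ∈ L, aF S' (-1) 1 c s x y * (w x * w y)
          = (∑ x ∈ L, (if x = ∅ then 1 else c) * w x) ^ 2
            + (2 * c * s - s ^ 2) * (∑ x ∈ L, ∑ y ∈ L, Z x y * (w x * w y)
              - (∑ x ∈ L, w x) ^ 2) := by
        rw [← qf_one L w, sq, Finset.sum_mul_sum, ← Finset.sum_sub_distrib, Finset.mul_sum,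
          ← Finset.sum_add_distrib]
        apply Finset.sum_congr rfl; intro x hx
        rw [← Finset.sum_sub_distrib, Finset.mul_sum, ← Finset.sum_add_distrib]
        apply Finset.sum_congr rfl; intro y hy
        rw [aF_one hS hx hy]
        ring
      rw [h2, h.qf_Z (Finset.Subset.refl L), hfil, Finset.sum_insert hne]
      have h3 : 0 ≤ ∑ z ∈ L.filter (fun x => Odd x.card),
          (∑ x ∈ L, zeta z x * w x) ^ 2 := by positivity
      have h4 : ∑ z ∈ (L.erase ∅).filter (fun x => Even x.card),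
          (∑ x ∈ L, (if z = ∅ then (if x = ∅ then 1 else c)
            else √(2 * c * s - s ^ 2) * zeta z x) * w x) ^ 2
          = (2 * c * s - s ^ 2) * ∑ z ∈ (L.erase ∅).filter (fun x => Even x.card),
          (∑ x ∈ L, zeta z x * w x) ^ 2 := by
        rw [Finset.mul_sum]
        apply Finset.sum_congr rfl; intro z hz
        have hz0 : z ≠ ∅ := by rintro rfl; exact hne hz
        simp only [if_neg hz0]
        have h5 : ∑ x ∈ L, √(2 * c * s - s ^ 2) * zeta z x * w x
            = √(2 * c * s - s ^ 2) * ∑ x ∈ L, zeta z x * w x := by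
          rw [Finset.mul_sum]
          apply Finset.sum_congr rfl; intro x _
          ring
        rw [h5, mul_pow, Real.sq_sqrt hg]
      rw [h4]
      simp only [if_true]
      nlinarith) hθ
  exact h1

/-- number of sets disjoint from a given one -/
theorem DC.disj_count {L : Finset (Finset V)} (h : DC L) (x : Finset V) :
    (L.card : ℝ) * (1 / 2) ^ x.card ≤ ∑ y ∈ L, Z x y := by
  have h1 : ∑ y ∈ L, Z x y = ((L.filter fun y => Disjoint x y).card : ℝ) := by
    simp only [Z, Finset.sum_ite, Finset.sum_const, nsmul_eq_mul, mul_one, mul_zero, add_zero]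
  have h2 : L.image (fun y => y \ x) ⊆ L.filter fun y => Disjoint x y := by
    intro z hz
    obtain ⟨y, hy, rfl⟩ := Finset.mem_image.mp hz
    rw [Finset.mem_filter]
    exact ⟨h.down y hy _ Finset.sdiff_subset, Finset.disjoint_sdiff⟩
  have h3 : L.card ≤ 2 ^ x.card * (L.image (fun y => y \ x)).card := by
    apply Finset.card_le_mul_card_image
    intro z hz
    have h4 : (L.filter fun y => y \ x = z).card ≤ (x.powerset).card := by
      apply Finset.card_le_card_of_injOn (fun y => y ∩ x)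
      · intro y _
        simp
      · intro y hy y' hy' hyy
        have e1 : y \ x = z := (Finset.mem_filter.mp hy).2
        have e2 : y' \ x = z := (Finset.mem_filter.mp hy').2
        have e3 : y ∩ x = y' ∩ x := hyy
        rw [← Finset.sdiff_union_inter y x, ← Finset.sdiff_union_inter y' x, e1, e2, e3]
    rwa [Finset.card_powerset] at h4
  have h4 : L.card ≤ 2 ^ x.card * (L.filter fun y => Disjoint x y).card :=
    h3.trans (Nat.mul_le_mul_left _ (Finset.card_le_card h2))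
  rw [h1]
  have h5 : (L.card : ℝ) ≤ 2 ^ x.card * ((L.filter fun y => Disjoint x y).card : ℝ) := by
    exact_mod_cast h4
  rw [one_div, inv_pow, ← div_eq_mul_inv, div_le_iff₀ (by positivity)]
  linarith

theorem hSlink (v : V) (F : Finset (Finset V)) :
    ∀ x ∈ lk v F, x ∈ (del v F).erase ∅ ↔ x ≠ ∅ := by
  intro x hx
  rw [Finset.mem_erase]
  exact ⟨fun h => h.1, fun h => ⟨h, lk_subset_del v F hx⟩⟩

/-- Option 2: rotate, and use the spectral lower bound on the link. -/
theorem FL_O2 {v : V} {F : Finset (Finset V)} (hF : DC F) (hv : {v} ∈ F)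
    {θ c s Γ κ g η tp τ : ℝ} (hθ : 0 ≤ θ) (hc : 0 ≤ c) (hs : 0 ≤ s)
    (hcs : c ^ 2 + s ^ 2 = 1) (hΓ0 : 0 ≤ Γ) (hΓ : Γ ≤ 1) (he : (c + s) * Γ = 1)
    (hκ : κ = c ^ 2 + 2 * c * s) (hgdef : g = 2 * c * s - s ^ 2) (hg : 0 < g)
    (hη : η = s ^ 2 * Γ ^ 2) (hc1 : c ^ 2 ≤ c) (hc2 : 2 * c ≤ 1 + c ^ 2)
    (htp : tp * κ ≤ 1 + 2 * c * s) (hτ : τ * g ≤ (c - s) ^ 2) (hτ0 : 0 ≤ τ) :
    FL θ (del v F) + (1 - Γ ^ 2) * κ * Ao tp (lk v F) + (g - η) * be τ (lk v F) + η
      + 2 * (c - c ^ 2) - θ * (ne (lk v F) + (1 - Γ ^ 2) * (1 + no (lk v F))) ≤ FL θ F := by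
  have hL := hF.lk hv
  have hΓ2 : Γ ^ 2 ≤ 1 := by nlinarith
  have h1 := FL_rot (v := v) hF θ c s Γ hθ hcs hΓ2 he
  have hκ0 : 0 ≤ κ := by rw [hκ]; positivity
  rw [← hκ] at h1
  have h2 := inertia_b hL (s := s) hθ hκ0
  have h3 := inertia_a hL (hSlink v F) (c := c) (s := s) hθ (by rw [← hgdef]; exact hg.le)
  have h4 := aF_lower (S' := (del v F).erase ∅) hL (hSlink v F) (t := 1) (τ := τ) (c := c)
    (s := s) (g := g) (q := c) (h := c ^ 2) (by norm_num) hgdef hg (by linarith) (by ring)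
    (by rw [hgdef]; ring) hc1 (by linarith)
  have h5 : κ * Ao tp (lk v F) ≤ pp ((lk v F).erase ∅) (fun x y => κ * (1 - Z x y) + s ^ 2) := by
    have h4 : κ * Ao tp (lk v F) = pp ((lk v F).erase ∅) (fun x y => κ * (tp - Z x y)) := by
      rw [pp_smul _ hκ0]; rfl
    rw [h4]
    have h5 := pp_add_const (S := (lk v F).erase ∅) (fun x y => -(κ * Z x y)) htp
    refine le_trans (le_of_eq ?_) (h5.trans (le_of_eq ?_))
    · apply pp_congr
      intros
      ring
    · apply pp_congr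
      intro x _ y _
      rw [hκ]
      linear_combination (-1 : ℝ) * hcs
  have h6 : pp ((lk v F).erase ∅) (fun x y => -Z x y) ≤ be τ (lk v F) - 1 := by
    have h7 := pp_subset (fun x y : Finset V => -Z x y) (Finset.erase_subset ∅ (lk v F))
    have h8 := hL.pp_neg_Z 0
    simp only [add_zero, zero_mul, sub_zero] at h8
    rw [h8] at h7
    linarith [be_mono hτ0 (lk v F)]
  have h7 : 0 ≤ 1 - Γ ^ 2 := by linarith
  have h8 : 0 ≤ s ^ 2 * Γ ^ 2 := by positivity
  have h9 := mul_le_mul_of_nonneg_left h2 h7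
  have h10 := mul_le_mul_of_nonneg_left h5 h7
  have h11 := mul_le_mul_of_nonneg_left h6 h8
  rw [hη]
  nlinarith

/-- Option 3: rotate, and use the all-ones vector on the link. -/
theorem FL_O3 {v : V} {F : Finset (Finset V)} (hF : DC F) (hv : {v} ∈ F)
    {θ c s Γ g : ℝ} (hθ : 0 ≤ θ) (hc : 0 ≤ c) (hs : 0 ≤ s)
    (hcs : c ^ 2 + s ^ 2 = 1) (hΓ0 : 0 ≤ Γ) (hΓ : Γ ≤ 1) (he : (c + s) * Γ = 1)
    (hgdef : g = 2 * c * s - s ^ 2) (hg : 0 < g) :
    FL θ (del v F) + g * Ao 1 (lk v F)
      + ∑ x ∈ lk v F, ((c - s) ^ 2 + g * (1 / 2) ^ x.card) + 2 * (c - c ^ 2)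
      - θ * (1 + (1 - Γ ^ 2) * (1 + no (lk v F))) ≤ FL θ F := by
  have hL := hF.lk hv
  have hΓ2 : Γ ^ 2 ≤ 1 := by nlinarith
  have h1 := FL_rot (v := v) hF θ c s Γ hθ hcs hΓ2 he
  set κ := c ^ 2 + 2 * c * s with hκ
  have hκ0 : 0 ≤ κ := by rw [hκ]; positivity
  have h2 := inertia_b hL (s := s) hθ hκ0
  have h5 : κ * Ao 1 (lk v F) ≤ pp ((lk v F).erase ∅) (fun x y => κ * (1 - Z x y) + s ^ 2) := by
    have h4 : κ * Ao 1 (lk v F) = pp ((lk v F).erase ∅) (fun x y => κ * (1 - Z x y)) := by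
      rw [pp_smul _ hκ0]; rfl
    rw [h4]
    have h5 := pp_add_const (S := (lk v F).erase ∅) (fun x y => κ * (1 - Z x y))
      (c := 0) (d := s ^ 2) (by positivity)
    simpa using h5
  have h6 : pp ((lk v F).erase ∅) (fun x y => -Z x y) ≤ Ao 1 (lk v F) := by
    have h5 := pp_add_const (S := (lk v F).erase ∅) (fun x y => -Z x y)
      (c := 0) (d := 1) (by norm_num)
    refine le_trans (le_of_eq ?_) (h5.trans (le_of_eq ?_))
    · apply pp_congr
      intros
      ring
    · apply pp_congr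
      intros
      ring
  have h7 : 0 ≤ 1 - Γ ^ 2 := by linarith
  have h8 : 0 ≤ s ^ 2 * Γ ^ 2 := by positivity
  have h9 := mul_le_mul_of_nonneg_left h2 h7
  have h10 := mul_le_mul_of_nonneg_left h5 h7
  have h11 := mul_le_mul_of_nonneg_left h6 h8
  -- all-ones vector
  set u : ℝ := ((lk v F).card : ℝ) with hu
  have hpos : 0 < u := by
    rw [hu]
    exact_mod_cast Finset.card_pos.mpr ⟨∅, hL.empty⟩
  have h12 := le_pp (A := fun x y => aF ((del v F).erase ∅) (-1) 1 c s x y - θ * dl x y)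
    (con_ones (lk v F))
  have h13 : tr (lk v F) (fun x y => aF ((del v F).erase ∅) (-1) 1 c s x y - θ * dl x y)
      (fun _ _ => 1 / ((lk v F).card : ℝ))
      = ((1 + c * (u - 1)) ^ 2 - g * u ^ 2 + g * ∑ x ∈ lk v F, ∑ y ∈ lk v F, Z x y) / u - θ := by
    have e1 : ∀ x ∈ lk v F, ∑ y ∈ lk v F, (aF ((del v F).erase ∅) (-1) 1 c s x y - θ * dl x y)
        * (1 / ((lk v F).card : ℝ)) = ((if x = ∅ then 1 else c) * (1 + c * (u - 1))
          - g * u + g * ∑ y ∈ lk v F, Z x y) / u - θ / u := by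
      intro x hx
      have e2 : ∀ y ∈ lk v F, (aF ((del v F).erase ∅) (-1) 1 c s x y - θ * dl x y)
          * (1 / ((lk v F).card : ℝ)) = (if x = ∅ then 1 else c) * (if y = ∅ then 1 else c) / u
            - g / u + (g * Z x y) / u - dl x y * (θ / u) := by
        intro y hy
        rw [aF_one (hSlink v F) hx hy, ← hgdef, ← hu]
        ring
      rw [Finset.sum_congr rfl e2]
      rw [Finset.sum_sub_distrib, sum_dl hx (fun _ => θ / u), Finset.sum_add_distrib,
        Finset.sum_sub_distrib, ← Finset.sum_div, ← Finset.mul_sum, Finset.sum_const,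
        ← Finset.sum_div, ← Finset.mul_sum, nsmul_eq_mul, ← hu]
      have e3 : ∑ y ∈ lk v F, (if y = ∅ then (1 : ℝ) else c) = 1 + c * (u - 1) := by
        rw [← Finset.add_sum_erase _ _ hL.empty, if_pos rfl]
        have e4 : ∑ y ∈ (lk v F).erase ∅, (if y = ∅ then (1 : ℝ) else c)
            = ∑ y ∈ (lk v F).erase ∅, c :=
          Finset.sum_congr rfl fun y hy => if_neg (Finset.ne_of_mem_erase hy)
        rw [e4, Finset.sum_const, nsmul_eq_mul, Finset.card_erase_of_mem hL.empty,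
          Nat.cast_sub (Finset.card_pos.mpr ⟨∅, hL.empty⟩), ← hu]
        push_cast
        ring
      rw [e3]
      field_simp
    unfold tr
    rw [Finset.sum_congr rfl e1, Finset.sum_sub_distrib, ← Finset.sum_div, Finset.sum_add_distrib,
      Finset.sum_sub_distrib, ← Finset.sum_mul, Finset.sum_const, Finset.sum_const,
      ← Finset.mul_sum, nsmul_eq_mul, nsmul_eq_mul, ← hu]
    have e3 : ∑ y ∈ lk v F, (if y = ∅ then (1 : ℝ) else c) = 1 + c * (u - 1) := by
      rw [← Finset.add_sum_erase _ _ hL.empty, if_pos rfl]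
      have e4 : ∑ y ∈ (lk v F).erase ∅, (if y = ∅ then (1 : ℝ) else c)
          = ∑ y ∈ (lk v F).erase ∅, c :=
        Finset.sum_congr rfl fun y hy => if_neg (Finset.ne_of_mem_erase hy)
      rw [e4, Finset.sum_const, nsmul_eq_mul, Finset.card_erase_of_mem hL.empty,
        Nat.cast_sub (Finset.card_pos.mpr ⟨∅, hL.empty⟩), ← hu]
      push_cast
      ring
    rw [e3]
    field_simp
  rw [h13] at h12
  have h14 : u * ∑ x ∈ lk v F, (1 / 2 : ℝ) ^ x.card ≤ ∑ x ∈ lk v F, ∑ y ∈ lk v F, Z x y := by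
    rw [Finset.mul_sum]
    exact Finset.sum_le_sum fun x _ => hL.disj_count x
  have h15 : ∑ x ∈ lk v F, ((c - s) ^ 2 + g * (1 / 2 : ℝ) ^ x.card) + 2 * (c - c ^ 2)
      ≤ ((1 + c * (u - 1)) ^ 2 - g * u ^ 2 + g * ∑ x ∈ lk v F, ∑ y ∈ lk v F, Z x y) / u := by
    rw [le_div_iff₀ hpos, Finset.sum_add_distrib, ← Finset.mul_sum, Finset.sum_const,
      nsmul_eq_mul, ← hu]
    have h16 := mul_le_mul_of_nonneg_left h14 hg.le
    have h17 : (c - s) ^ 2 = c ^ 2 - g := by rw [hgdef]; ring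
    rw [h17]
    nlinarith [sq_nonneg (1 - c)]
  have h18 : (1 - Γ ^ 2) * κ - s ^ 2 * Γ ^ 2 = g := by
    have : Γ ^ 2 * (1 + 2 * c * s) = 1 := by
      have : Γ ^ 2 * (c + s) ^ 2 = 1 := by
        rw [← mul_pow, mul_comm, he]; norm_num
      linear_combination this - Γ ^ 2 * hcs
    rw [hκ, hgdef]
    linear_combination (-1 : ℝ) * this + (1 - Γ ^ 2) * hcs
  have h19 : (1 - Γ ^ 2) * (κ * Ao 1 (lk v F)) - s ^ 2 * Γ ^ 2 * Ao 1 (lk v F)
      = g * Ao 1 (lk v F) := by
    rw [← h18]; ring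
  linarith

end Pool.Agent.Lib.MP_0ad4be_co.Full
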