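import Mathlib
import Pool.Agent.Lib.MP_0ad4be_co.Inertia

set_option autoImplicit false
set_option linter.unusedSectionVars false

namespace Pool.Agent.Lib.MP_0ad4be_co.Full

open Finset

variable {V : Type*} [DecidableEq V]

/-- a table with a linear tail -/
def tb (a0 a1 a2 a3 a4 a5 a6 a7 a8 b : ℝ) : ℕ → ℝ
  | 0 => a0
  | 1 => a1
  | 2 => a2
  | 3 => a3
  | 4 => a4
  | 5 => a5
  | 6 => a6
  | 7 => a7
  | (n + 8) => a8 + b * n

noncomputable def q0 : ℕ → ℝ := tb (1) (309 / 500) (3819 / 5000) (118 / 125) (2917 / 2500) (14421 / 10000) (1114 / 625) (2203 / 1000) (27229 / 10000) (3 / 5)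
noncomputable def qt0 : ℕ → ℝ := tb (11451 / 10000) (291 / 400) (1693 / 2000) (629 / 625) (12139 / 10000) (14777 / 10000) (18093 / 10000) (22233 / 10000) (13691 / 5000) (3 / 5)
noncomputable def qt1 : ℕ → ℝ := tb (3099 / 2500) (1997 / 2500) (9003 / 10000) (1047 / 1000) (2489 / 2000) (938 / 625) (18267 / 10000) (4473 / 2000) (13741 / 5000) (3 / 5)
noncomputable def qt2 : ℕ → ℝ := tb (7439 / 5000) (9861 / 10000) (651 / 625) (11537 / 10000) (53 / 40) (3123 / 2000) (749 / 400) (2271 / 1000) (13871 / 5000) (3 / 5)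
noncomputable def qt3 : ℕ → ℝ := tb (1083 / 500) (749 / 500) (357 / 250) (14453 / 10000) (15451 / 10000) (17277 / 10000) (999 / 500) (11829 / 5000) (14229 / 5000) (3 / 5)
noncomputable def p0 : ℕ → ℝ := tb (0) (9523 / 10000) (11739 / 10000) (879 / 625) (2067 / 1250) (383 / 200) (11033 / 5000) (25561 / 10000) (29931 / 10000) (11 / 20)
noncomputable def p1 : ℕ → ℝ := tb (0) (5427 / 5000) (6577 / 5000) (77 / 50) (17543 / 10000) (19739 / 10000) (11139 / 5000) (1591 / 625) (14773 / 5000) (13 / 25)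
noncomputable def p2 : ℕ → ℝ := tb (0) (12517 / 10000) (14807 / 10000) (16407 / 10000) (17667 / 10000) (19057 / 10000) (20921 / 10000) (2937 / 1250) (3371 / 1250) (9 / 20)
noncomputable def p3 : ℕ → ℝ := tb (0) (14547 / 10000) (15871 / 10000) (16099 / 10000) (1017 / 625) (16799 / 10000) (357 / 200) (9759 / 5000) (10943 / 5000) (3 / 10)
noncomputable def p4 : ℕ → ℝ := tb (0) (1641 / 1000) (1641 / 1000) (1641 / 1000) (1641 / 1000) (1641 / 1000) (1641 / 1000) (1641 / 1000) (1641 / 1000) (0)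

theorem card_ins {v : V} {x : Finset V} (h : v ∉ x) : (insert v x).card = x.card + 1 :=
  Finset.card_insert_of_notMem h

/-- comparison of sums over a family, the empty set being treated separately -/
theorem DC.sum_le_sum {L : Finset (Finset V)} (hL : DC L) {f h : ℕ → ℝ} {C : ℝ}
    (h0 : f 0 ≤ h 0 + C) (hs : ∀ s, f (s + 1) ≤ h (s + 1)) :
    ∑ x ∈ L, f x.card ≤ ∑ x ∈ L, h x.card + C := by
  rw [← Finset.add_sum_erase _ _ hL.empty, ← Finset.add_sum_erase L (fun x => h x.card) hL.empty]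
  have h1 : ∑ x ∈ L.erase ∅, f x.card ≤ ∑ x ∈ L.erase ∅, h x.card := by
    apply Finset.sum_le_sum
    intro x hx
    obtain ⟨k, hk⟩ : ∃ k, x.card = k + 1 :=
      ⟨x.card - 1, by
        have := Finset.card_pos.mpr (Finset.nonempty_iff_ne_empty.mpr (Finset.ne_of_mem_erase hx))
        omega⟩
    rw [hk]
    exact hs k
  simp only [Finset.card_empty]
  linarith

/-- additive lower bound for `β_t` -/
theorem be_add (t : ℝ) (ht : 0 ≤ t) (q0 q : ℕ → ℝ)
    (hq0 : ∀ F : Finset (Finset V), DC F → ∑ x ∈ F, q0 x.card ≤ be 0 F) (h0 : q 0 ≤ 1 + t)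
    (h1 : q 1 ≤ 40 / 53 * q 0 + 1352 / 2809 * q0 0 - 1736 / 2809)
    (h2 : ∀ s, q (s + 2) ≤ 40 / 53 * q (s + 1) + 1352 / 2809 * q0 (s + 1)) :
    ∀ F : Finset (Finset V), DC F → ∑ x ∈ F, q x.card ≤ be t F := by
  apply DC.induction
  · rw [Finset.sum_singleton, Finset.card_empty]
    have h3 := diag_le_pp (fun x y : Finset V => Z x y + t)
      (Finset.mem_singleton_self (∅ : Finset V))
    simp only [Z_empty_left] at h3
    exact h0.trans h3
  · intro F v hF hv ihd ihl
    have h3 := be_rec hF hv (t := t) (c := 45 / 53) (s := 28 / 53) ht (by norm_num) (by norm_num)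
      (by norm_num) (by norm_num) (by norm_num)
    have hL := hF.lk hv
    rw [hF.sum_split v]
    have h4 : ∑ x ∈ lk v F, q (insert v x).card = ∑ x ∈ lk v F, q (x.card + 1) := by
      apply Finset.sum_congr rfl; intro x hx
      rw [card_ins (not_mem_lk x hx)]
    rw [h4]
    have h5 := hL.sum_le_sum (f := fun s => q (s + 1))
      (h := fun s => 40 / 53 * q s + 1352 / 2809 * q0 s) (C := -(1736 / 2809))
      (by simp only [zero_add]; linarith) (fun s => h2 s)
    rw [Finset.sum_add_distrib, ← Finset.mul_sum, ← Finset.mul_sum] at h5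
    have h6 := hq0 _ hL
    norm_num at h3
    linarith

theorem be_add0 (q0 : ℕ → ℝ) (h0 : q0 0 ≤ 1)
    (h1 : q0 1 ≤ 3472 / 2809 * q0 0 - 1736 / 2809)
    (h2 : ∀ s, q0 (s + 2) ≤ 3472 / 2809 * q0 (s + 1)) :
    ∀ F : Finset (Finset V), DC F → ∑ x ∈ F, q0 x.card ≤ be 0 F := by
  apply DC.induction
  · rw [Finset.sum_singleton, Finset.card_empty]
    have h3 := diag_le_pp (fun x y : Finset V => Z x y + 0)
      (Finset.mem_singleton_self (∅ : Finset V))
    simp only [Z_empty_left, add_zero] at h3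
    refine h0.trans (h3.trans (le_of_eq ?_))
    apply pp_congr
    intros
    ring
  · intro F v hF hv ihd ihl
    have h3 := be_rec hF hv (t := 0) (c := 45 / 53) (s := 28 / 53) le_rfl (by norm_num)
      (by norm_num) (by norm_num) (by norm_num) (by norm_num)
    have hL := hF.lk hv
    rw [hF.sum_split v]
    have h4 : ∑ x ∈ lk v F, q0 (insert v x).card = ∑ x ∈ lk v F, q0 (x.card + 1) := by
      apply Finset.sum_congr rfl; intro x hx
      rw [card_ins (not_mem_lk x hx)]
    rw [h4]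
    have h5 := hL.sum_le_sum (f := fun s => q0 (s + 1))
      (h := fun s => 3472 / 2809 * q0 s) (C := -(1736 / 2809))
      (by simp only [zero_add]; linarith) (fun s => h2 s)
    rw [← Finset.mul_sum] at h5
    norm_num at h3
    linarith

/-- additive lower bound for `A°_t` -/
theorem Ao_add {t tp τ tt c s Γ e κ g co q h : ℝ} (p pp' qf : ℕ → ℝ)
    (ht : 0 ≤ t) (hc : 0 ≤ c) (hs : 0 ≤ s)
    (hcs : c ^ 2 + s ^ 2 = 1) (hΓ0 : 0 ≤ Γ) (hΓ1 : Γ ≤ 1)
    (he : e = (c + s) * Γ - 1) (he0 : 0 ≤ e) (hκ : κ = c ^ 2 + 2 * c * s)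
    (hgdef : g = 2 * c * s - s ^ 2) (hg : 0 < g) (hco : co = s ^ 2 * Γ ^ 2 - e ^ 2)
    (hco0 : 0 ≤ co) (hcog : co ≤ g) (hq : q = (c - s) * t + s) (hh : h = g + t * (c - s) ^ 2)
    (hqh : h ≤ q) (hth : 2 * q ≤ t + h)
    (htp : tp * κ ≤ t * (1 + 2 * c * s)) (hτ : τ * g ≤ t * (c - s) ^ 2)
    (htt : tt * co ≤ e ^ 2 * t) (httτ : tt ≤ τ)
    (hp' : ∀ F : Finset (Finset V), DC F → ∑ x ∈ F.erase ∅, pp' x.card ≤ Ao tp F)
    (hqf : ∀ F : Finset (Finset V), DC F → ∑ x ∈ F, qf x.card ≤ be τ F)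
    (h1 : p 1 ≤ (g - co) * qf 0 + co * (1 + tt) + 2 * (q - h))
    (h2 : ∀ s, p (s + 2) ≤ 2 * e * p (s + 1) + (1 - Γ ^ 2) * κ * pp' (s + 1)
      + (g - co) * qf (s + 1) + co * tt) :
    ∀ F : Finset (Finset V), DC F → ∑ x ∈ F.erase ∅, p x.card ≤ Ao t F := by
  apply DC.induction
  · have : ({∅} : Finset (Finset V)).erase ∅ = ∅ := by simp
    rw [this, Finset.sum_empty]
    exact pp_nonneg _ _
  · intro F v hF hv ihd ihl
    have hL := hF.lk hv
    have h3 := Ao_rec hF hv ht hc hs hcs hΓ0 hΓ1 he he0 hκ hgdef hg hco hco0 hq hh hqh hth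
      htp hτ htt httτ
    rw [hF.sum_split_erase v]
    have h4 : ∑ x ∈ lk v F, p (insert v x).card = ∑ x ∈ lk v F, p (x.card + 1) := by
      apply Finset.sum_congr rfl; intro x hx
      rw [card_ins (not_mem_lk x hx)]
    rw [h4]
    have e1 : ∀ f : ℕ → ℝ, ∑ x ∈ lk v F, f x.card = f 0 + ∑ x ∈ (lk v F).erase ∅, f x.card := by
      intro f
      rw [← Finset.add_sum_erase _ _ hL.empty, Finset.card_empty]
    have h5 := hL.sum_le_sum (f := fun s => p (s + 1))
      (h := fun s => 2 * e * p s + (1 - Γ ^ 2) * κ * pp' s + (g - co) * qf s + co * tt)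
      (C := co + 2 * (q - h) - 2 * e * p 0 - (1 - Γ ^ 2) * κ * pp' 0)
      (by simp only [zero_add]; linarith) (fun s => h2 s)
    simp only [Finset.sum_add_distrib, ← Finset.mul_sum] at h5
    rw [e1 p, e1 pp', Finset.sum_const, nsmul_eq_mul] at h5
    have h6 := hp' _ hL
    have h7 := hqf _ hL
    have h8 : 0 ≤ (1 - Γ ^ 2) * κ := by
      have : 0 ≤ κ := by rw [hκ]; positivity
      have : Γ ^ 2 ≤ 1 := by nlinarith
      apply mul_nonneg
      · linarith
      · assumption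
    have h9 := mul_le_mul_of_nonneg_left h6 h8
    have h10 := mul_le_mul_of_nonneg_left h7 (sub_nonneg.mpr hcog)
    have h11 := mul_le_mul_of_nonneg_left ihl (by linarith : (0 : ℝ) ≤ 2 * e)
    linarith

theorem Ao_const (t : ℝ) (F : Finset (Finset V)) :
    ∑ x ∈ F.erase ∅, t ≤ Ao t F := by
  refine le_trans (le_of_eq ?_) (sum_diag_le_pp _ _)
  apply Finset.sum_congr rfl
  intro x hx
  rw [Z_self (Finset.ne_of_mem_erase hx), sub_zero]

theorem q0_bound : ∀ F : Finset (Finset V), DC F → ∑ x ∈ F, q0 x.card ≤ be 0 F := by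
  apply be_add0
  · norm_num [q0, tb]
  · norm_num [q0, tb]
  · intro s
    rcases s with _ | _ | _ | _ | _ | _ | _ | n
    iterate 7 norm_num [q0, tb]
    have hn : (0 : ℝ) ≤ n := Nat.cast_nonneg n
    simp only [q0, tb]
    push_cast
    linarith

theorem qt0_bound : ∀ F : Finset (Finset V), DC F →
    ∑ x ∈ F, qt0 x.card ≤ be (1451 / 10000) F := by
  apply be_add _ (by norm_num) q0 qt0 q0_bound
  · norm_num [qt0, tb]
  · norm_num [q0, qt0, tb]
  · intro s
    rcases s with _ | _ | _ | _ | _ | _ | _ | n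
    iterate 7 norm_num [q0, qt0, tb]
    have hn : (0 : ℝ) ≤ n := Nat.cast_nonneg n
    simp only [q0, qt0, tb]
    push_cast
    linarith

theorem qt1_bound : ∀ F : Finset (Finset V), DC F →
    ∑ x ∈ F, qt1 x.card ≤ be (599 / 2500) F := by
  apply be_add _ (by norm_num) q0 qt1 q0_bound
  · norm_num [qt1, tb]
  · norm_num [q0, qt1, tb]
  · intro s
    rcases s with _ | _ | _ | _ | _ | _ | _ | n
    iterate 7 norm_num [q0, qt1, tb]
    have hn : (0 : ℝ) ≤ n := Nat.cast_nonneg n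
    simp only [q0, qt1, tb]
    push_cast
    linarith

theorem qt2_bound : ∀ F : Finset (Finset V), DC F →
    ∑ x ∈ F, qt2 x.card ≤ be (2439 / 5000) F := by
  apply be_add _ (by norm_num) q0 qt2 q0_bound
  · norm_num [qt2, tb]
  · norm_num [q0, qt2, tb]
  · intro s
    rcases s with _ | _ | _ | _ | _ | _ | _ | n
    iterate 7 norm_num [q0, qt2, tb]
    have hn : (0 : ℝ) ≤ n := Nat.cast_nonneg n
    simp only [q0, qt2, tb]
    push_cast
    linarith

theorem qt3_bound : ∀ F : Finset (Finset V), DC F →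
    ∑ x ∈ F, qt3 x.card ≤ be (583 / 500) F := by
  apply be_add _ (by norm_num) q0 qt3 q0_bound
  · norm_num [qt3, tb]
  · norm_num [q0, qt3, tb]
  · intro s
    rcases s with _ | _ | _ | _ | _ | _ | _ | n
    iterate 7 norm_num [q0, qt3, tb]
    have hn : (0 : ℝ) ≤ n := Nat.cast_nonneg n
    simp only [q0, qt3, tb]
    push_cast
    linarith

theorem p4_bound : ∀ F : Finset (Finset V), DC F →
    ∑ x ∈ F.erase ∅, p4 x.card ≤ Ao (1641 / 1000) F := by
  intro F _
  refine le_trans (Finset.sum_le_sum fun x hx => ?_) (Ao_const _ F)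
  obtain ⟨k, hk⟩ : ∃ k, x.card = k + 1 :=
    ⟨x.card - 1, by
      have := Finset.card_pos.mpr (Finset.nonempty_iff_ne_empty.mpr (Finset.ne_of_mem_erase hx))
      omega⟩
  rw [hk]
  rcases k with _ | _ | _ | _ | _ | _ | _ | n
  iterate 7 norm_num [p4, tb]
  simp only [p4, tb]
  norm_num

theorem p3_bound : ∀ F : Finset (Finset V), DC F →
    ∑ x ∈ F.erase ∅, p3 x.card ≤ Ao (15341 / 10000) F := by
  apply Ao_add (t := 15341 / 10000) (tp := 1641 / 1000) (τ := 583 / 500) (tt := 583 / 500)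
    (c := 35 / 37) (s := 12 / 37) (Γ := 19 / 20) (e := 153 / 740)
    (κ := 2065 / 1369) (g := 696 / 1369) (co := 1143 / 21904) (q := 472843 / 370000)
    (h := 15075389 / 13690000) p3 p4 qt3
  case hp' => exact p4_bound
  case hqf => exact qt3_bound
  case h1 => norm_num [p3, qt3, tb]
  case h2 =>
    intro s
    rcases s with _ | _ | _ | _ | _ | _ | _ | n
    iterate 7 norm_num [p3, p4, qt3, tb]
    have hn : (0 : ℝ) ≤ n := Nat.cast_nonneg n
    simp only [p3, p4, qt3, tb]
    push_cast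
    linarith
  all_goals norm_num

theorem p2_bound : ∀ F : Finset (Finset V), DC F →
    ∑ x ∈ F.erase ∅, p2 x.card ≤ Ao (6847 / 5000) F := by
  apply Ao_add (t := 6847 / 5000) (tp := 15341 / 10000) (τ := 2439 / 5000) (tt := 2439 / 5000)
    (c := 80 / 89) (s := 39 / 89) (Γ := 9 / 10) (e := 181 / 890)
    (κ := 12640 / 7921) (g := 4719 / 7921) (co := 4522 / 39605) (q := 475727 / 445000)
    (h := 35104807 / 39605000) p2 p3 qt2
  case hp' => exact p3_bound
  case hqf => exact qt2_bound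
  case h1 => norm_num [p2, qt2, tb]
  case h2 =>
    intro s
    rcases s with _ | _ | _ | _ | _ | _ | _ | n
    iterate 7 norm_num [p2, p3, qt2, tb]
    have hn : (0 : ℝ) ≤ n := Nat.cast_nonneg n
    simp only [p2, p3, qt2, tb]
    push_cast
    linarith
  all_goals norm_num

theorem p1_bound : ∀ F : Finset (Finset V), DC F →
    ∑ x ∈ F.erase ∅, p1 x.card ≤ Ao (2953 / 2500) F := by
  apply Ao_add (t := 2953 / 2500) (tp := 6847 / 5000) (τ := 599 / 2500) (tt := 2339 / 10000)
    (c := 56 / 65) (s := 33 / 65) (Γ := 43 / 50) (e := 577 / 3250)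
    (κ := 6832 / 4225) (g := 2607 / 4225) (co := 420158 / 2640625) (q := 150419 / 162500)
    (h := 8079637 / 10562500) p1 p2 qt1
  case hp' => exact p2_bound
  case hqf => exact qt1_bound
  case h1 => norm_num [p1, qt1, tb]
  case h2 =>
    intro s
    rcases s with _ | _ | _ | _ | _ | _ | _ | n
    iterate 7 norm_num [p1, p2, qt1, tb]
    have hn : (0 : ℝ) ≤ n := Nat.cast_nonneg n
    simp only [p1, p2, qt1, tb]
    push_cast
    linarith
  all_goals norm_num

theorem p0_bound : ∀ F : Finset (Finset V), DC F →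
    ∑ x ∈ F.erase ∅, p0 x.card ≤ Ao (1) F := by
  apply Ao_add (t := 1) (tp := 2953 / 2500) (τ := 1451 / 10000) (tt := 0)
    (c := 132 / 157) (s := 85 / 157) (Γ := 157 / 217) (e := 0)
    (κ := 39864 / 24649) (g := 15215 / 24649) (co := 7225 / 47089) (q := 132 / 157)
    (h := 17424 / 24649) p0 p1 qt0
  case hp' => exact p1_bound
  case hqf => exact qt0_bound
  case h1 => norm_num [p0, qt0, tb]
  case h2 =>
    intro s
    rcases s with _ | _ | _ | _ | _ | _ | _ | n
    iterate 7 norm_num [p0, p1, qt0, tb]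
    have hn : (0 : ℝ) ≤ n := Nat.cast_nonneg n
    simp only [p0, p1, qt0, tb]
    push_cast
    linarith
  all_goals norm_num

end Pool.Agent.Lib.MP_0ad4be_co.Full
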