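import Mathlib
import Pool.Agent.Lib.MP_0ad4be_co.Tables
import Pool.Agent.Lib.MP_0ad4be_co.Dirac

set_option autoImplicit false
set_option linter.unusedSectionVars false

namespace Pool.Agent.Lib.MP_0ad4be_co.Full

open Finset

variable {V : Type*} [DecidableEq V]

/-- cost of the facets of a set -/
noncomputable def fc (K : Finset V → Finset V → ℝ) (x : Finset V) : ℝ :=
  ∑ w ∈ x, (if x.erase w = ∅ then 0 else K x (x.erase w))

theorem filter_Fa {F : Finset (Finset V)} (hF : DC F) {x : Finset V} (hx : x ∈ F) :
    (F.erase ∅).filter (fun y => Fa x y) = (x.filter fun w => x.erase w ≠ ∅).image x.erase := by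
  ext y
  rw [Finset.mem_filter, Finset.mem_erase, Finset.mem_image]
  constructor
  · rintro ⟨⟨hy0, hyF⟩, hyx, hc⟩
    have h1 : (x \ y).card = 1 := by
      rw [Finset.card_sdiff_of_subset hyx]; omega
    obtain ⟨w, hw⟩ := Finset.card_eq_one.mp h1
    have hwx : w ∈ x \ y := by rw [hw]; simp
    have h2 : x.erase w = y := by
      rw [Finset.erase_eq, ← hw]
      exact Finset.sdiff_sdiff_eq_self hyx
    refine ⟨w, Finset.mem_filter.mpr ⟨(Finset.mem_sdiff.mp hwx).1, ?_⟩, h2⟩
    rw [h2]; exact hy0
  · rintro ⟨w, hw', rfl⟩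
    obtain ⟨hw, hne⟩ := Finset.mem_filter.mp hw'
    refine ⟨⟨hne, hF.down x hx _ (Finset.erase_subset _ _)⟩, Finset.erase_subset _ _, ?_⟩
    have := Finset.card_erase_of_mem hw
    have := Finset.card_pos.mpr ⟨w, hw⟩
    omega

theorem sum_Fa {F : Finset (Finset V)} (hF : DC F) (K : Finset V → Finset V → ℝ) :
    ∑ x ∈ F.erase ∅, ∑ y ∈ F.erase ∅, (if Fa x y then K x y else 0)
      = ∑ x ∈ F.erase ∅, fc K x := by
  apply Finset.sum_congr rfl; intro x hx
  rw [← Finset.sum_filter, filter_Fa hF (Finset.mem_of_mem_erase hx), Finset.sum_image, fc,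
    Finset.sum_filter]
  · apply Finset.sum_congr rfl; intro w _
    split_ifs <;> tauto
  · intro a ha b hb hab
    simp only [Finset.coe_filter, Set.mem_ofPred_eq] at ha hb
    exact Finset.erase_injOn x ha.1 hb.1 hab

theorem dn_le {F : Finset (Finset V)} (hF : DC F) {x : Finset V} (hx : x ∈ F) :
    dn (F.erase ∅) x ≤ x.card := by
  rw [dn, filter_Fa hF hx]
  exact_mod_cast (Finset.card_image_le.trans (Finset.card_filter_le _ _))

theorem dn_one {F : Finset (Finset V)} {x : Finset V} (hx : x.card = 1) :
    dn (F.erase ∅) x = 0 := by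
  rw [dn]
  have : (F.erase ∅).filter (fun y => Fa x y) = ∅ := by
    rw [Finset.filter_eq_empty_iff]
    intro y hy hF
    have h1 := hF.2
    have h2 := Finset.card_pos.mpr (Finset.nonempty_iff_ne_empty.mpr (Finset.ne_of_mem_erase hy))
    omega
  rw [this]; simp

theorem up_le {G : Finset (Finset V)} (hG : DC G) {x : Finset V} (hx : x ∈ G) {v : V}
    (hv : v ∈ x) :
    (2 : ℝ) ^ (x.card - 1) * (1 + up (G.erase ∅) x) ≤ (lk v G).card := by
  set cof := (G.erase ∅).filter fun y => Fa y x with hcof
  have hxc : x ∉ cof := by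
    intro h
    have := (Finset.mem_filter.mp h).2.2
    omega
  have h1 : ((x.erase v).powerset ×ˢ insert x cof).card ≤ (lk v G).card := by
    apply Finset.card_le_card_of_injOn (fun p => p.1 ∪ (p.2 \ x))
    · rintro ⟨y, c⟩ hp
      simp only [Finset.coe_product, Set.mem_prod, Finset.mem_coe, Finset.mem_powerset,
        Finset.mem_insert] at hp
      obtain ⟨hy, hc⟩ := hp
      have hcG : c ∈ G ∧ x ⊆ c := by
        rcases hc with rfl | hc
        · exact ⟨hx, Finset.Subset.refl _⟩
        · exact ⟨Finset.mem_of_mem_erase (Finset.mem_filter.mp hc).1,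
            (Finset.mem_filter.mp hc).2.1⟩
      simp only [Finset.mem_coe]
      rw [mem_lk]
      have hsub : y ∪ (c \ x) ⊆ c := by
        apply Finset.union_subset _ Finset.sdiff_subset
        exact hy.trans ((Finset.erase_subset _ _).trans hcG.2)
      refine ⟨hG.down c hcG.1 _ hsub, ?_, hG.down c hcG.1 _ ?_⟩
      · rw [Finset.mem_union, Finset.mem_sdiff]
        rintro (h | h)
        · exact (Finset.mem_erase.mp (hy h)).1 rfl
        · exact h.2 hv
      · exact Finset.insert_subset (hcG.2 hv) hsub
    · rintro ⟨y, c⟩ hp ⟨y', c'⟩ hp' heq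
      simp only [Finset.coe_product, Set.mem_prod, Finset.mem_coe, Finset.mem_powerset,
        Finset.mem_insert] at hp hp'
      have hcx : ∀ c, c = x ∨ c ∈ cof → x ⊆ c := by
        rintro c (rfl | hc)
        · exact Finset.Subset.refl _
        · exact (Finset.mem_filter.mp hc).2.1
      have hx1 := hcx _ hp.2
      have hx2 := hcx _ hp'.2
      have heq' : y ∪ (c \ x) = y' ∪ (c' \ x) := heq
      have hyx : y ⊆ x := hp.1.trans (Finset.erase_subset _ _)
      have hyx' : y' ⊆ x := hp'.1.trans (Finset.erase_subset _ _)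
      have e1 : y = y' := by
        ext a
        constructor
        · intro ha
          have : a ∈ y' ∪ (c' \ x) := by rw [← heq']; exact Finset.mem_union_left _ ha
          rcases Finset.mem_union.mp this with h | h
          · exact h
          · exact absurd (hyx ha) (Finset.mem_sdiff.mp h).2
        · intro ha
          have : a ∈ y ∪ (c \ x) := by rw [heq']; exact Finset.mem_union_left _ ha
          rcases Finset.mem_union.mp this with h | h
          · exact h
          · exact absurd (hyx' ha) (Finset.mem_sdiff.mp h).2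
      have e2 : c = c' := by
        ext a
        by_cases hax : a ∈ x
        · exact ⟨fun _ => hx2 hax, fun _ => hx1 hax⟩
        · constructor
          · intro ha
            have : a ∈ y' ∪ (c' \ x) := by
              rw [← heq']; exact Finset.mem_union_right _ (Finset.mem_sdiff.mpr ⟨ha, hax⟩)
            rcases Finset.mem_union.mp this with h | h
            · exact absurd (hyx' h) hax
            · exact (Finset.mem_sdiff.mp h).1
          · intro ha
            have : a ∈ y ∪ (c \ x) := by
              rw [heq']; exact Finset.mem_union_right _ (Finset.mem_sdiff.mpr ⟨ha, hax⟩)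
            rcases Finset.mem_union.mp this with h | h
            · exact absurd (hyx h) hax
            · exact (Finset.mem_sdiff.mp h).1
      rw [e1, e2]
  rw [Finset.card_product, Finset.card_powerset, Finset.card_erase_of_mem hv,
    Finset.card_insert_of_notMem hxc] at h1
  have h2 : ((2 ^ (x.card - 1) * (cof.card + 1) : ℕ) : ℝ) ≤ (lk v G).card := by exact_mod_cast h1
  push_cast at h2
  rw [up, ← hcof]
  linarith

/-- strong induction, with the hypothesis for all deletions -/
theorem DC.induction' {C : Finset (Finset V) → Prop}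
    (hstep : ∀ F : Finset (Finset V), DC F → (∀ v, {v} ∈ F → C (Full.del v F)) → C F) :
    ∀ F, DC F → C F := by
  have key : ∀ (n : ℕ) (F : Finset (Finset V)), F.card = n → DC F → C F := by
    intro n
    induction n using Nat.strong_induction_on with
    | _ n ih =>
      intro F hn hF
      apply hstep F hF
      intro v hv
      have h1 : (Full.del v F).card < F.card := by
        apply Finset.card_lt_card
        refine ⟨Finset.filter_subset _ _, fun h2 => ?_⟩
        have := h2 hv
        rw [mem_del] at this
        exact this.2 (by simp)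
      exact ih _ (by omega) _ rfl (hF.del v)
  intro F hF
  exact key _ F rfl hF

/-- table of `∑_{i < u} popcount i` -/
def Etab : List ℕ := [0, 0, 1, 2, 4, 5, 7, 9, 12, 13, 15, 17, 20, 22, 25, 28, 32, 33, 35, 37, 40,
  42, 45, 48, 52, 54, 57, 60, 64, 67, 71, 75, 80, 81, 83, 85, 88]

def E (u : ℕ) : ℕ := Etab.getD u 0

theorem E_super : ∀ a ≤ 36, ∀ b ≤ a, a + b ≤ 36 → 1 ≤ b → E a + E b + b ≤ E (a + b) := by
  decide

theorem E_le1 : ∀ u ≤ 15, 1 ≤ u → E u ≤ 2 * (u - 1) := by decide

theorem E_le2 : ∀ u ≤ 36, 14 ≤ u → E u + 7 ≤ 4 * u := by decide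

theorem E_le3 : ∀ u ≤ 36, 2 ≤ u → 10 * E u + 48 ≤ 33 * u := by decide

theorem DC.card_split {F : Finset (Finset V)} (h : DC F) (v : V) :
    F.card = (Full.del v F).card + (Full.lk v F).card := by
  have h1 := h.sum_split v (fun _ => 1)
  simp only [Finset.sum_const, nsmul_eq_mul, mul_one] at h1
  exact_mod_cast h1

theorem sum_card_le : ∀ F : Finset (Finset V), DC F → F.card ≤ 36 → ∑ x ∈ F, x.card ≤ E F.card := by
  apply DC.induction
  · intro _
    simp
  · intro F v hF hv ihd ihl hc
    have h1 := hF.card_split v
    have h2 : (Full.lk v F).card ≤ (Full.del v F).card := Finset.card_le_card (lk_subset_del v F)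
    have h3 : 1 ≤ (Full.lk v F).card := Finset.card_pos.mpr ⟨∅, (hF.lk hv).empty⟩
    have h4 := ihd (by omega)
    have h5 := ihl (by omega)
    have h6 := E_super (Full.del v F).card (by omega) (Full.lk v F).card h2 (by omega) h3
    have h7 : ∑ x ∈ F, x.card = ∑ x ∈ Full.del v F, x.card + ∑ x ∈ Full.lk v F, (x.card + 1) := by
      have h8 := hF.sum_split v (fun x => (x.card : ℝ))
      have h9 : ∑ x ∈ Full.lk v F, (((insert v x : Finset V)).card : ℝ)
          = ∑ x ∈ Full.lk v F, ((x.card : ℝ) + 1) := by
        apply Finset.sum_congr rfl; intro x hx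
        rw [card_ins (not_mem_lk x hx)]
        push_cast; ring
      rw [h9] at h8
      exact_mod_cast h8
    rw [h7, Finset.sum_add_distrib, Finset.sum_const, smul_eq_mul, mul_one, h1]
    omega

/-- `fc` at a new set of the star -/
theorem fc_insert (K : Finset V → Finset V → ℝ) {v : V} {y : Finset V} (hv : v ∉ y) :
    fc K (insert v y) = (if y = ∅ then 0 else K (insert v y) y)
      + ∑ w ∈ y, K (insert v y) ((insert v y).erase w) := by
  rw [fc, Finset.sum_insert hv, Finset.erase_insert hv]
  congr 1
  apply Finset.sum_congr rfl; intro w hw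
  rw [if_neg]
  intro h
  have : v ∈ (insert v y).erase w := by
    rw [Finset.mem_erase]
    refine ⟨?_, Finset.mem_insert_self _ _⟩
    rintro rfl
    exact hv hw
  rw [h] at this
  simp at this

end Pool.Agent.Lib.MP_0ad4be_co.Full
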