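import Mathlib
import Pool.Agent.Lib.MP_0ad4be_co.Complex

set_option autoImplicit false

namespace Pool.Agent.Lib.MP_0ad4be_co.DimensionBound

open Finset Matrix

variable {V : Type*} [DecidableEq V]

/-- `G` is a finite abstract simplicial complex: a finite set of nonempty finite sets which is
closed under taking nonempty subsets. -/
def IsComplex (G : Finset (Finset V)) : Prop :=
  (∀ x ∈ G, x.Nonempty) ∧ ∀ x ∈ G, ∀ y ⊆ x, y.Nonempty → y ∈ G

/-- The connection matrix: `L x y = 1` if `x ∩ y` is nonempty and `0` otherwise. -/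
def conn (G : Finset (Finset V)) : Matrix G G ℝ :=
  Matrix.of fun x y => if (x.1 ∩ y.1).Nonempty then 1 else 0

/-- The exterior derivative with signs `sg`: `d x y = sg x y` if `y ⊂ x` and `|x| = |y| + 1`, and
`0` otherwise. The incidence signs of a choice of orientations are one possibility for `sg`. -/
def extDer (G : Finset (Finset V)) (sg : Finset V → Finset V → ℝ) : Matrix G G ℝ :=
  Matrix.of fun x y => if y.1 ⊆ x.1 ∧ x.1.card = y.1.card + 1 then sg x.1 y.1 else 0

/-- The Dirac matrix `D = d + dᵀ`. -/
def dirac (G : Finset (Finset V)) (sg : Finset V → Finset V → ℝ) : Matrix G G ℝ :=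
  extDer G sg + (extDer G sg)ᵀ

/-- `S_k(A)`: the sum of the `k` largest eigenvalues, with multiplicity, of the real symmetric
matrix `A` (`eigenvalues₀` lists the eigenvalues in decreasing order). -/
noncomputable def specSum {n : Type*} [Fintype n] [DecidableEq n] (A : Matrix n n ℝ)
    (hA : A.IsHermitian) (k : ℕ) : ℝ :=
  ∑ i : Fin (Fintype.card n), if (i : ℕ) < k then hA.eigenvalues₀ i else 0

theorem conn_symm (G : Finset (Finset V)) : (conn G).IsHermitian := by
  ext x y
  simp only [conn, Matrix.conjTranspose_apply, Matrix.of_apply, star_trivial, Finset.inter_comm]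

theorem dirac_symm (G : Finset (Finset V)) (sg : Finset V → Finset V → ℝ) :
    (dirac G sg).IsHermitian := by
  rw [Matrix.IsHermitian, Matrix.conjTranspose_eq_transpose_of_trivial, dirac,
    Matrix.transpose_add, Matrix.transpose_transpose, add_comm]

/-- **Theorem.** Let `G` be a finite abstract simplicial complex with `n` sets, all of them with at
most `d + 1` elements (dimension at most `d`). Then for all `0 ≤ k ≤ n`
`S_k(D) ≤ √(d+1) S_k(L)`. Moreover `√2 S_k(D) ≤ S_k(L)` in dimension at most one,
`(2/√5) S_k(D) ≤ S_k(L)` in dimension at most two and `(1/√2) S_k(D) ≤ S_k(L)` in dimension at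
most three. -/
theorem dimension_bound (G : Finset (Finset V)) (hG : IsComplex G)
    (sg : Finset V → Finset V → ℝ) (hsg : ∀ x y, sg x y = 1 ∨ sg x y = -1)
    (d : ℕ) (hd : ∀ x ∈ G, x.card ≤ d + 1) (k : ℕ) (hk : k ≤ G.card) :
    specSum (dirac G sg) (dirac_symm G sg) k
      ≤ √(d + 1) * specSum (conn G) (conn_symm G) k ∧
    (d ≤ 1 → √2 * specSum (dirac G sg) (dirac_symm G sg) k
      ≤ specSum (conn G) (conn_symm G) k) ∧
    (d ≤ 2 → 2 / √5 * specSum (dirac G sg) (dirac_symm G sg) k
      ≤ specSum (conn G) (conn_symm G) k) ∧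
    (d ≤ 3 → 1 / √2 * specSum (dirac G sg) (dirac_symm G sg) k
      ≤ specSum (conn G) (conn_symm G) k) := by
  have main : ∀ (N : ℕ) (_ : ∀ x ∈ G, x.card ≤ N) (a b : ℕ → ℝ) (τ : ℝ),
      (∀ s, 1 ≤ s → s ≤ N → a s ^ 2 + s * b s ^ 2 = 1) → b 1 = 0 →
      (∀ s, 2 ≤ s → s ≤ N → 2 * a (s - 1) * b s = τ) →
      τ * specSum (dirac G sg) (dirac_symm G sg) k ≤ specSum (conn G) (conn_symm G) k := by
    intro N hN a b τ h1 hb h2
    refine Pool.Agent.Lib.MP_0ad4be_co.complex_bound G hG.1 hG.2 sg hsg N hN a b τ h1 hb h2
      (conn_symm G) (dirac_symm G sg) ?_ ?_ k hk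
    · intro x y hxy
      rw [conn, Matrix.of_apply, if_pos]
      rwa [Finset.nonempty_iff_ne_empty, ne_eq, ← Finset.disjoint_iff_inter_eq_empty]
    · rw [dirac, add_comm]
      rfl
  have s2 : √2 ^ 2 = (2 : ℝ) := Real.sq_sqrt (by norm_num)
  have s3 : √3 ^ 2 = (3 : ℝ) := Real.sq_sqrt (by norm_num)
  have s5 : √5 ^ 2 = (5 : ℝ) := Real.sq_sqrt (by norm_num)
  have p2 : 0 < √(2 : ℝ) := Real.sqrt_pos.mpr (by norm_num)
  have p3 : 0 < √(3 : ℝ) := Real.sqrt_pos.mpr (by norm_num)
  have p5 : 0 < √(5 : ℝ) := Real.sqrt_pos.mpr (by norm_num)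
  have s35 : √(3 / 5) ^ 2 = (3 / 5 : ℝ) := Real.sq_sqrt (by norm_num)
  refine ⟨?_, ?_, ?_, ?_⟩
  · -- general dimension
    set m : ℝ := (d : ℝ) + 1 with hm
    have hmpos : 0 < m := by positivity
    obtain ⟨c, hc1, hc⟩ : ∃ c : ℕ → ℝ, c 1 = 1 ∧
        ∀ s, 1 ≤ s → c (s + 1) = 1 - (s + 1 : ℝ) / (4 * m * c s) := by
      refine ⟨fun s => Nat.rec 1 (fun t v => if t = 0 then 1 else
        1 - (t + 1 : ℝ) / (4 * m * v)) s, by simp, ?_⟩
      intro s hs
      simp only
      rw [if_neg (by omega)]
    have hcge : ∀ s, 1 ≤ s → s ≤ d + 1 → 1 / 2 ≤ c s := by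
      intro s hs
      induction s, hs using Nat.le_induction with
      | base => intro _; rw [hc1]; norm_num
      | succ s hs ih =>
        intro hsd
        have h := ih (by omega)
        rw [hc s hs]
        have h3 : (s + 1 : ℝ) ≤ m := by
          have : ((s + 1 : ℕ) : ℝ) ≤ ((d + 1 : ℕ) : ℝ) := by exact_mod_cast hsd
          push_cast at this
          exact this
        have h4 : (s + 1 : ℝ) / (4 * m * c s) ≤ 1 / 2 := by
          rw [div_le_div_iff₀ (by positivity) (by norm_num)]
          nlinarith
        linarith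
    have hsm : √m ^ 2 = m := Real.sq_sqrt hmpos.le
    have psm : 0 < √m := Real.sqrt_pos.mpr hmpos
    have h := main (d + 1) hd (fun s => √(c s))
      (fun s => if s = 1 then 0 else 1 / (2 * √m * √(c (s - 1)))) (1 / √m) ?_ (by simp) ?_
    · have : specSum (dirac G sg) (dirac_symm G sg) k
          = √m * (1 / √m * specSum (dirac G sg) (dirac_symm G sg) k) := by
        field_simp
      rw [this]
      exact mul_le_mul_of_nonneg_left h psm.le
    · intro s h1 h2
      have hcs := hcge s h1 h2
      rw [Real.sq_sqrt (by linarith)]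
      by_cases hs : s = 1
      · subst hs
        simp [hc1]
      · rw [if_neg hs]
        obtain ⟨t, rfl⟩ : ∃ t, s = t + 1 := ⟨s - 1, by omega⟩
        have ht : 1 ≤ t := by omega
        have hct := hcge t ht (by omega)
        rw [Nat.add_sub_cancel, hc t ht, div_pow, mul_pow, mul_pow, hsm,
          Real.sq_sqrt (by linarith)]
        push_cast
        field_simp
        ring
    · intro s h1 h2
      rw [if_neg (by omega)]
      have hct := hcge (s - 1) (by omega) (by omega)
      have : 0 < √(c (s - 1)) := Real.sqrt_pos.mpr (by linarith)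
      field_simp
  · intro hd1
    refine main 2 (fun x hx => (hd x hx).trans (by omega))
      (fun s => if s = 1 then 1 else 0) (fun s => if s = 2 then 1 / √2 else 0) (√2) ?_ ?_ ?_
    · intro s h1 h2
      interval_cases s
      · simp
      · simp
    · simp
    · intro s h1 h2
      interval_cases s
      simp
      field_simp
      nlinarith
  · intro hd2
    refine main 3 (fun x hx => (hd x hx).trans (by omega))
      (fun s => if s = 1 then 1 else if s = 2 then √(3 / 5) else 0)
      (fun s => if s = 2 then 1 / √5 else if s = 3 then 1 / √3 else 0) (2 / √5) ?_ ?_ ?_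
    · intro s h1 h2
      interval_cases s
      · simp
      · norm_num [div_pow]
      · norm_num [div_pow]
    · simp
    · intro s h1 h2
      interval_cases s
      · norm_num
        ring
      · norm_num
        field_simp
  · intro hd3
    refine main 4 (fun x hx => (hd x hx).trans (by omega))
      (fun s => if s = 1 then 1 else if s = 2 then √3 / 2 else if s = 3 then 1 / √2 else 0)
      (fun s => if s = 2 then 1 / (2 * √2) else if s = 3 then 1 / (√2 * √3)
        else if s = 4 then 1 / 2 else 0) (1 / √2) ?_ ?_ ?_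
    · intro s h1 h2
      interval_cases s
      · simp
      · norm_num [div_pow, mul_pow]
      · norm_num [div_pow, mul_pow]
      · norm_num
    · simp
    · intro s h1 h2
      interval_cases s
      · norm_num
        field_simp
      · norm_num
        field_simp
      · norm_num
        field_simp

end Pool.Agent.Lib.MP_0ad4be_co.DimensionBound
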