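import Mathlib
import Pool.Agent.Lib.MP_0ad4be_co.Counting

set_option autoImplicit false
set_option linter.unusedSectionVars false

namespace Pool.Agent.Lib.MP_0ad4be_co.Full

open Finset

variable {V : Type*} [DecidableEq V]

noncomputable def po (s : ℕ) : ℝ := if Odd s then 1 else 0
noncomputable def pe (s : ℕ) : ℝ := if Even s then 1 else 0

theorem po_nonneg (s : ℕ) : 0 ≤ po s := by unfold po; split_ifs <;> norm_num
theorem pe_nonneg (s : ℕ) : 0 ≤ pe s := by unfold pe; split_ifs <;> norm_num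

theorem po_add_pe (s : ℕ) : po s + pe s = 1 := by
  unfold po pe
  rcases Nat.even_or_odd s with h | h
  · rw [if_neg (Nat.not_odd_iff_even.mpr h), if_pos h]; norm_num
  · rw [if_pos h, if_neg (Nat.not_even_iff_odd.mpr h)]; norm_num

theorem no_eq (F : Finset (Finset V)) : no F = ∑ x ∈ F, po x.card := by
  simp only [no, po, Finset.sum_ite, Finset.sum_const, nsmul_eq_mul, mul_one, mul_zero, add_zero]

theorem ne_eq (F : Finset (Finset V)) : ne F = ∑ x ∈ F, pe x.card := by
  simp only [ne, pe, Finset.sum_ite, Finset.sum_const, nsmul_eq_mul, mul_one, mul_zero, add_zero]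

theorem card_pos_of_mem {F : Finset (Finset V)} {x : Finset V} (hx : x ∈ F.erase ∅) :
    ∃ k, x.card = k + 1 :=
  ⟨x.card - 1, by
    have := Finset.card_pos.mpr (Finset.nonempty_iff_ne_empty.mpr (Finset.ne_of_mem_erase hx))
    omega⟩

/-- The level-zero increment. -/
theorem lvl0 {L : Finset (Finset V)} (hL : DC L) :
    ∑ x ∈ L, p0 (x.card + 1) ≤ (1 - (157 / 217 : ℝ) ^ 2) * (39864 / 24649) * Ao (2953 / 2500) L
      + (15215 / 24649 - 7225 / 47089) * be (1451 / 10000) L + 7225 / 47089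
      + 2 * (132 / 157 - (132 / 157) ^ 2) := by
  have h1 := p1_bound L hL
  have h2 := qt0_bound L hL
  have h3 := hL.sum_le_sum (f := fun s => p0 (s + 1))
    (h := fun s => (1 - (157 / 217 : ℝ) ^ 2) * (39864 / 24649) * p1 s
      + (15215 / 24649 - 7225 / 47089) * qt0 s)
    (C := 7225 / 47089 + 2 * (132 / 157 - (132 / 157) ^ 2)) (by norm_num [p0, p1, qt0, tb])
    (by
      intro s
      rcases s with _ | _ | _ | _ | _ | _ | _ | n
      iterate 7 norm_num [p0, p1, qt0, tb]
      have hn : (0 : ℝ) ≤ n := Nat.cast_nonneg n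
      simp only [p0, p1, qt0, tb]
      push_cast
      linarith)
  rw [Finset.sum_add_distrib, ← Finset.mul_sum, ← Finset.mul_sum] at h3
  have h4 : ∑ x ∈ L, p1 x.card = ∑ x ∈ L.erase ∅, p1 x.card := by
    rw [← Finset.add_sum_erase _ _ hL.empty, Finset.card_empty]
    simp [p1, tb]
  rw [h4] at h3
  norm_num at h3 ⊢
  linarith

theorem FL_O2' {v : V} {F : Finset (Finset V)} (hF : DC F) (hv : {v} ∈ F) {θ : ℝ} (hθ : 0 ≤ θ) :
    FL θ (del v F) + ∑ x ∈ lk v F, p0 (x.card + 1)
      - θ * (ne (lk v F) + 22440 / 47089 * (1 + no (lk v F))) ≤ FL θ F := by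
  have h1 := FL_O2 hF hv (θ := θ) (c := 132 / 157) (s := 85 / 157) (Γ := 157 / 217)
    (κ := 39864 / 24649) (g := 15215 / 24649) (η := 7225 / 47089) (tp := 2953 / 2500)
    (τ := 1451 / 10000) hθ (by norm_num) (by norm_num) (by norm_num) (by norm_num) (by norm_num)
    (by norm_num) (by norm_num) (by norm_num) (by norm_num) (by norm_num) (by norm_num)
    (by norm_num) (by norm_num) (by norm_num) (by norm_num)
  have h2 := lvl0 (hF.lk hv)
  have h3 : (1 - (157 / 217 : ℝ) ^ 2) = 22440 / 47089 := by norm_num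
  rw [h3] at h1 h2
  linarith

theorem FL_O3' {v : V} {F : Finset (Finset V)} (hF : DC F) (hv : {v} ∈ F) {θ : ℝ} (hθ : 0 ≤ θ) :
    FL θ (del v F) + 287 / 625 * ∑ x ∈ (lk v F).erase ∅, p0 x.card
      + ∑ x ∈ lk v F, (289 / 625 + 287 / 625 * (1 / 2) ^ x.card) + 48 / 625
      - θ * (1 + 336 / 961 * (1 + no (lk v F))) ≤ FL θ F := by
  have h1 := FL_O3 hF hv (θ := θ) (c := 24 / 25) (s := 7 / 25) (Γ := 25 / 31)
    (g := 287 / 625) hθ (by norm_num) (by norm_num) (by norm_num) (by norm_num) (by norm_num)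
    (by norm_num) (by norm_num) (by norm_num)
  have h2 := p0_bound (lk v F) (hF.lk hv)
  have h3 : (1 - (25 / 31 : ℝ) ^ 2) = 336 / 961 := by norm_num
  have h4 : (24 / 25 - 7 / 25 : ℝ) ^ 2 = 289 / 625 := by norm_num
  have h5 : 2 * (24 / 25 - (24 / 25 : ℝ) ^ 2) = 48 / 625 := by norm_num
  rw [h3, h4, h5] at h1
  linarith

/-- refined table: isolated vertices count one -/
noncomputable def fh : ℕ → ℝ :=
  tb 0 1 (11262 / 10000) (879 / 625) (2067 / 1250) (383 / 200) (11033 / 5000)
    (25561 / 10000) (29931 / 10000) (11 / 20)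

theorem fh_bound : ∀ F : Finset (Finset V), DC F → ∑ x ∈ F.erase ∅, fh x.card ≤ Ao 1 F := by
  apply DC.induction
  · have : ({∅} : Finset (Finset V)).erase ∅ = ∅ := by simp
    rw [this, Finset.sum_empty]
    exact pp_nonneg _ _
  · intro F v hF hv ihd _
    have hL := hF.lk hv
    rw [hF.sum_split_erase v]
    have h4 : ∑ x ∈ lk v F, fh (insert v x).card = ∑ x ∈ lk v F, fh (x.card + 1) := by
      apply Finset.sum_congr rfl; intro x hx
      rw [card_ins (not_mem_lk x hx)]
    rw [h4]
    by_cases h1 : ∃ a, {a} ∈ lk v F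
    · obtain ⟨a, ha⟩ := h1
      have h2 := FL_O2' hF hv (θ := 0) le_rfl
      rw [FL_zero, FL_zero, zero_mul, sub_zero] at h2
      -- compare the two tables
      have h3 : ∑ x ∈ lk v F, fh (x.card + 1) ≤ ∑ x ∈ lk v F, p0 (x.card + 1) := by
        have e1 : ∅ ∈ (lk v F).erase {a} := by
          rw [Finset.mem_erase]
          exact ⟨(Finset.singleton_ne_empty a).symm, hL.empty⟩
        rw [← Finset.add_sum_erase _ _ ha, ← Finset.add_sum_erase (lk v F) _ ha,
          ← Finset.add_sum_erase _ _ e1, ← Finset.add_sum_erase ((lk v F).erase {a}) _ e1]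
        have h5 : ∑ x ∈ ((lk v F).erase {a}).erase ∅, fh (x.card + 1)
            ≤ ∑ x ∈ ((lk v F).erase {a}).erase ∅, p0 (x.card + 1) := by
          apply Finset.sum_le_sum; intro x hx
          obtain ⟨k, hk⟩ := card_pos_of_mem hx
          rw [hk]
          rcases k with _ | _ | _ | _ | _ | _ | n
          iterate 6 norm_num [fh, p0, tb]
          simp only [fh, p0, tb, le_refl]
        simp only [Finset.card_singleton, Finset.card_empty]
        have h6 : fh (1 + 1) + fh (0 + 1) ≤ p0 (1 + 1) + p0 (0 + 1) := by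
          norm_num [fh, p0, tb]
        linarith
      linarith
    · have hLe : lk v F = {∅} := by
        ext x
        rw [Finset.mem_singleton]
        constructor
        · intro hx
          by_contra hne
          obtain ⟨a, ha⟩ := Finset.nonempty_iff_ne_empty.mpr hne
          exact h1 ⟨a, hL.down x hx _ (by simpa using ha)⟩
        · rintro rfl
          exact hL.empty
      have h2 := FL_O1 hF hv 0
      rw [FL_zero, FL_zero, hLe] at h2
      rw [hLe, Finset.sum_singleton, Finset.card_empty]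
      have h3 : fh (0 + 1) = 1 := by norm_num [fh, tb]
      rw [h3]
      simp only [Finset.card_singleton, Nat.cast_one, sub_zero] at h2
      linarith

/-- number of facets of a set, as a real -/
noncomputable def nf (s : ℕ) : ℝ := if s = 1 then 0 else s

theorem fc_const {x : Finset V} (k : ℝ) : fc (fun _ _ => k) x = k * nf x.card := by
  rw [fc, nf]
  by_cases h1 : x.card = 1
  · obtain ⟨a, rfl⟩ := Finset.card_eq_one.mp h1
    simp
  · rw [if_neg h1]
    have h2 : ∀ w ∈ x, (if x.erase w = ∅ then 0 else k) = k := by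
      intro w hw
      rw [if_neg]
      intro h
      apply h1
      have h3 := Finset.card_erase_of_mem hw
      rw [h, Finset.card_empty] at h3
      have h4 := Finset.card_pos.mpr ⟨w, hw⟩
      omega
    rw [Finset.sum_congr rfl h2, Finset.sum_const, nsmul_eq_mul]
    ring

theorem dirac_global' {F : Finset (Finset V)} (hF : DC F) {sg : Finset V → Finset V → ℝ}
    (hsg : ∀ x y, |sg x y| ≤ 1) {θ lam A B : ℝ} (hθ : 0 ≤ θ) (hlam : 0 < lam) (hA : 0 ≤ A)
    (hB : 0 ≤ B) (hAB : A + B = lam / 2 - θ) :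
    pp (F.erase ∅) (fun x y => Dk sg x y - θ * dl x y)
      ≤ ∑ x ∈ F.erase ∅, (A * pe x.card + B * po x.card + 1 / (2 * lam) * nf x.card) := by
  have h1 := dirac_global (F.erase ∅) hsg hθ hlam hA hB hAB
  rw [sum_Fa hF (fun _ _ => 1 / (2 * lam))] at h1
  simp only [fc_const] at h1
  rw [Finset.sum_add_distrib, Finset.sum_add_distrib, ← Finset.mul_sum, ← Finset.mul_sum,
    ← ne_eq, ← no_eq]
  exact h1

theorem sum_erase_le {F : Finset (Finset V)} {f g : ℕ → ℝ} (h : ∀ s, f (s + 1) ≤ g (s + 1)) :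
    ∑ x ∈ F.erase ∅, f x.card ≤ ∑ x ∈ F.erase ∅, g x.card := by
  apply Finset.sum_le_sum; intro x hx
  obtain ⟨k, hk⟩ := card_pos_of_mem hx
  rw [hk]
  exact h k

theorem no_erase (F : Finset (Finset V)) : no F = ∑ x ∈ F.erase ∅, po x.card := by
  rw [no_eq]
  by_cases h : ∅ ∈ F
  · rw [← Finset.add_sum_erase _ _ h]
    simp [po]
  · rw [Finset.erase_eq_of_notMem h]

theorem tail_parity {s : ℕ} : pe s = 1 - po s := by linarith [po_add_pe s]

/-- (P) for `0 ≤ θ ≤ 1`. -/
theorem P01 {F : Finset (Finset V)} (hF : DC F) {sg : Finset V → Finset V → ℝ}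
    (hsg : ∀ x y, |sg x y| ≤ 1) {θ : ℝ} (h0 : 0 ≤ θ) (h1 : θ ≤ 1) :
    pp (F.erase ∅) (fun x y => Dk sg x y - θ * dl x y) ≤ FL θ F := by
  refine (dirac_global' hF hsg h0 (lam := 37 / 10) (A := 85 / 100) (B := 1 - θ) (by norm_num)
    (by norm_num) (by linarith) (by ring)).trans ?_
  have h2 := inertia_L hF h0
  have h3 := fh_bound F hF
  have h4 : ∑ x ∈ F.erase ∅, (85 / 100 * pe x.card + (1 - θ) * po x.card
      + 1 / (2 * (37 / 10)) * nf x.card) ≤ ∑ x ∈ F.erase ∅, (fh x.card - θ * po x.card) := by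
    apply sum_erase_le (f := fun s => 85 / 100 * pe s + (1 - θ) * po s
      + 1 / (2 * (37 / 10)) * nf s) (g := fun s => fh s - θ * po s)
    intro s
    have h5 : 85 / 100 * pe (s + 1) + po (s + 1) + 1 / (2 * (37 / 10)) * nf (s + 1)
        ≤ fh (s + 1) := by
      rcases s with _ | _ | _ | _ | _ | _ | _ | n
      iterate 7 norm_num [fh, tb, pe, po, nf, Nat.even_iff, Nat.odd_iff]
      have hn : (0 : ℝ) ≤ n := Nat.cast_nonneg n
      have h6 := tail_parity (s := n + 7 + 1)
      have h7 := pe_nonneg (n + 7 + 1)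
      have h8 : nf (n + 7 + 1) = n + 8 := by
        rw [nf, if_neg (by omega)]; push_cast; ring
      have h9 : fh (n + 7 + 1) = 29931 / 10000 + 11 / 20 * n := by simp only [fh, tb]
      rw [h8, h9]
      nlinarith
    linarith
  rw [Finset.sum_sub_distrib, ← Finset.mul_sum, ← no_erase] at h4
  linarith

/-- (M): the negative side. -/
theorem M_bound {F : Finset (Finset V)} (hF : DC F) {sg : Finset V → Finset V → ℝ}
    (hsg : ∀ x y, |sg x y| ≤ 1) {θ : ℝ} (h0 : 0 ≤ θ) :
    pp (F.erase ∅) (fun x y => Dk sg x y - θ * dl x y)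
      ≤ (F.erase ∅).card + pp (F.erase ∅) (fun x y => -(1 - Z x y) - θ * dl x y) := by
  have h2 := inertia_negL hF h0
  have h3 := fh_bound F hF
  have h4 : pp (F.erase ∅) (fun x y => -(1 - Z x y)) = Ao 1 F - (F.erase ∅).card := by
    rw [pp_neg]
    have : ∑ x ∈ F.erase ∅, (1 - Z x x) = (F.erase ∅).card := by
      have h5 : ∀ x ∈ F.erase ∅, (1 - Z x x) = (1 : ℝ) := by
        intro x hx
        rw [Z_self (Finset.ne_of_mem_erase hx), sub_zero]
      rw [Finset.sum_congr rfl h5]
      simp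
    rw [this]; rfl
  have h5 := pp_nonneg (F.erase ∅) (fun x y => -(1 - Z x y) - θ * dl x y)
  rcases le_total θ (6 / 10) with h6 | h6
  · refine (dirac_global' hF hsg h0 (lam := 3) (A := 6 / 10 - θ) (B := 9 / 10) (by norm_num)
      (by linarith) (by norm_num) (by ring)).trans ?_
    have h7 : ∑ x ∈ F.erase ∅, ((6 / 10 - θ) * pe x.card + 9 / 10 * po x.card
        + 1 / (2 * 3) * nf x.card) ≤ ∑ x ∈ F.erase ∅, (fh x.card - θ * pe x.card) := by
      apply sum_erase_le (f := fun s => (6 / 10 - θ) * pe s + 9 / 10 * po s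
        + 1 / (2 * 3) * nf s) (g := fun s => fh s - θ * pe s)
      intro s
      have h8 : 6 / 10 * pe (s + 1) + 9 / 10 * po (s + 1) + 1 / (2 * 3) * nf (s + 1)
          ≤ fh (s + 1) := by
        rcases s with _ | _ | _ | _ | _ | _ | _ | n
        iterate 7 norm_num [fh, tb, pe, po, nf, Nat.even_iff, Nat.odd_iff]
        have hn : (0 : ℝ) ≤ n := Nat.cast_nonneg n
        have h6 := tail_parity (s := n + 7 + 1)
        have h7 := pe_nonneg (n + 7 + 1)
        have h8 : nf (n + 7 + 1) = n + 8 := by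
          rw [nf, if_neg (by omega)]; push_cast; ring
        have h9 : fh (n + 7 + 1) = 29931 / 10000 + 11 / 20 * n := by simp only [fh, tb]
        rw [h8, h9]
        nlinarith
      linarith
    rw [Finset.sum_sub_distrib, ← Finset.mul_sum, ← ne_eq] at h7
    linarith
  · have hθ : 0 < θ := by linarith
    have h7 := dirac_global' hF hsg h0 (lam := 2 * θ + 12 / 10) (A := 0) (B := 6 / 10)
      (by linarith) le_rfl (by norm_num) (by ring)
    -- multiply by θ and mix
    have h8 : θ * ∑ x ∈ F.erase ∅, (0 * pe x.card + 6 / 10 * po x.card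
        + 1 / (2 * (2 * θ + 12 / 10)) * nf x.card)
        ≤ ∑ x ∈ F.erase ∅, ((θ - 6 / 10) + 6 / 10 * (fh x.card - θ * pe x.card)) := by
      rw [Finset.mul_sum]
      apply sum_erase_le (f := fun s => θ * (0 * pe s + 6 / 10 * po s
        + 1 / (2 * (2 * θ + 12 / 10)) * nf s))
        (g := fun s => (θ - 6 / 10) + 6 / 10 * (fh s - θ * pe s))
      intro s
      have h9 : θ * nf (s + 1) ≤ (4 * θ + 24 / 10) * (4 / 10 * θ + 6 / 10 * (fh (s + 1) - 1)) := by
        rcases s with _ | _ | _ | _ | _ | _ | _ | n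
        · norm_num [fh, tb, nf]; positivity
        · norm_num [fh, tb, nf]; nlinarith [sq_nonneg (θ - 1 / 5)]
        · norm_num [fh, tb, nf]; nlinarith [sq_nonneg (θ - 1 / 3)]
        · norm_num [fh, tb, nf]; nlinarith [sq_nonneg (θ - 1 / 2)]
        · norm_num [fh, tb, nf]; nlinarith [sq_nonneg (θ - 6 / 10)]
        · norm_num [fh, tb, nf]; nlinarith [sq_nonneg (θ - 7 / 10)]
        · norm_num [fh, tb, nf]; nlinarith [sq_nonneg (θ - 7 / 10)]
        · have hn : (0 : ℝ) ≤ n := Nat.cast_nonneg n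
          have h8 : nf (n + 7 + 1) = n + 8 := by
            rw [nf, if_neg (by omega)]; push_cast; ring
          have h9 : fh (n + 7 + 1) = 29931 / 10000 + 11 / 20 * n := by simp only [fh, tb]
          rw [h8, h9]
          nlinarith [sq_nonneg (θ - 7 / 10), mul_nonneg hn hθ.le]
      have h10 : θ * (1 / (2 * (2 * θ + 12 / 10)) * nf (s + 1))
          ≤ 4 / 10 * θ + 6 / 10 * (fh (s + 1) - 1) := by
        have : θ * (1 / (2 * (2 * θ + 12 / 10)) * nf (s + 1))
            = θ * nf (s + 1) / (4 * θ + 24 / 10) := by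
          field_simp
          ring
        rw [this, div_le_iff₀ (by linarith)]
        linarith
      have h11 := po_add_pe (s + 1)
      have h12 : po (s + 1) = 1 - pe (s + 1) := by linarith
      simp only [h12]
      nlinarith
    have e8 : ∑ x ∈ F.erase ∅, ((θ - 6 / 10) + 6 / 10 * (fh x.card - θ * pe x.card))
        = (F.erase ∅).card * (θ - 6 / 10)
          + 6 / 10 * (∑ x ∈ F.erase ∅, fh x.card - θ * ne (F.erase ∅)) := by
      rw [Finset.sum_add_distrib, Finset.sum_const, ← Finset.mul_sum, Finset.sum_sub_distrib,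
        ← Finset.mul_sum, ← ne_eq, nsmul_eq_mul]
    rw [e8] at h8
    have h9 := mul_le_mul_of_nonneg_left h7 hθ.le
    have h10 : θ * pp (F.erase ∅) (fun x y => Dk sg x y - θ * dl x y)
        ≤ θ * ((F.erase ∅).card + pp (F.erase ∅) (fun x y => -(1 - Z x y) - θ * dl x y)) := by
      nlinarith [mul_nonneg (sub_nonneg.mpr h6) h5]
    exact le_of_mul_le_mul_left h10 hθ

end Pool.Agent.Lib.MP_0ad4be_co.Full
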