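import Mathlib
import Pool.Agent.Lib.MP_0ad4be_co.Global

set_option autoImplicit false
set_option linter.unusedSectionVars false

namespace Pool.Agent.Lib.MP_0ad4be_co.Full

open Finset

variable {V : Type*} [DecidableEq V]

/-- cost of one set of the star, `1 ≤ θ ≤ 3/2` -/
noncomputable def cA (θ : ℝ) (s : ℕ) : ℝ :=
  (3 / 2 - θ) / 2 + s / 6 + (if s = 0 then 0 else 1 / 6) + (if s = 1 then (3 - 2 * θ) / 30 else 0)

theorem sum_over_erase {L : Finset (Finset V)} (hL : DC L) (f : ℕ → ℝ) :
    ∑ x ∈ L, f x.card = f 0 + ∑ x ∈ L.erase ∅, f x.card := by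
  rw [← Finset.add_sum_erase _ _ hL.empty, Finset.card_empty]

theorem stepA_small {v : V} {F : Finset (Finset V)} (hF : DC F) (hv : {v} ∈ F) {θ : ℝ}
    (h1 : 1 ≤ θ) (h2 : θ ≤ 3 / 2) (hu2 : 2 ≤ (lk v F).card) (hu : (lk v F).card ≤ 36) :
    FL θ (del v F) + ∑ x ∈ lk v F, cA θ x.card ≤ FL θ F := by
  have hL := hF.lk hv
  have h3 := FL_O1 hF hv θ
  have h4 := sum_card_le (lk v F) hL hu
  have h5 := E_le3 _ hu hu2
  set u : ℝ := ((lk v F).card : ℝ) with hudef
  have h6 : (∑ x ∈ lk v F, (x.card : ℝ)) ≤ (33 * u - 48) / 10 := by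
    have e1 : ((∑ x ∈ lk v F, x.card : ℕ) : ℝ) ≤ (E (lk v F).card : ℝ) := by exact_mod_cast h4
    have e2 : (10 * (E (lk v F).card : ℝ) + 48) ≤ 33 * u := by
      rw [hudef]; exact_mod_cast h5
    push_cast at e1
    linarith
  have h7 : ∑ x ∈ lk v F, cA θ x.card ≤ u * ((3 / 2 - θ) / 2) + (∑ x ∈ lk v F, (x.card : ℝ)) / 6
      + (u - 1) * (1 / 6 + (3 - 2 * θ) / 30) := by
    have e1 := hL.sum_le_sum (f := cA θ) (h := fun s => (3 / 2 - θ) / 2 + (s : ℝ) / 6
      + (1 / 6 + (3 - 2 * θ) / 30)) (C := -(1 / 6 + (3 - 2 * θ) / 30))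
      (by norm_num [cA]; linarith)
      (by
        intro s
        rw [cA, if_neg (by omega)]
        split_ifs
        · linarith
        · have : 0 ≤ (3 - 2 * θ) / 30 := by linarith
          linarith)
    rw [Finset.sum_add_distrib, Finset.sum_add_distrib, Finset.sum_const, Finset.sum_const,
      ← Finset.sum_div, nsmul_eq_mul, nsmul_eq_mul, ← hudef] at e1
    linarith
  have hu2' : (2 : ℝ) ≤ u := by rw [hudef]; exact_mod_cast hu2
  nlinarith [mul_nonneg (sub_nonneg.mpr h1) (sub_nonneg.mpr hu2')]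

theorem pointA {θ : ℝ} (h1 : 1 ≤ θ) (h2 : θ ≤ 3 / 2) (s : ℕ) :
    cA θ (s + 1) + (36 / 1000 + (θ - 1) / 10)
      ≤ 39 / 100 * (p0 (s + 1 + 1) - θ * (pe (s + 1) + 22440 / 47089 * po (s + 1)))
        + 61 / 100 * (289 / 625 + 287 / 625 * (1 / 2) ^ (s + 1) + 287 / 625 * p0 (s + 1)
          - θ * (336 / 961 * po (s + 1))) := by
  rcases s with _ | _ | _ | _ | _ | _ | _ | n
  · norm_num [cA, p0, tb, pe, po, Nat.even_iff, Nat.odd_iff]; linarith
  · norm_num [cA, p0, tb, pe, po, Nat.even_iff, Nat.odd_iff]; linarith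
  · norm_num [cA, p0, tb, pe, po, Nat.even_iff, Nat.odd_iff]; linarith
  · norm_num [cA, p0, tb, pe, po, Nat.even_iff, Nat.odd_iff]; linarith
  · norm_num [cA, p0, tb, pe, po, Nat.even_iff, Nat.odd_iff]; linarith
  · norm_num [cA, p0, tb, pe, po, Nat.even_iff, Nat.odd_iff]; linarith
  · norm_num [cA, p0, tb, pe, po, Nat.even_iff, Nat.odd_iff]; linarith
  · have hn : (0 : ℝ) ≤ n := Nat.cast_nonneg n
    have e1 := po_add_pe (n + 7 + 1)
    have e2 := pe_nonneg (n + 7 + 1)
    have e3 := po_nonneg (n + 7 + 1)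
    have e4 : p0 (n + 7 + 1) = 29931 / 10000 + 11 / 20 * n := by simp only [p0, tb]
    have e5 : p0 (n + 7 + 1 + 1) = 29931 / 10000 + 11 / 20 * (n + 1) := by
      simp only [p0, tb]; push_cast; ring
    have e6 : (0 : ℝ) ≤ (1 / 2) ^ (n + 7 + 1) := by positivity
    have e7 : cA θ (n + 7 + 1) = (3 / 2 - θ) / 2 + (n + 9) / 6 := by
      rw [cA, if_neg (by omega), if_neg (by omega)]; push_cast; ring
    have e8 : pe (n + 7 + 1) = 1 - po (n + 7 + 1) := by linarith
    have e9 : θ * po (n + 7 + 1) ≤ θ := by nlinarith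
    rw [e4, e5, e7, e8]
    have e10 : 0 ≤ θ * po (n + 7 + 1) := by positivity
    nlinarith

theorem stepA_big {v : V} {F : Finset (Finset V)} (hF : DC F) (hv : {v} ∈ F) {θ : ℝ}
    (h1 : 1 ≤ θ) (h2 : θ ≤ 3 / 2) (hu : 37 ≤ (lk v F).card) :
    FL θ (del v F) + ∑ x ∈ lk v F, cA θ x.card ≤ FL θ F := by
  have hL := hF.lk hv
  have hθ : 0 ≤ θ := by linarith
  have a2 := FL_O2' hF hv hθ
  have a3 := FL_O3' hF hv hθ
  set L := lk v F with hLdef
  set w : ℝ := ((L.erase ∅).card : ℝ) with hw
  have hw36 : 36 ≤ w := by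
    rw [hw, Finset.card_erase_of_mem hL.empty]
    have : 36 ≤ L.card - 1 := by omega
    exact_mod_cast this
  have b1 := sum_over_erase hL (fun s => p0 (s + 1))
  have b2 := sum_over_erase hL (fun s => (289 / 625 + 287 / 625 * (1 / 2 : ℝ) ^ s))
  have b3 := sum_over_erase hL po
  have b4 := sum_over_erase hL pe
  have b5 := sum_over_erase hL (cA θ)
  rw [← no_eq] at b3
  rw [← ne_eq] at b4
  have c0 : p0 (0 + 1) = 9523 / 10000 := by norm_num [p0, tb]
  have c1 : po 0 = 0 := by norm_num [po]
  have c2 : pe 0 = 1 := by norm_num [pe]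
  have c3 : cA θ 0 = (3 / 2 - θ) / 2 := by norm_num [cA]
  simp only [c0, c1, c2, c3, pow_zero] at b1 b2 b3 b4 b5
  have key := sum_erase_le (F := L) (f := fun s => cA θ s + (36 / 1000 + (θ - 1) / 10))
    (g := fun s => 39 / 100 * (p0 (s + 1) - θ * (pe s + 22440 / 47089 * po s))
        + 61 / 100 * (289 / 625 + 287 / 625 * (1 / 2) ^ s + 287 / 625 * p0 s
          - θ * (336 / 961 * po s))) (fun s => pointA h1 h2 s)
  have e1 : ∑ x ∈ L.erase ∅, (cA θ x.card + (36 / 1000 + (θ - 1) / 10))
      = ∑ x ∈ L.erase ∅, cA θ x.card + w * (36 / 1000 + (θ - 1) / 10) := by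
    rw [Finset.sum_add_distrib, Finset.sum_const, nsmul_eq_mul]
  have e2 : ∑ x ∈ L.erase ∅, (39 / 100 * (p0 (x.card + 1) - θ * (pe x.card
        + 22440 / 47089 * po x.card))
        + 61 / 100 * (289 / 625 + 287 / 625 * (1 / 2) ^ x.card + 287 / 625 * p0 x.card
          - θ * (336 / 961 * po x.card)))
      = 39 / 100 * (∑ x ∈ L.erase ∅, p0 (x.card + 1) - θ * (∑ x ∈ L.erase ∅, pe x.card
          + 22440 / 47089 * ∑ x ∈ L.erase ∅, po x.card))
        + 61 / 100 * (∑ x ∈ L.erase ∅, (289 / 625 + 287 / 625 * (1 / 2) ^ x.card)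
          + 287 / 625 * ∑ x ∈ L.erase ∅, p0 x.card
          - θ * (336 / 961 * ∑ x ∈ L.erase ∅, po x.card)) := by
    simp only [Finset.sum_add_distrib, Finset.sum_sub_distrib, ← Finset.mul_sum]
  rw [e1, e2] at key
  have hmul : 36 * (36 / 1000 + (θ - 1) / 10) ≤ w * (36 / 1000 + (θ - 1) / 10) := by
    apply mul_le_mul_of_nonneg_right hw36
    linarith
  rw [b1, b3, b4] at a2
  rw [b2, b3] at a3
  rw [b5]
  nlinarith

theorem stepA {v : V} {F : Finset (Finset V)} (hF : DC F) (hv : {v} ∈ F) {θ : ℝ}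
    (h1 : 1 ≤ θ) (h2 : θ ≤ 3 / 2) (hu2 : 2 ≤ (lk v F).card) :
    FL θ (del v F) + ∑ x ∈ lk v F, cA θ x.card ≤ FL θ F := by
  rcases le_or_gt (lk v F).card 36 with h | h
  · exact stepA_small hF hv h1 h2 hu2 h
  · exact stepA_big hF hv h1 h2 h

/-- cost claim for `1 ≤ θ ≤ 3/2` -/
theorem claimA {θ : ℝ} (h1 : 1 ≤ θ) (h2 : θ ≤ 3 / 2) : ∀ F : Finset (Finset V), DC F →
    ∃ lam : Finset V → ℝ, (∀ x ∈ F.erase ∅, lam x = 3 ∨ (x.card = 1 ∧ lam x = 2 * θ)) ∧
      ∑ x ∈ F.erase ∅, (lam x / 2 - θ) / 2
        + ∑ x ∈ F.erase ∅, fc (fun x y => 1 / (lam x + lam y)) x ≤ FL θ F := by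
  apply DC.induction'
  intro F hF ih
  by_cases hex : ∃ v, {v} ∈ F
  · obtain ⟨v, hv⟩ := hex
    obtain ⟨lam', hl1, hl2⟩ := ih v hv
    have hL := hF.lk hv
    classical
    set μ : ℝ := if (lk v F).card = 1 then 2 * θ else 3 with hμ
    set lam : Finset V → ℝ := fun x => if v ∈ x then μ else lam' x with hlam
    have hmem : ∀ x ∈ F.erase ∅, v ∉ x → x ∈ (del v F).erase ∅ := by
      intro x hx hvx
      rw [Finset.mem_erase, mem_del]
      exact ⟨Finset.ne_of_mem_erase hx, Finset.mem_of_mem_erase hx, hvx⟩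
    have hold : ∀ x ∈ (del v F).erase ∅, v ∉ x := fun x hx =>
      not_mem_del x (Finset.mem_of_mem_erase hx)
    refine ⟨lam, ?_, ?_⟩
    · intro x hx
      by_cases hvx : v ∈ x
      · simp only [hlam, if_pos hvx, hμ]
        by_cases hc : (lk v F).card = 1
        · right
          have hLe : lk v F = {∅} := by
            obtain ⟨a, ha⟩ := Finset.card_eq_one.mp hc
            have := hL.empty
            rw [ha, Finset.mem_singleton] at this
            rw [ha, this]
          have hx2 : x.erase v ∈ lk v F := by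
            rw [mem_lk, Finset.insert_erase hvx]
            exact ⟨hF.down x (Finset.mem_of_mem_erase hx) _ (Finset.erase_subset _ _),
              Finset.notMem_erase _ _, Finset.mem_of_mem_erase hx⟩
          rw [hLe, Finset.mem_singleton] at hx2
          have h3 : x = {v} := by
            rw [← Finset.insert_erase hvx, hx2]
            simp
          rw [if_pos hc, h3]
          exact ⟨Finset.card_singleton v, rfl⟩
        · left
          rw [if_neg hc]
      · simp only [hlam, if_neg hvx]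
        exact hl1 x (hmem x hx hvx)
    · rw [hF.sum_split_erase v, hF.sum_split_erase v]
      have e1 : ∑ x ∈ (del v F).erase ∅, (lam x / 2 - θ) / 2
          = ∑ x ∈ (del v F).erase ∅, (lam' x / 2 - θ) / 2 := by
        apply Finset.sum_congr rfl; intro x hx
        simp only [hlam, if_neg (hold x hx)]
      have e2 : ∑ x ∈ (del v F).erase ∅, fc (fun x y => 1 / (lam x + lam y)) x
          = ∑ x ∈ (del v F).erase ∅, fc (fun x y => 1 / (lam' x + lam' y)) x := by
        apply Finset.sum_congr rfl; intro x hx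
        rw [fc, fc]
        apply Finset.sum_congr rfl; intro w _
        have h3 : v ∉ x.erase w := fun h => hold x hx (Finset.mem_of_mem_erase h)
        simp only [hlam, if_neg (hold x hx), if_neg h3]
      rw [e1, e2]
      by_cases hc : (lk v F).card = 1
      · have hLe : lk v F = {∅} := by
          obtain ⟨a, ha⟩ := Finset.card_eq_one.mp hc
          have := hL.empty
          rw [ha, Finset.mem_singleton] at this
          rw [ha, this]
        have h3 := FL_mono (v := v) hF θ
        have e3 : ∑ x ∈ lk v F, (lam (insert v x) / 2 - θ) / 2 = 0 := by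
          rw [hLe, Finset.sum_singleton]
          simp only [hlam, Finset.mem_insert_self, if_true, hμ, if_pos hc]
          ring
        have e4 : ∑ x ∈ lk v F, fc (fun x y => 1 / (lam x + lam y)) (insert v x) = 0 := by
          rw [hLe, Finset.sum_singleton, fc_insert _ (by simp)]
          simp
        rw [e3, e4]
        linarith
      · have hcard2 : 2 ≤ (lk v F).card := by
          have := Finset.card_pos.mpr ⟨∅, hL.empty⟩
          omega
        have h3 := stepA hF hv h1 h2 hcard2
        have e5 : ∑ x ∈ lk v F, ((lam (insert v x) / 2 - θ) / 2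
            + fc (fun x y => 1 / (lam x + lam y)) (insert v x)) ≤ ∑ x ∈ lk v F, cA θ x.card := by
          apply Finset.sum_le_sum; intro x hx
          have hvx := not_mem_lk x hx
          have hl : ∀ y : Finset V, v ∈ y → lam y = 3 := by
            intro y hy
            simp only [hlam, if_pos hy, hμ, if_neg hc]
          have e6 : ∑ w ∈ x, (fun x y => 1 / (lam x + lam y)) (insert v x) ((insert v x).erase w)
              = x.card / 6 := by
            have e7 : ∀ w ∈ x, (fun x y => 1 / (lam x + lam y)) (insert v x)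
                ((insert v x).erase w) = 1 / 6 := by
              intro w hw
              have h4 : v ∈ (insert v x).erase w := by
                rw [Finset.mem_erase]
                refine ⟨?_, Finset.mem_insert_self _ _⟩
                rintro rfl
                exact hvx hw
              simp only [hl _ (Finset.mem_insert_self v x), hl _ h4]
              norm_num
            rw [Finset.sum_congr rfl e7, Finset.sum_const, nsmul_eq_mul]
            ring
          rw [fc_insert _ hvx, e6, hl _ (Finset.mem_insert_self v x), cA]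
          by_cases hx0 : x = ∅
          · subst hx0
            norm_num
          · have hxc : x.card ≠ 0 := by
              rw [Ne, Finset.card_eq_zero]; exact hx0
            rw [if_neg hx0, if_neg hxc]
            have hxm : x ∈ (del v F).erase ∅ := by
              rw [Finset.mem_erase]
              exact ⟨hx0, lk_subset_del v F hx⟩
            have hlx : lam x = lam' x := by simp only [hlam, if_neg hvx]
            rw [hlx]
            rcases hl1 x hxm with h4 | ⟨h4, h5⟩
            · rw [h4]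
              split_ifs
              · have : 0 ≤ (3 - 2 * θ) / 30 := by linarith
                norm_num
                linarith
              · norm_num
                linarith
            · rw [h5, if_pos h4]
              have h6 : 1 / (3 + 2 * θ) ≤ 1 / 6 + (3 - 2 * θ) / 30 := by
                rw [div_le_iff₀ (by linarith)]
                nlinarith
              linarith
        rw [Finset.sum_add_distrib] at e5
        linarith
  · refine ⟨fun _ => 3, fun _ _ => Or.inl rfl, ?_⟩
    have hFe : F.erase ∅ = ∅ := by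
      rw [Finset.eq_empty_iff_forall_notMem]
      intro x hx
      obtain ⟨a, ha⟩ := Finset.nonempty_iff_ne_empty.mpr (Finset.ne_of_mem_erase hx)
      exact hex ⟨a, hF.down x (Finset.mem_of_mem_erase hx) _ (by simpa using ha)⟩
    rw [hFe, Finset.sum_empty, Finset.sum_empty, add_zero]
    exact pp_nonneg _ _

/-- (P) for `1 ≤ θ ≤ 3/2`. -/
theorem PA {F : Finset (Finset V)} (hF : DC F) {sg : Finset V → Finset V → ℝ}
    (hsg : ∀ x y, |sg x y| ≤ 1) {θ : ℝ} (h1 : 1 ≤ θ) (h2 : θ ≤ 3 / 2) :
    pp (F.erase ∅) (fun x y => Dk sg x y - θ * dl x y) ≤ FL θ F := by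
  obtain ⟨lam, hl, hle⟩ := claimA h1 h2 F hF
  refine le_trans ?_ hle
  have hl3 : ∀ x ∈ F.erase ∅, 2 * θ ≤ lam x := by
    intro x hx
    rcases hl x hx with h | ⟨_, h⟩ <;> rw [h] <;> linarith
  have h3 := dirac_local (S := F.erase ∅) (X := F.erase ∅) (Finset.Subset.refl _) hsg
    (by linarith : (0 : ℝ) ≤ θ) lam hl3 (fun x hx => by linarith [hl3 x hx])
    (fun x hx h => absurd hx h) (by intro P hP; simp)
  refine h3.trans (le_of_eq ?_)
  congr 1
  rw [← sum_Fa hF]
  apply Finset.sum_congr rfl; intro x hx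
  apply Finset.sum_congr rfl; intro y hy
  by_cases hFa : Fa x y
  · rw [if_pos ⟨hFa, Or.inl hx⟩, if_pos hFa]
  · rw [if_neg (fun h => hFa h.1), if_neg hFa]

end Pool.Agent.Lib.MP_0ad4be_co.Full
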