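import Mathlib
import Pool.Agent.Lib.MP_0ad4be_co.LocalA

set_option autoImplicit false
set_option linter.unusedSectionVars false

namespace Pool.Agent.Lib.MP_0ad4be_co.Full

open Finset

variable {V : Type*} [DecidableEq V]

/-- cost of one set of the star, in units of `1 / (4 θ)`; `R` marks the final complex -/
noncomputable def cB (R : Finset (Finset V)) (x : Finset V) : ℝ :=
  (if x = ∅ then 0 else (if x ∈ R then 2 else 1)) + x.card

theorem cB_le (R : Finset (Finset V)) (x : Finset V) (hx : x ≠ ∅) : cB R x ≤ 2 + x.card := by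
  rw [cB, if_neg hx]
  split_ifs <;> linarith

theorem sum_cB_le {L R : Finset (Finset V)} (hL : DC L) :
    ∑ x ∈ L, cB R x ≤ 2 * ((L.card : ℝ) - 1) + ∑ x ∈ L, (x.card : ℝ) := by
  rw [← Finset.add_sum_erase _ _ hL.empty, ← Finset.add_sum_erase L (fun x => (x.card : ℝ))
    hL.empty]
  have h1 : ∑ x ∈ L.erase ∅, cB R x ≤ ∑ x ∈ L.erase ∅, (2 + (x.card : ℝ)) :=
    Finset.sum_le_sum fun x hx => cB_le R x (Finset.ne_of_mem_erase hx)
  rw [Finset.sum_add_distrib, Finset.sum_const, nsmul_eq_mul, Finset.card_erase_of_mem hL.empty,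
    Nat.cast_sub (Finset.card_pos.mpr ⟨∅, hL.empty⟩)] at h1
  have h2 : cB R ∅ = 0 := by simp [cB]
  rw [h2, Finset.card_empty]
  push_cast at h1 ⊢
  linarith

/-- small stars, `θ ≤ 12` -/
theorem stepB_small {v : V} {F : Finset (Finset V)} (hF : DC F) (hv : {v} ∈ F) {θ : ℝ}
    (h1 : 3 / 2 ≤ θ) (h2 : θ ≤ 12) (hr : θ + 1 < (lk v F).card) (hu : (lk v F).card ≤ 36)
    (R : Finset (Finset V)) :
    FL θ (del v F) + 1 / (4 * θ) * ∑ x ∈ lk v F, cB R x ≤ FL θ F := by
  have hL := hF.lk hv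
  have h3 := FL_O1 hF hv θ
  have h4 := sum_card_le (lk v F) hL hu
  have h5 := sum_cB_le (R := R) hL
  set u : ℝ := ((lk v F).card : ℝ) with hudef
  have h6 : (∑ x ∈ lk v F, (x.card : ℝ)) ≤ (E (lk v F).card : ℝ) := by
    have e1 : ((∑ x ∈ lk v F, x.card : ℕ) : ℝ) ≤ (E (lk v F).card : ℝ) := by exact_mod_cast h4
    push_cast at e1
    exact e1
  have h7 : ∑ x ∈ lk v F, cB R x ≤ 4 * θ * (u - θ) := by
    rcases Nat.lt_or_ge (lk v F).card 16 with h | h
    · have h8 := E_le1 _ (by omega : (lk v F).card ≤ 15)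
        (Finset.card_pos.mpr ⟨∅, hL.empty⟩)
      have h9 : (E (lk v F).card : ℝ) ≤ 2 * (u - 1) := by
        have : ((E (lk v F).card : ℕ) : ℝ) ≤ ((2 * ((lk v F).card - 1) : ℕ) : ℝ) := by
          exact_mod_cast h8
        rw [Nat.cast_mul, Nat.cast_sub (Finset.card_pos.mpr ⟨∅, hL.empty⟩), ← hudef] at this
        push_cast at this
        exact this
      nlinarith [mul_nonneg (sub_nonneg.mpr h1) (by linarith : 0 ≤ u - 1 - θ)]
    · have h8 := E_le2 _ hu (by omega)
      have h9 : (E (lk v F).card : ℝ) + 7 ≤ 4 * u := by rw [hudef]; exact_mod_cast h8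
      have h10 : (16 : ℝ) ≤ u := by rw [hudef]; exact_mod_cast h
      nlinarith [mul_nonneg (sub_nonneg.mpr h1) (sub_nonneg.mpr h2),
        mul_nonneg (sub_nonneg.mpr h1) (sub_nonneg.mpr h10)]
  have h8 : 1 / (4 * θ) * ∑ x ∈ lk v F, cB R x ≤ u - θ := by
    rw [one_div, inv_mul_le_iff₀ (by linarith)]
    exact h7
  linarith

/-- small stars, `θ ≥ 12` -/
theorem stepD_small {v : V} {F : Finset (Finset V)} (hF : DC F) (hv : {v} ∈ F) {θ : ℝ}
    (h1 : 12 ≤ θ) (hr : 3 / 2 * θ < (lk v F).card) (hu : ((lk v F).card : ℝ) ≤ 5 / 2 * θ + 1)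
    (R : Finset (Finset V)) :
    FL θ (del v F) + 1 / (4 * θ) * ∑ x ∈ lk v F, cB R x ≤ FL θ F := by
  have hL := hF.lk hv
  have h3 := FL_O1 hF hv θ
  have h5 := sum_cB_le (R := R) hL
  set u : ℝ := ((lk v F).card : ℝ) with hudef
  have h6 : (∑ x ∈ lk v F, (x.card : ℝ)) ≤ u * (u / 2) := by
    calc (∑ x ∈ lk v F, (x.card : ℝ)) ≤ ∑ x ∈ lk v F, (u / 2) := by
          apply Finset.sum_le_sum; intro x hx
          have e1 : x.powerset ⊆ lk v F := fun y hy => hL.down x hx y (Finset.mem_powerset.mp hy)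
          have e2 := Finset.card_le_card e1
          rw [Finset.card_powerset] at e2
          have e3 : 2 * x.card ≤ 2 ^ x.card := by
            have : ∀ n : ℕ, 2 * n ≤ 2 ^ n := by
              intro n
              induction n with
              | zero => norm_num
              | succ k ih =>
                rcases k with _ | k
                · norm_num
                · rw [pow_succ]; omega
            exact this _
          have e4 : 2 * x.card ≤ (lk v F).card := e3.trans e2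
          have e5 : 2 * (x.card : ℝ) ≤ u := by rw [hudef]; exact_mod_cast e4
          linarith
      _ = u * (u / 2) := by rw [Finset.sum_const, nsmul_eq_mul]
  have h7 : ∑ x ∈ lk v F, cB R x ≤ 4 * θ * (u - θ) := by
    have hu18 : 18 ≤ u := by linarith
    nlinarith [mul_nonneg (by linarith : 0 ≤ θ - (u - 1) / (5 / 2)) (by linarith : 0 ≤ 2 * u / 3 - θ)]
  have h8 : 1 / (4 * θ) * ∑ x ∈ lk v F, cB R x ≤ u - θ := by
    rw [one_div, inv_mul_le_iff₀ (by linarith)]
    exact h7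
  linarith

/-- pointwise inequality for large stars: `ρ` is the excess for membership in `R` -/
theorem pointB {θ ρ : ℝ} (h1 : 3 / 2 ≤ θ) (s : ℕ) (hρ1 : ρ ≤ 1)
    (hρ : θ < 3 → 2 ≤ s → ρ ≤ 0) :
    (1 + ρ + (s + 1)) / 4 + (5455 / 10000 * θ - 72 / 100 - (if θ < 3 then 0 else 1 / 4))
      ≤ (θ - 114 / 100)
        + 44 / 100 * (p0 (s + 1 + 1) - θ * (pe (s + 1) + 22440 / 47089 * po (s + 1)))
        + 70 / 100 * (289 / 625 + 287 / 625 * (1 / 2) ^ (s + 1) + 287 / 625 * p0 (s + 1)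
          - θ * (336 / 961 * po (s + 1))) := by
  rcases s with _ | _ | _ | _ | _ | _ | _ | n
  · norm_num [p0, tb, pe, po, Nat.even_iff, Nat.odd_iff]; split_ifs <;> linarith
  · norm_num [p0, tb, pe, po, Nat.even_iff, Nat.odd_iff]; split_ifs <;> linarith
  · norm_num [p0, tb, pe, po, Nat.even_iff, Nat.odd_iff]
    split_ifs with h
    · have := hρ h (by norm_num); linarith
    · linarith
  · norm_num [p0, tb, pe, po, Nat.even_iff, Nat.odd_iff]
    split_ifs with h
    · have := hρ h (by norm_num); linarith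
    · linarith
  · norm_num [p0, tb, pe, po, Nat.even_iff, Nat.odd_iff]
    split_ifs with h
    · have := hρ h (by norm_num); linarith
    · linarith
  · norm_num [p0, tb, pe, po, Nat.even_iff, Nat.odd_iff]
    split_ifs with h
    · have := hρ h (by norm_num); linarith
    · linarith
  · norm_num [p0, tb, pe, po, Nat.even_iff, Nat.odd_iff]
    split_ifs with h
    · have := hρ h (by norm_num); linarith
    · linarith
  · have hn : (0 : ℝ) ≤ n := Nat.cast_nonneg n
    have e1 := po_add_pe (n + 7 + 1)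
    have e2 := pe_nonneg (n + 7 + 1)
    have e3 := po_nonneg (n + 7 + 1)
    have e4 : p0 (n + 7 + 1) = 29931 / 10000 + 11 / 20 * n := by simp only [p0, tb]
    have e5 : p0 (n + 7 + 1 + 1) = 29931 / 10000 + 11 / 20 * (n + 1) := by
      simp only [p0, tb]; push_cast; ring
    have e6 : (0 : ℝ) ≤ (1 / 2) ^ (n + 7 + 1) := by positivity
    have e8 : pe (n + 7 + 1) = 1 - po (n + 7 + 1) := by linarith
    have e9 : θ * po (n + 7 + 1) ≤ θ := by nlinarith
    rw [e4, e5, e8]
    have e10 : 0 ≤ θ * po (n + 7 + 1) := mul_nonneg (by linarith) e3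
    push_cast
    split_ifs with h
    · have := hρ h (by omega)
      nlinarith
    · nlinarith

theorem lin3 {β : Type*} (S : Finset β) (f1 f2 f3 : β → ℝ) (a b c d : ℝ) :
    ∑ x ∈ S, a * (f1 x + b * f2 x - c * (d * f3 x))
      = a * (∑ x ∈ S, f1 x + b * ∑ x ∈ S, f2 x - c * (d * ∑ x ∈ S, f3 x)) := by
  simp only [Finset.sum_add_distrib, Finset.sum_sub_distrib, ← Finset.mul_sum]

theorem arith_big {θ w m C D S1 S2 S3 S4 S5 : ℝ} (hθ : 3 / 2 ≤ θ) (a1 : w + 1 - θ ≤ D)
    (a2 : (9523 / 10000 + S1) - θ * ((1 + S4) + 22440 / 47089 * (1 + (0 + S5))) ≤ D)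
    (a3 : 287 / 625 * S2 + (289 / 625 + 287 / 625 * 1 + S3) + 48 / 625
      - θ * (1 + 336 / 961 * (1 + (0 + S5))) ≤ D)
    (key : C / 4 + w * m ≤ w * (θ - 114 / 100)
        + 44 / 100 * (S1 - θ * (S4 + 22440 / 47089 * S5))
        + 70 / 100 * (S3 + 287 / 625 * S2 - θ * (336 / 961 * S5)))
    (hmul : θ ^ 2 - 5455 / 10000 * θ + 1 / 2 ≤ w * m) : C / 4 ≤ θ * D := by
  have k1 := mul_le_mul_of_nonneg_left a1 (by linarith : (0 : ℝ) ≤ θ - 114 / 100)
  nlinarith

theorem stepB_big {v : V} {F : Finset (Finset V)} (hF : DC F) (hv : {v} ∈ F) {θ : ℝ}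
    (h1 : 3 / 2 ≤ θ)
    (hu : (θ ≤ 12 ∧ 37 ≤ (lk v F).card) ∨ (12 ≤ θ ∧ 5 / 2 * θ + 1 < (lk v F).card))
    (R : Finset (Finset V)) (hR : θ < 3 → ∀ x ∈ R, x.card ≤ 2) :
    FL θ (del v F) + 1 / (4 * θ) * ∑ x ∈ lk v F, cB R x ≤ FL θ F := by
  have hL := hF.lk hv
  have hθ : 0 < θ := by linarith
  have a1 := FL_O1 hF hv θ
  have a2 := FL_O2' hF hv hθ.le
  have a3 := FL_O3' hF hv hθ.le
  set L := lk v F with hLdef
  set w : ℝ := ((L.erase ∅).card : ℝ) with hw
  have hwc : (L.card : ℝ) = w + 1 := by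
    rw [hw, Finset.card_erase_of_mem hL.empty,
      Nat.cast_sub (Finset.card_pos.mpr ⟨∅, hL.empty⟩)]
    push_cast; ring
  have b1 := sum_over_erase hL (fun s => p0 (s + 1))
  have b2 := sum_over_erase hL (fun s => (289 / 625 + 287 / 625 * (1 / 2 : ℝ) ^ s))
  have b3 := sum_over_erase hL po
  have b4 := sum_over_erase hL pe
  rw [← no_eq] at b3
  rw [← ne_eq] at b4
  have c0 : p0 (0 + 1) = 9523 / 10000 := by norm_num [p0, tb]
  have c1 : po 0 = 0 := by norm_num [po]
  have c2 : pe 0 = 1 := by norm_num [pe]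
  simp only [c0, c1, c2, pow_zero] at b1 b2 b3 b4
  set m : ℝ := 5455 / 10000 * θ - 72 / 100 - (if θ < 3 then 0 else 1 / 4) with hm
  have key : ∑ x ∈ L.erase ∅, (cB R x / 4 + m)
      ≤ ∑ x ∈ L.erase ∅, ((θ - 114 / 100)
        + 44 / 100 * (p0 (x.card + 1) - θ * (pe x.card + 22440 / 47089 * po x.card))
        + 70 / 100 * (289 / 625 + 287 / 625 * (1 / 2) ^ x.card + 287 / 625 * p0 x.card
          - θ * (336 / 961 * po x.card))) := by
    apply Finset.sum_le_sum; intro x hx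
    obtain ⟨k, hk⟩ := card_pos_of_mem hx
    have h3 := pointB (θ := θ) (ρ := if x ∈ R then 1 else 0) h1 k (by split_ifs <;> norm_num)
      (by
        intro h4 h5
        split_ifs with h6
        · have := hR h4 x h6
          omega
        · exact le_rfl)
    rw [hk]
    refine le_trans (le_of_eq ?_) h3
    rw [cB, if_neg (Finset.ne_of_mem_erase hx), hk, hm]
    push_cast
    split_ifs <;> ring
  have e1 : ∑ x ∈ L.erase ∅, (cB R x / 4 + m)
      = (∑ x ∈ L.erase ∅, cB R x) / 4 + w * m := by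
    rw [Finset.sum_add_distrib, Finset.sum_const, nsmul_eq_mul, Finset.sum_div]
  have e2 : ∑ x ∈ L.erase ∅, ((θ - 114 / 100)
        + 44 / 100 * (p0 (x.card + 1) - θ * (pe x.card + 22440 / 47089 * po x.card))
        + 70 / 100 * (289 / 625 + 287 / 625 * (1 / 2) ^ x.card + 287 / 625 * p0 x.card
          - θ * (336 / 961 * po x.card)))
      = w * (θ - 114 / 100)
        + 44 / 100 * (∑ x ∈ L.erase ∅, p0 (x.card + 1) - θ * (∑ x ∈ L.erase ∅, pe x.card
          + 22440 / 47089 * ∑ x ∈ L.erase ∅, po x.card))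
        + 70 / 100 * (∑ x ∈ L.erase ∅, (289 / 625 + 287 / 625 * (1 / 2) ^ x.card)
          + 287 / 625 * ∑ x ∈ L.erase ∅, p0 x.card
          - θ * (336 / 961 * ∑ x ∈ L.erase ∅, po x.card)) := by
    have X1 : ∑ x ∈ L.erase ∅, 44 / 100 * (p0 (x.card + 1) - θ * (pe x.card
        + 22440 / 47089 * po x.card))
        = 44 / 100 * (∑ x ∈ L.erase ∅, p0 (x.card + 1) - θ * (∑ x ∈ L.erase ∅, pe x.card
          + 22440 / 47089 * ∑ x ∈ L.erase ∅, po x.card)) := by
      simp only [Finset.sum_add_distrib, Finset.sum_sub_distrib, ← Finset.mul_sum]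
    have X2 : ∑ x ∈ L.erase ∅, 70 / 100 * (289 / 625 + 287 / 625 * (1 / 2) ^ x.card
          + 287 / 625 * p0 x.card - θ * (336 / 961 * po x.card))
        = 70 / 100 * (∑ x ∈ L.erase ∅, (289 / 625 + 287 / 625 * (1 / 2) ^ x.card)
          + 287 / 625 * ∑ x ∈ L.erase ∅, p0 x.card
          - θ * (336 / 961 * ∑ x ∈ L.erase ∅, po x.card)) :=
      lin3 (L.erase ∅) (fun x => 289 / 625 + 287 / 625 * (1 / 2) ^ x.card) (fun x => p0 x.card)
        (fun x => po x.card) (70 / 100) (287 / 625) θ (336 / 961)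
    rw [Finset.sum_add_distrib, Finset.sum_add_distrib, X1, X2, Finset.sum_const, nsmul_eq_mul]
  rw [e1, e2] at key
  have b5 : ∑ x ∈ L, cB R x = ∑ x ∈ L.erase ∅, cB R x := by
    rw [← Finset.add_sum_erase _ _ hL.empty]
    simp [cB]
  -- the constant term
  have hmul : θ ^ 2 - 5455 / 10000 * θ + 1 / 2 ≤ w * m := by
    clear key e1 e2 a1 a2 a3 b1 b2 b3 b4 b5
    rcases hu with ⟨h5, h6⟩ | ⟨h5, h6⟩
    · have hw36 : 36 ≤ w := by
        have : (37 : ℝ) ≤ (L.card : ℝ) := by exact_mod_cast h6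
        linarith
      rw [hm]
      split_ifs with h7
      · have : 0 ≤ 5455 / 10000 * θ - 72 / 100 - 0 := by linarith
        nlinarith
      · push Not at h7
        have : 0 ≤ 5455 / 10000 * θ - 72 / 100 - 1 / 4 := by linarith
        nlinarith
    · have hw2 : 5 / 2 * θ ≤ w := by linarith
      rw [hm, if_neg (by linarith)]
      have : 0 ≤ 5455 / 10000 * θ - 72 / 100 - 1 / 4 := by linarith
      nlinarith
  rw [hwc] at a1
  rw [b1, b3, b4] at a2
  rw [b2, b3] at a3
  have h9 : (∑ x ∈ L, cB R x) / 4 ≤ θ * (FL θ F - FL θ (del v F)) := by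
    rw [b5]
    exact arith_big h1 (by linarith only [a1]) (by linarith only [a2]) (by linarith only [a3])
      key hmul
  have h10 : 1 / (4 * θ) * ∑ x ∈ L, cB R x ≤ FL θ F - FL θ (del v F) := by
    rw [one_div, inv_mul_le_iff₀ (by linarith only [hθ])]
    linarith only [h9]
  linarith only [h10]

end Pool.Agent.Lib.MP_0ad4be_co.Full
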