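import Mathlib
import Pool.Agent.Lib.MP_0ad4be_co.LocalB

set_option autoImplicit false
set_option linter.unusedSectionVars false

namespace Pool.Agent.Lib.MP_0ad4be_co.Full

open Finset

variable {V : Type*} [DecidableEq V]

/-- pair cost in units of `1 / (4 θ)` -/
noncomputable def KR (R : Finset (Finset V)) (x y : Finset V) : ℝ :=
  if x ∈ R then (if y ∈ R then 0 else 2) else (if y ∈ R then 2 else 1)

theorem claimB {θ r : ℝ} (h1 : 3 / 2 ≤ θ)
    (hr : (θ ≤ 12 ∧ r = θ + 1) ∨ (12 ≤ θ ∧ r = 3 / 2 * θ)) :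
    ∀ F : Finset (Finset V), DC F → ∃ G : Finset (Finset V), DC G ∧ G ⊆ F ∧
      (∀ v, {v} ∈ G → ((lk v G).card : ℝ) ≤ r) ∧
      1 / (4 * θ) * ∑ x ∈ F.erase ∅, fc (KR (G.erase ∅)) x ≤ FL θ F := by
  apply DC.induction'
  intro F hF ih
  by_cases hex : ∃ v, {v} ∈ F ∧ r < ((lk v F).card : ℝ)
  · obtain ⟨v, hv, hbig⟩ := hex
    obtain ⟨G, hG, hGF, hGr, hle⟩ := ih v hv
    have hold : ∀ x ∈ (del v F).erase ∅, v ∉ x := fun x hx =>
      not_mem_del x (Finset.mem_of_mem_erase hx)
    refine ⟨G, hG, hGF.trans (Finset.filter_subset _ _), hGr, ?_⟩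
    set R := G.erase ∅ with hR
    have hRv : ∀ x ∈ R, v ∉ x := fun x hx => not_mem_del x (hGF (Finset.mem_of_mem_erase hx))
    have hRs : θ < 3 → ∀ x ∈ R, x.card ≤ 2 := by
      intro hθ3 x hx
      have hr' : r = θ + 1 := by
        rcases hr with ⟨_, h⟩ | ⟨h, _⟩
        · exact h
        · linarith
      obtain ⟨a, ha⟩ := Finset.nonempty_iff_ne_empty.mpr (Finset.ne_of_mem_erase hx)
      have hxG := Finset.mem_of_mem_erase hx
      have haG : {a} ∈ G := hG.down x hxG _ (by simpa using ha)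
      have h2 := up_le hG hxG ha
      have h3 := hGr a haG
      have h4 : 0 ≤ up (G.erase ∅) x := by unfold up; positivity
      by_contra hcon
      push Not at hcon
      have h5 : (4 : ℝ) ≤ 2 ^ (x.card - 1) := by
        calc (4 : ℝ) = 2 ^ 2 := by norm_num
          _ ≤ 2 ^ (x.card - 1) := pow_le_pow_right₀ (by norm_num) (by omega)
      nlinarith
    rw [hF.sum_split_erase v]
    have e1 : ∀ x ∈ lk v F, fc (KR R) (insert v x) = cB R x := by
      intro x hx
      have hvx := not_mem_lk x hx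
      have hn : ∀ y : Finset V, v ∈ y → y ∉ R := fun y hy h => hRv y h hy
      have e6 : ∑ w ∈ x, KR R (insert v x) ((insert v x).erase w) = x.card := by
        have e7 : ∀ w ∈ x, KR R (insert v x) ((insert v x).erase w) = 1 := by
          intro w hw
          have h4 : v ∈ (insert v x).erase w := by
            rw [Finset.mem_erase]
            refine ⟨?_, Finset.mem_insert_self _ _⟩
            rintro rfl
            exact hvx hw
          rw [KR, if_neg (hn _ (Finset.mem_insert_self v x)), if_neg (hn _ h4)]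
        rw [Finset.sum_congr rfl e7, Finset.sum_const, nsmul_eq_mul, mul_one]
      rw [fc_insert _ hvx, e6, cB, KR, if_neg (hn _ (Finset.mem_insert_self v x))]
    rw [Finset.sum_congr rfl e1, mul_add]
    have hstep : FL θ (del v F) + 1 / (4 * θ) * ∑ x ∈ lk v F, cB R x ≤ FL θ F := by
      rcases hr with ⟨h2, h3⟩ | ⟨h2, h3⟩
      · rw [h3] at hbig
        rcases le_or_gt (lk v F).card 36 with h | h
        · exact stepB_small hF hv h1 h2 hbig h R
        · exact stepB_big hF hv h1 (Or.inl ⟨h2, h⟩) R hRs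
      · rw [h3] at hbig
        rcases le_or_gt ((lk v F).card : ℝ) (5 / 2 * θ + 1) with h | h
        · exact stepD_small hF hv h2 hbig h R
        · exact stepB_big hF hv h1 (Or.inr ⟨h2, h⟩) R hRs
    linarith
  · push Not at hex
    refine ⟨F, hF, Finset.Subset.refl _, hex, ?_⟩
    have h2 : ∑ x ∈ F.erase ∅, fc (KR (F.erase ∅)) x = 0 := by
      apply Finset.sum_eq_zero
      intro x hx
      rw [fc]
      apply Finset.sum_eq_zero
      intro w _
      split_ifs with h
      · rfl
      · have h3 : x.erase w ∈ F.erase ∅ := by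
          rw [Finset.mem_erase]
          exact ⟨h, hF.down x (Finset.mem_of_mem_erase hx) _ (Finset.erase_subset _ _)⟩
        rw [KR, if_pos hx, if_pos h3]
    rw [h2, mul_zero]
    exact pp_nonneg _ _

/-- weights for the Schur test -/
noncomputable def mw (θ : ℝ) (s : ℕ) : ℝ :=
  if s = 2 then (if θ < 2 then 2 / 3 else if θ < 12 then 1 else 2) else 1

theorem mw_pos (θ : ℝ) (s : ℕ) : 0 < mw θ s := by
  unfold mw; split_ifs <;> norm_num

theorem two_pow_ge1 (s : ℕ) : s + 3 + 1 ≤ 2 ^ (s + 2) := by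
  induction s with
  | zero => norm_num
  | succ k ih => rw [show k + 1 + 2 = (k + 2) + 1 by ring, pow_succ]; omega

theorem two_pow_ge2 (s : ℕ) : 2 * (s + 4) ≤ 2 ^ (s + 3) := by
  induction s with
  | zero => norm_num
  | succ k ih => rw [show k + 1 + 3 = (k + 3) + 1 by ring, pow_succ]; omega

theorem schur_cond {θ r : ℝ} (h1 : 3 / 2 ≤ θ)
    (hr : (θ < 12 ∧ r = θ + 1) ∨ (12 ≤ θ ∧ r = 3 / 2 * θ)) {G : Finset (Finset V)} (hG : DC G)
    (hGr : ∀ v, {v} ∈ G → ((lk v G).card : ℝ) ≤ r) :
    ∀ x ∈ G.erase ∅, mw θ x.card * dn (G.erase ∅) x + up (G.erase ∅) x / mw θ (x.card + 1)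
      ≤ θ := by
  intro x hx
  obtain ⟨a, ha⟩ := Finset.nonempty_iff_ne_empty.mpr (Finset.ne_of_mem_erase hx)
  have hxG := Finset.mem_of_mem_erase hx
  have haG : {a} ∈ G := hG.down x hxG _ (by simpa using ha)
  have h2 := (up_le hG hxG ha).trans (hGr a haG)
  have h3 := dn_le hG hxG
  obtain ⟨k, hk⟩ : ∃ k : ℕ, up (G.erase ∅) x = k := ⟨_, rfl⟩
  rw [hk] at h2 ⊢
  obtain ⟨s, hs⟩ := card_pos_of_mem hx
  rcases s with _ | _ | s
  · -- vertices
    rw [dn_one (by omega)]
    rw [hs] at h2 ⊢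
    norm_num at h2
    rw [mul_zero, zero_add, mw, if_pos (by norm_num)]
    rcases hr with ⟨h4, h5⟩ | ⟨h4, h5⟩
    · split_ifs with h6
      · have h7 : (k : ℝ) < 2 := by linarith
        have h8 : k ≤ 1 := by
          have : k < 2 := by exact_mod_cast h7
          omega
        have h9 : (k : ℝ) ≤ 1 := by exact_mod_cast h8
        rw [div_le_iff₀ (by norm_num)]
        linarith
      · linarith
    · rw [if_neg (by linarith), if_neg (by linarith)]
      linarith
  · -- edges
    rw [hs] at h2 h3 ⊢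
    norm_num at h2 h3
    have m2 : mw θ (0 + 1 + 1) = if θ < 2 then 2 / 3 else if θ < 12 then 1 else 2 := by
      simp [mw]
    have m3 : mw θ (0 + 1 + 1 + 1) = 1 := by simp [mw]
    rw [m2, m3, div_one]
    rcases hr with ⟨h4, h5⟩ | ⟨h4, h5⟩
    · split_ifs with h6
      · have h7 : (k : ℝ) < 1 := by linarith
        have h8 : k = 0 := by
          have : k < 1 := by exact_mod_cast h7
          omega
        rw [h8]
        push_cast
        linarith
      · rcases Nat.eq_zero_or_pos k with h8 | h8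
        · rw [h8]
          push_cast
          linarith
        · have h9 : (1 : ℝ) ≤ k := by exact_mod_cast h8
          linarith
    · rw [if_neg (by linarith), if_neg (by linarith)]
      linarith
  · -- the rest
    rw [hs] at h2 h3 ⊢
    have hkk : (0 : ℝ) ≤ k := Nat.cast_nonneg k
    rw [mw, if_neg (by omega), mw, if_neg (by omega), one_mul, div_one]
    have e1 : s + 1 + 1 + 1 - 1 = s + 2 := by omega
    rw [e1] at h2
    push_cast at h3
    have hsn : (0 : ℝ) ≤ s := Nat.cast_nonneg s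
    have h4 : ((s : ℝ) + 3 + 1) ≤ 2 ^ (s + 2) := by exact_mod_cast two_pow_ge1 s
    rcases hr with ⟨h5, h6⟩ | ⟨h5, h6⟩
    · nlinarith [mul_le_mul_of_nonneg_right h4 (by linarith : (0 : ℝ) ≤ 1 + k),
        mul_nonneg hsn hkk]
    · rcases s with _ | s
      · norm_num at h2 h3
        linarith
      · have h7 : (2 * ((s : ℝ) + 4)) ≤ 2 ^ (s + 3) := by exact_mod_cast two_pow_ge2 s
        have e2 : s + 1 + 2 = s + 3 := by ring
        rw [e2] at h2
        have hsn' : (0 : ℝ) ≤ s := Nat.cast_nonneg s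
        push_cast at h3
        nlinarith [mul_le_mul_of_nonneg_right h7 (by linarith : (0 : ℝ) ≤ 1 + k),
          mul_nonneg hsn' hkk]

/-- (P) for `θ ≥ 3/2`. -/
theorem PB {F : Finset (Finset V)} (hF : DC F) {sg : Finset V → Finset V → ℝ}
    (hsg : ∀ x y, |sg x y| ≤ 1) {θ : ℝ} (h1 : 3 / 2 ≤ θ) :
    pp (F.erase ∅) (fun x y => Dk sg x y - θ * dl x y) ≤ FL θ F := by
  obtain ⟨r, hr⟩ : ∃ r : ℝ, (θ < 12 ∧ r = θ + 1) ∨ (12 ≤ θ ∧ r = 3 / 2 * θ) := by
    rcases lt_or_ge θ 12 with h | h
    · exact ⟨_, Or.inl ⟨h, rfl⟩⟩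
    · exact ⟨_, Or.inr ⟨h, rfl⟩⟩
  have hr' : (θ ≤ 12 ∧ r = θ + 1) ∨ (12 ≤ θ ∧ r = 3 / 2 * θ) := by
    rcases hr with ⟨h, h'⟩ | h
    · exact Or.inl ⟨h.le, h'⟩
    · exact Or.inr h
  obtain ⟨G, hG, hGF, hGr, hle⟩ := claimB h1 hr' F hF
  refine le_trans ?_ hle
  set S := F.erase ∅ with hS
  set R := G.erase ∅ with hR
  have hRS : R ⊆ S := Finset.erase_subset_erase _ hGF
  have hθ : 0 < θ := by linarith
  have hSX : S \ (S \ R) = R := Finset.sdiff_sdiff_eq_self hRS
  have h3 := dirac_local (S := S) (X := S \ R) Finset.sdiff_subset hsg hθ.le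
    (fun x => if x ∈ S \ R then 2 * θ else 0)
    (fun x hx => by rw [if_pos hx]) (fun x hx => by rw [if_pos hx]; linarith)
    (fun x _ hx => if_neg hx)
    (by
      intro P hP
      rw [hSX]
      exact schur_R (hP.sub hRS) (mw θ) (mw_pos θ) (schur_cond h1 hr hG hGr))
  refine h3.trans (le_of_eq ?_)
  have e1 : ∑ x ∈ S \ R, ((if x ∈ S \ R then 2 * θ else 0) / 2 - θ) / 2 = 0 := by
    apply Finset.sum_eq_zero
    intro x hx
    rw [if_pos hx]; ring
  rw [e1, zero_add, ← sum_Fa hF, Finset.mul_sum]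
  apply Finset.sum_congr rfl; intro x hx
  rw [Finset.mul_sum]
  apply Finset.sum_congr rfl; intro y hy
  simp only [Finset.mem_sdiff, hx, hy, true_and, KR]
  by_cases hFa : Fa x y
  · by_cases hxR : x ∈ R <;> by_cases hyR : y ∈ R
    · simp [hxR, hyR, hFa]
    · simp only [hxR, hyR, hFa, not_true_eq_false, not_false_eq_true, true_and,
        if_true, if_false, or_true]
      field_simp
      ring
    · simp only [hxR, hyR, hFa, not_true_eq_false, not_false_eq_true, true_or,
        if_true, if_false, and_true]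
      field_simp
      ring
    · simp only [hxR, hyR, hFa, not_false_eq_true, if_true, if_false, and_true,
        or_self]
      field_simp
      ring
  · simp [hFa]

end Pool.Agent.Lib.MP_0ad4be_co.Full
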