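import Mathlib
import Pool.Agent.Lib.MP_0ad4be_co.LocalC

set_option autoImplicit false
set_option linter.unusedSectionVars false

namespace Pool.Agent.Lib.MP_0ad4be_co.Full

open Finset

/-- comparison at every real threshold -/
theorem all_theta {V : Type*} [DecidableEq V] {F : Finset (Finset V)} (hF : DC F)
    {sg : Finset V → Finset V → ℝ} (hsg : ∀ x y, |sg x y| ≤ 1) (θ : ℝ) :
    pp (F.erase ∅) (fun x y => Dk sg x y - θ * dl x y)
      ≤ pp (F.erase ∅) (fun x y => 1 - Z x y - θ * dl x y) := by
  rcases le_or_gt 0 θ with h0 | h0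
  · rcases le_total θ 1 with h1 | h1
    · exact P01 hF hsg h0 h1
    · rcases le_total θ (3 / 2) with h2 | h2
      · exact PA hF hsg h1 h2
      · exact PB hF hsg h2
  · have h1 := M_bound hF (sg := fun x y => -sg x y) (by intro x y; rw [abs_neg]; exact hsg x y)
      (θ := -θ) (by linarith)
    have h2 := pp_neg (F.erase ∅) (fun x y => Dk (fun x y => -sg x y) x y - -θ * dl x y)
    have h3 := pp_neg (F.erase ∅) (fun x y => -(1 - Z x y) - -θ * dl x y)
    have e1 : ∀ x y : Finset V, Dk (fun x y => -sg x y) x y = -Dk sg x y := by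
      intro x y
      rw [Dk, Dk]
      split_ifs <;> ring
    have e2 : ∀ x : Finset V, Dk sg x x = 0 := by
      intro x
      have : ¬ Fa x x := fun h => by
        have := h.2
        omega
      rw [Dk, if_neg this]
      ring
    have h4 : pp (F.erase ∅) (fun x y => -(Dk (fun x y => -sg x y) x y - -θ * dl x y))
        = pp (F.erase ∅) (fun x y => Dk sg x y - θ * dl x y) := by
      apply pp_congr
      intro x _ y _
      rw [e1]; ring
    have h5 : pp (F.erase ∅) (fun x y => -(-(1 - Z x y) - -θ * dl x y))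
        = pp (F.erase ∅) (fun x y => 1 - Z x y - θ * dl x y) := by
      apply pp_congr
      intros
      ring
    have h6 : ∑ x ∈ F.erase ∅, (Dk (fun x y => -sg x y) x x - -θ * dl x x)
        = (F.erase ∅).card * θ := by
      have : ∀ x ∈ F.erase ∅, (Dk (fun x y => -sg x y) x x - -θ * dl x x) = θ := by
        intro x _
        rw [e1, e2, dl_self]; ring
      rw [Finset.sum_congr rfl this, Finset.sum_const, nsmul_eq_mul]
    have h7 : ∑ x ∈ F.erase ∅, (-(1 - Z x x) - -θ * dl x x)
        = (F.erase ∅).card * θ - (F.erase ∅).card := by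
      have : ∀ x ∈ F.erase ∅, (-(1 - Z x x) - -θ * dl x x) = θ - 1 := by
        intro x hx
        rw [Z_self (Finset.ne_of_mem_erase hx), dl_self]; ring
      rw [Finset.sum_congr rfl this, Finset.sum_const, nsmul_eq_mul]
      ring
    rw [h4, h6] at h2
    rw [h5, h7] at h3
    linarith

section matrices

open Matrix

variable {n : Type*} [Fintype n] [DecidableEq n]

/-- Ky Fan with a threshold. -/
theorem threshold {A : Matrix n n ℝ} (hA : A.IsHermitian) (k : ℕ) (hk1 : 1 ≤ k)
    (hk : k ≤ Fintype.card n) : ∃ θ : ℝ, ∀ Q : Matrix n n ℝ, (∀ w, 0 ≤ w ⬝ᵥ (Q *ᵥ w)) →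
      (∀ w, w ⬝ᵥ (Q *ᵥ w) ≤ w ⬝ᵥ w) →
      (A * Q).trace - θ * Q.trace ≤ topSum A hA k - k * θ := by
  obtain ⟨U, hU1, hU2, hAU⟩ := diag hA
  refine ⟨hA.eigenvalues₀ ⟨k - 1, by omega⟩, ?_⟩
  set θ : ℝ := hA.eigenvalues₀ ⟨k - 1, by omega⟩ with hθ
  intro Q h0 h1
  set q : n → ℝ := fun i => (Uᵀ * Q * U) i i with hq
  have hqi : ∀ i, q i = (fun j => U j i) ⬝ᵥ (Q *ᵥ (fun j => U j i)) := by
    intro i
    simp only [hq, Matrix.mul_apply, Matrix.transpose_apply, dotProduct, Matrix.mulVec,
      Finset.sum_mul, Finset.mul_sum]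
    rw [Finset.sum_comm]
    apply Finset.sum_congr rfl; intro a _
    apply Finset.sum_congr rfl; intro b _
    ring
  have hq0 : ∀ i, 0 ≤ q i := fun i => by rw [hqi]; exact h0 _
  have hq1 : ∀ i, q i ≤ 1 := fun i => by
    rw [hqi]
    refine (h1 _).trans ?_
    have : (Uᵀ * U) i i = 1 := by rw [hU2]; simp
    rw [Matrix.mul_apply] at this
    simp only [Matrix.transpose_apply] at this
    rw [dotProduct, this]
  have hqs : ∑ i, q i = Q.trace := by
    have : (Uᵀ * Q * U).trace = Q.trace := by
      rw [Matrix.trace_mul_comm, ← Matrix.mul_assoc, hU1, Matrix.one_mul]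
    rw [← this]
    rfl
  have htr : (A * Q).trace = ∑ i, hA.eigenvalues i * q i := by
    have h2 : (A * Q).trace = (Matrix.diagonal hA.eigenvalues * (Uᵀ * Q * U)).trace := by
      conv_lhs => rw [hAU]
      rw [Matrix.mul_assoc, Matrix.mul_assoc, Matrix.trace_mul_comm]
      simp only [Matrix.mul_assoc]
    rw [h2]
    simp [Matrix.trace, Matrix.diagonal_mul, hq]
  rw [htr, topSum, ← hqs]
  set e := (Fintype.equivOfCardEq (Fintype.card_fin (Fintype.card n)) :
    Fin (Fintype.card n) ≃ n)
  have h3 : ∑ i, hA.eigenvalues i * q i = ∑ j, hA.eigenvalues₀ j * q (e j) := by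
    rw [← Equiv.sum_comp e]
    apply Finset.sum_congr rfl
    intro j _
    simp [Matrix.IsHermitian.eigenvalues, e]
  have h4 : ∑ i, q i = ∑ j, q (e j) := (Equiv.sum_comp e q).symm
  have hcard : ∑ i : Fin (Fintype.card n), (if (i : ℕ) < k then (1 : ℝ) else 0) = k := by
    rw [Finset.sum_ite]
    simp only [Finset.sum_const, nsmul_eq_mul, mul_one, mul_zero, add_zero]
    have : (Finset.univ.filter fun i : Fin (Fintype.card n) => (i : ℕ) < k).card = k := by
      have h2 : (Finset.univ.filter fun i : Fin (Fintype.card n) => (i : ℕ) < k)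
          = Finset.univ.map (Fin.castLEEmb hk) := by
        ext i
        simp only [Finset.mem_filter, Finset.mem_univ, true_and, Finset.mem_map,
          Fin.castLEEmb_apply]
        constructor
        · intro hi
          exact ⟨⟨i, hi⟩, by ext; simp⟩
        · rintro ⟨a, ha⟩
          rw [← ha]
          simp
      rw [h2]
      simp
    exact_mod_cast this
  rw [h3, h4, ← hcard, Finset.mul_sum, Finset.sum_mul, ← Finset.sum_sub_distrib,
    ← Finset.sum_sub_distrib]
  apply Finset.sum_le_sum
  intro j _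
  have hq0' := hq0 (e j)
  have hq1' := hq1 (e j)
  by_cases hj : (j : ℕ) < k
  · simp only [hj, if_true]
    have hle : θ ≤ hA.eigenvalues₀ j := hA.eigenvalues₀_antitone (by
      rw [Fin.le_def]
      simp only
      omega)
    nlinarith
  · simp only [hj, if_false]
    have hle : hA.eigenvalues₀ j ≤ θ := hA.eigenvalues₀_antitone (by
      rw [Fin.le_def]
      simp only
      omega)
    nlinarith

end matrices

section transfer

open Matrix

variable {α : Type*} [DecidableEq α]

theorem sum2_coe (S : Finset α) (f : α → α → ℝ) :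
    ∑ i : S, ∑ j : S, f i j = ∑ x ∈ S, ∑ y ∈ S, f x y := by
  rw [← Finset.sum_coe_sort S (fun x => ∑ y ∈ S, f x y)]
  apply Finset.sum_congr rfl; intro i _
  exact Finset.sum_coe_sort S (fun y => f i y)

/-- upper bound for spectral sums -/
theorem topSum_le_pp {S : Finset α} {K : α → α → ℝ} {A : Matrix S S ℝ} (hA : A.IsHermitian)
    (hK : ∀ i j : S, A i j = K i j) (k : ℕ) (hk : k ≤ S.card) (θ : ℝ) :
    topSum A hA k ≤ k * θ + pp S (fun x y => K x y - θ * dl x y) := by
  obtain ⟨P, h0, h1, h2, h3⟩ := exists_proj hA k (by simpa using hk)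
  set Q : α → α → ℝ := fun x y => if h : x ∈ S ∧ y ∈ S then
    (P ⟨x, h.1⟩ ⟨y, h.2⟩ + P ⟨y, h.2⟩ ⟨x, h.1⟩) / 2 else 0 with hQ
  have hQP : ∀ i j : S, Q i j = (P i j + P j i) / 2 := by
    intro i j
    simp only [hQ]
    rw [dif_pos ⟨i.2, j.2⟩]
  have hsymA : ∀ i j : S, A i j = A j i := by
    intro i j
    have := hA.apply i j
    simpa using this.symm
  have quad : ∀ w : α → ℝ, ∑ x ∈ S, ∑ y ∈ S, Q x y * (w x * w y)
      = (fun i : S => w i) ⬝ᵥ (P *ᵥ fun i : S => w i) := by
    intro w
    rw [← sum2_coe S (fun x y => Q x y * (w x * w y))]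
    have e1 : (fun i : S => w i) ⬝ᵥ (P *ᵥ fun i : S => w i)
        = ∑ i : S, ∑ j : S, P i j * (w i * w j) := by
      simp only [dotProduct, Matrix.mulVec, Finset.mul_sum]
      apply Finset.sum_congr rfl; intro i _
      apply Finset.sum_congr rfl; intro j _
      ring
    have e2 : ∑ i : S, ∑ j : S, P j i * (w i * w j) = ∑ i : S, ∑ j : S, P i j * (w i * w j) := by
      rw [Finset.sum_comm]
      apply Finset.sum_congr rfl; intro i _
      apply Finset.sum_congr rfl; intro j _
      ring
    rw [e1]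
    have e3 : ∑ i : S, ∑ j : S, Q i j * (w i * w j)
        = (∑ i : S, ∑ j : S, P i j * (w i * w j) + ∑ i : S, ∑ j : S, P j i * (w i * w j)) / 2 := by
      rw [← Finset.sum_add_distrib, Finset.sum_div]
      apply Finset.sum_congr rfl; intro i _
      rw [← Finset.sum_add_distrib, Finset.sum_div]
      apply Finset.sum_congr rfl; intro j _
      rw [hQP]; ring
    rw [e3, e2]
    ring
  have hcon : Con S Q := by
    refine ⟨?_, ?_, ?_⟩
    · intro x hx y hy
      have := hQP ⟨x, hx⟩ ⟨y, hy⟩
      have h4 := hQP ⟨y, hy⟩ ⟨x, hx⟩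
      simp only at this h4
      rw [this, h4, add_comm]
    · intro w
      rw [quad]; exact h0 _
    · intro w
      rw [quad]
      refine (h1 _).trans (le_of_eq ?_)
      rw [dotProduct, ← Finset.sum_coe_sort S (fun x => w x ^ 2)]
      apply Finset.sum_congr rfl; intro i _
      ring
  have h4 := le_pp (A := fun x y => K x y - θ * dl x y) hcon
  rw [tr_sub, tr_smul, dl_tr] at h4
  have h5 : tr S K Q = (A * P).trace := by
    rw [tr, ← sum2_coe S (fun x y => K x y * Q x y), Matrix.trace]
    have e1 : ∑ i, (A * P).diag i = ∑ i : S, ∑ j : S, A i j * P j i := by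
      simp only [Matrix.diag_apply, Matrix.mul_apply]
    have e2 : ∑ i : S, ∑ j : S, A i j * P i j = ∑ i : S, ∑ j : S, A i j * P j i := by
      rw [Finset.sum_comm]
      apply Finset.sum_congr rfl; intro i _
      apply Finset.sum_congr rfl; intro j _
      rw [hsymA]
    have e3 : ∑ i : S, ∑ j : S, K i j * Q i j
        = (∑ i : S, ∑ j : S, A i j * P i j + ∑ i : S, ∑ j : S, A i j * P j i) / 2 := by
      rw [← Finset.sum_add_distrib, Finset.sum_div]
      apply Finset.sum_congr rfl; intro i _
      rw [← Finset.sum_add_distrib, Finset.sum_div]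
      apply Finset.sum_congr rfl; intro j _
      rw [hQP, hK]; ring
    rw [e1, e3, e2]
    ring
  have h6 : ∑ x ∈ S, Q x x = k := by
    rw [← h2, ← Finset.sum_coe_sort S (fun x => Q x x), Matrix.trace]
    apply Finset.sum_congr rfl; intro i _
    rw [hQP, Matrix.diag_apply]; ring
  rw [h5, h3, h6] at h4
  linarith

/-- lower bound for spectral sums at a suitable threshold -/
theorem pp_le_topSum {S : Finset α} {K : α → α → ℝ} {A : Matrix S S ℝ} (hA : A.IsHermitian)
    (hK : ∀ i j : S, A i j = K i j) (k : ℕ) (hk1 : 1 ≤ k) (hk : k ≤ S.card) :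
    ∃ θ : ℝ, k * θ + pp S (fun x y => K x y - θ * dl x y) ≤ topSum A hA k := by
  obtain ⟨θ, hθ⟩ := threshold hA k hk1 (by simpa using hk)
  refine ⟨θ, ?_⟩
  have h1 : pp S (fun x y => K x y - θ * dl x y) ≤ topSum A hA k - k * θ := by
    apply pp_le
    intro P hP
    set Q : Matrix S S ℝ := Matrix.of fun i j => P i j with hQ
    have quad : ∀ w : S → ℝ, w ⬝ᵥ (Q *ᵥ w)
        = ∑ x ∈ S, ∑ y ∈ S, P x y * ((if h : x ∈ S then w ⟨x, h⟩ else 0)
          * (if h : y ∈ S then w ⟨y, h⟩ else 0)) := by
      intro w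
      rw [← sum2_coe S (fun x y => P x y * ((if h : x ∈ S then w ⟨x, h⟩ else 0)
          * (if h : y ∈ S then w ⟨y, h⟩ else 0)))]
      simp only [dotProduct, Matrix.mulVec, Finset.mul_sum, hQ, Matrix.of_apply]
      apply Finset.sum_congr rfl; intro i _
      apply Finset.sum_congr rfl; intro j _
      rw [dif_pos i.2, dif_pos j.2]
      ring
    have h2 := hθ Q (by intro w; rw [quad]; exact hP.nonneg _) (by
      intro w
      rw [quad]
      refine (hP.le_one _).trans (le_of_eq ?_)
      rw [dotProduct, ← Finset.sum_coe_sort S (fun x => (if h : x ∈ S then w ⟨x, h⟩ else 0) ^ 2)]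
      apply Finset.sum_congr rfl; intro i _
      rw [dif_pos i.2]
      ring)
    rw [tr_sub, tr_smul, dl_tr]
    have h5 : tr S K P = (A * Q).trace := by
      rw [tr, ← sum2_coe S (fun x y => K x y * P x y), Matrix.trace]
      apply Finset.sum_congr rfl; intro i _
      rw [Matrix.diag_apply, Matrix.mul_apply]
      apply Finset.sum_congr rfl; intro j _
      rw [hK, hQ, Matrix.of_apply, hP.symm i i.2 j j.2]
    have h6 : ∑ x ∈ S, P x x = Q.trace := by
      rw [← Finset.sum_coe_sort S (fun x => P x x), Matrix.trace]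
      apply Finset.sum_congr rfl; intro i _
      rfl
    rw [h5, h6]
    exact h2
  linarith

end transfer

end Pool.Agent.Lib.MP_0ad4be_co.Full
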